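import Pool.Agent.TH694.FV.Jobs1

/-!
# The invariant of the reduction
-/

set_option autoImplicit false

namespace Pool.Agent.TH694.FV

/-- The reduced multigraph `H` stands for the graph `G₀`: the edge `e` stands for the connected part
`R e` of `G₀`. -/
structure Inv (G₀ : Finset Ed) (acc k : ℕ) (H : Finset Ed) (R : Ed → Finset Ed) : Prop where
  tau_eq : tau G₀ ∅ = acc + tau H ∅
  valid : ∀ e ∈ H, Valid e
  name : ∀ e ∈ H, nm e < k
  sub : ∀ e ∈ H, R e ⊆ G₀
  conn : ∀ e ∈ H, Conn (R e)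
  ends_sub : ∀ e ∈ H, ends e ⊆ vs (R e)
  disj : ∀ e ∈ H, ∀ f ∈ H, e ≠ f → Disjoint (R e) (R f)
  inter : ∀ e ∈ H, ∀ f ∈ H, e ≠ f → vs (R e) ∩ vs (R f) ⊆ ends e ∩ ends f
  thinx : ∀ e ∈ H, dg (R e) (px e) ≤ 1 → cc e = ca e ∧ cb e = 0
  thiny : ∀ e ∈ H, dg (R e) (py e) ≤ 1 → cc e = cb e ∧ ca e = 0

theorem vs_biUnion (F : Finset Ed) (R : Ed → Finset Ed) {v : ℕ} :
    v ∈ vs (F.biUnion R) ↔ ∃ f ∈ F, v ∈ vs (R f) := by
  simp only [mem_vs, Finset.mem_biUnion]
  constructor
  · rintro ⟨e, ⟨f, hf, he⟩, hv⟩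
    exact ⟨f, hf, e, he, hv⟩
  · rintro ⟨f, hf, e, he, hv⟩
    exact ⟨e, ⟨f, hf, he⟩, hv⟩

theorem conn_biUnion {F : Finset Ed} {R : Ed → Finset Ed} (hF : Conn F) (hR : ∀ f ∈ F, Conn (R f))
    (he : ∀ f ∈ F, ends f ⊆ vs (R f)) : Conn (F.biUnion R) := by
  obtain ⟨⟨f₀, hf₀⟩, hcut⟩ := hF
  refine ⟨?_, fun A hA hne hne' hdis => ?_⟩
  · obtain ⟨g, hg⟩ := (hR f₀ hf₀).1
    exact ⟨g, Finset.mem_biUnion.2 ⟨f₀, hf₀, hg⟩⟩
  set S := F.biUnion R with hS
  -- every part is on one side
  have hside : ∀ f ∈ F, R f ⊆ A ∨ R f ⊆ S \ A := by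
    intro f hf
    by_contra hcon
    push Not at hcon
    obtain ⟨h1, h2⟩ := hcon
    rw [Finset.not_subset] at h1 h2
    obtain ⟨g1, hg1, hg1A⟩ := h1
    obtain ⟨g2, hg2, hg2A⟩ := h2
    have hg2A' : g2 ∈ A := by
      by_contra h
      exact hg2A (Finset.mem_sdiff.2 ⟨Finset.mem_biUnion.2 ⟨f, hf, hg2⟩, h⟩)
    refine (hR f hf).2 (R f ∩ A) Finset.inter_subset_left ⟨g2, Finset.mem_inter.2 ⟨hg2, hg2A'⟩⟩
      ⟨g1, ?_⟩ ?_
    · rw [Finset.mem_sdiff, Finset.mem_inter]
      exact ⟨hg1, fun h => hg1A h.2⟩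
    · refine Finset.disjoint_of_subset_left (vs_mono Finset.inter_subset_right)
        (Finset.disjoint_of_subset_right (vs_mono ?_) hdis)
      intro g hg
      rw [Finset.mem_sdiff, Finset.mem_inter] at hg
      rw [Finset.mem_sdiff]
      exact ⟨Finset.mem_biUnion.2 ⟨f, hf, hg.1⟩, fun h => hg.2 ⟨hg.1, h⟩⟩
  have h1 : (F.filter (fun f => R f ⊆ A)).Nonempty := by
    obtain ⟨g, hg⟩ := hne
    obtain ⟨f, hf, hgf⟩ := Finset.mem_biUnion.1 (hA hg)
    refine ⟨f, Finset.mem_filter.2 ⟨hf, ?_⟩⟩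
    rcases hside f hf with h | h
    · exact h
    · exact absurd hg (Finset.mem_sdiff.1 (h hgf)).2
  have h2 : (F \ F.filter (fun f => R f ⊆ A)).Nonempty := by
    obtain ⟨g, hg⟩ := hne'
    rw [Finset.mem_sdiff] at hg
    obtain ⟨f, hf, hgf⟩ := Finset.mem_biUnion.1 hg.1
    refine ⟨f, Finset.mem_sdiff.2 ⟨hf, fun h => ?_⟩⟩
    exact hg.2 ((Finset.mem_filter.1 h).2 hgf)
  refine hcut _ (Finset.filter_subset _ _) h1 h2 ?_
  rw [Finset.disjoint_left]
  intro v hv hv'
  obtain ⟨f, hf, hvf⟩ := mem_vs.1 hv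
  obtain ⟨g, hg, hvg⟩ := mem_vs.1 hv'
  rw [Finset.mem_filter] at hf
  rw [Finset.mem_sdiff, Finset.mem_filter, not_and] at hg
  have h3 : R g ⊆ S \ A := (hside g hg.1).resolve_left (hg.2 hg.1)
  exact Finset.disjoint_left.1 hdis (vs_mono hf.2 (he f hf.1 hvf)) (vs_mono h3 (he g hg.1 hvg))

/-- a connected part has an edge at each of its vertices -/
theorem dg_pos {S : Finset Ed} {v : ℕ} (h : v ∈ vs S) : 1 ≤ dg S v := by
  obtain ⟨e, he, hv⟩ := mem_vs.1 h
  exact Finset.card_pos.2 ⟨e, Finset.mem_filter.2 ⟨he, hv⟩⟩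

theorem dg_mono {S S' : Finset Ed} (h : S ⊆ S') (v : ℕ) : dg S v ≤ dg S' v :=
  Finset.card_le_card (Finset.filter_subset_filter _ h)

/-- the number of the edges of `F` at `x` is at most the number of the real edges at `x` -/
theorem dg_le_biUnion {F : Finset Ed} {R : Ed → Finset Ed} (he : ∀ f ∈ F, ends f ⊆ vs (R f))
    (hd : ∀ f ∈ F, ∀ g ∈ F, f ≠ g → Disjoint (R f) (R g)) (x : ℕ) :
    dg F x ≤ dg (F.biUnion R) x := by
  unfold dg
  have h1 : ∀ f ∈ F.filter (fun f => x ∈ ends f), ∃ g ∈ R f, x ∈ ends g := by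
    intro f hf
    rw [Finset.mem_filter] at hf
    exact mem_vs.1 (he f hf.1 hf.2)
  choose! φ hφ1 hφ2 using h1
  refine Finset.card_le_card_of_injOn φ ?_ ?_
  · intro f hf
    have hf' := hf
    simp only [Finset.coe_filter, Set.mem_ofPred_eq] at hf'
    simp only [Finset.coe_filter, Set.mem_ofPred_eq, Finset.mem_biUnion]
    exact ⟨⟨f, hf'.1, hφ1 f hf⟩, hφ2 f hf⟩
  · intro f hf g hg hfg
    by_contra hne
    have hf' := hf
    have hg' := hg
    simp only [Finset.coe_filter, Set.mem_ofPred_eq] at hf' hg'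
    exact Finset.disjoint_left.1 (hd f hf'.1 g hg'.1 hne) (hφ1 f hf) (hfg ▸ hφ1 g hg)

/-- the label of a part which has only one real edge at the boundary vertex `x` -/
theorem thin_part {G₀ : Finset Ed} {acc k : ℕ} {H : Finset Ed} {R : Ed → Finset Ed}
    (I : Inv G₀ acc k H R) {F : Finset Ed} (hF : F ⊆ H) {x : ℕ}
    (hdg : dg (F.biUnion R) x ≤ 1) (D : Finset ℕ) (hD : x ∉ D) :
    tau F (insert x D) = tau F D := by
  have h1 := (dg_le_biUnion (fun f hf => I.ends_sub f (hF hf))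
    (fun f hf g hg hne => I.disj f (hF hf) g (hF hg) hne) x).trans hdg
  refine tau_pendant F (fun e he => I.valid e (hF he)) x h1 (fun e he => ⟨?_, ?_⟩) D hD
  · intro hx
    refine I.thinx e (hF he) ?_
    rw [hx]
    exact (dg_mono (Finset.subset_biUnion_of_mem R he) x).trans hdg
  · intro hx
    refine I.thiny e (hF he) ?_
    rw [hx]
    exact (dg_mono (Finset.subset_biUnion_of_mem R he) x).trans hdg

/-- **One step of the reduction.** -/
theorem Inv.step {G₀ : Finset Ed} {acc k : ℕ} {H : Finset Ed} {R : Ed → Finset Ed}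
    (I : Inv G₀ acc k H R) {F : Finset Ed} (hF : F ⊆ H) (hconn : Conn F) {x y : ℕ} (hxy : x ≠ y)
    (hxF : x ∈ vs F) (hyF : y ∈ vs F) (hbd : bd H F ⊆ {x, y}) {e : Ed} (hx : px e = x)
    (hy : py e = y) (hk : nm e = k) {γ : ℕ} (hγ : tau F {x, y} = γ)
    (ha : tau F {x} = γ + ca e) (hb : tau F {y} = γ + cb e) (hc : tau F ∅ = γ + cc e)
    (hdd : tau (insert (E k x y) F) ∅ = γ + cd e ∨ (bd H F ⊆ {x} ∧ cd e = cc e)) :
    Inv G₀ (acc + γ) (k + 1) (insert e (H \ F)) (Function.update R e (F.biUnion R)) := by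
  have hvF : ∀ f ∈ F, Valid f := fun f hf => I.valid f (hF hf)
  have heH : e ∉ H := fun h => by
    have := I.name e h
    omega
  have heB : e ∉ H \ F := fun h => heH (Finset.mem_sdiff.1 h).1
  have hE : E k x y ∉ F := fun h => by
    have h1 := I.name _ (hF h)
    have h2 : nm (E k x y) = k := rfl
    omega
  have hdis : Disjoint F (H \ F) := Finset.disjoint_sdiff
  have hun : F ∪ (H \ F) = H := Finset.union_sdiff_of_subset hF
  have hvU : ∀ f ∈ F ∪ (H \ F), Valid f := by rw [hun]; exact I.valid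
  have hup : ∀ f ∈ H \ F, Function.update R e (F.biUnion R) f = R f := by
    intro f hf
    rw [Function.update_of_ne]
    rintro rfl
    exact heB hf
  have hupe : Function.update R e (F.biUnion R) e = F.biUnion R := Function.update_self _ _ _
  have hpair : ({y, x} : Finset ℕ) = {x, y} := Finset.pair_comm y x
  -- inequalities
  have i1 : tau F {x} ≤ tau F ∅ := tau_insert_le F hvF ∅ x
  have i2 : tau F {y} ≤ tau F ∅ := tau_insert_le F hvF ∅ y
  have i3 : tau F {x} ≤ tau F {x, y} + 1 := by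
    have := tau_le_insert F {x} y
    rw [show (insert y {x} : Finset ℕ) = {x, y} from hpair] at this
    exact this
  have i4 : tau F {y} ≤ tau F {x, y} + 1 := tau_le_insert F {y} x
  have i5 : tau F ∅ ≤ tau F {x} + 1 := tau_le_insert F ∅ x
  have i6 : tau F ∅ ≤ tau F {y} + 1 := tau_le_insert F ∅ y
  have hvalid : Valid e := by
    refine ⟨by rw [hx, hy]; exact hxy, ?_⟩
    rcases hdd with hdd | ⟨_, hdd⟩
    · have j1 := (tau_le_E F k x y hE ∅).1
      have j2 : tau (insert (E k x y) F) ∅ ≤ tau (insert (E k x y) F) {x} + 1 :=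
        tau_le_insert _ ∅ x
      have j3 : tau (insert (E k x y) F) ∅ ≤ tau (insert (E k x y) F) {y} + 1 :=
        tau_le_insert _ ∅ y
      rw [(tau_le_E F k x y hE {x}).2 (by simp)] at j2
      rw [(tau_le_E F k x y hE {y}).2 (by simp)] at j3
      omega
    · omega
  refine ⟨?_, ?_, ?_, ?_, ?_, ?_, ?_, ?_, ?_, ?_⟩
  · have h1 : tau H ∅ = γ + tau (insert e (H \ F)) ∅ := by
      conv_lhs => rw [← hun]
      rcases hdd with hdd | ⟨hb1, hdd⟩
      · exact replace F (H \ F) x y k hxy hvU hdis hbd hE e hx hy heB γ hγ ha hb hc hdd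
      · refine replace_one F (H \ F) x y hxy hvU hdis hb1 ?_ e hx hy heB γ hγ ha hb hc hdd
        intro h
        have := hb1 (Finset.mem_inter.2 ⟨hyF, h⟩)
        rw [Finset.mem_singleton] at this
        exact hxy this.symm
    rw [I.tau_eq, h1]
    omega
  · intro f hf
    rw [Finset.mem_insert] at hf
    rcases hf with rfl | hf
    · exact hvalid
    · exact I.valid f (Finset.mem_sdiff.1 hf).1
  · intro f hf
    rw [Finset.mem_insert] at hf
    rcases hf with rfl | hf
    · omega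
    · have := I.name f (Finset.mem_sdiff.1 hf).1
      omega
  · intro f hf
    rw [Finset.mem_insert] at hf
    rcases hf with rfl | hf
    · rw [hupe]
      exact Finset.biUnion_subset.2 fun g hg => I.sub g (hF hg)
    · rw [hup f hf]
      exact I.sub f (Finset.mem_sdiff.1 hf).1
  · intro f hf
    rw [Finset.mem_insert] at hf
    rcases hf with rfl | hf
    · rw [hupe]
      exact conn_biUnion hconn (fun g hg => I.conn g (hF hg)) (fun g hg => I.ends_sub g (hF hg))
    · rw [hup f hf]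
      exact I.conn f (Finset.mem_sdiff.1 hf).1
  · intro f hf
    rw [Finset.mem_insert] at hf
    rcases hf with rfl | hf
    · rw [hupe]
      intro v hv
      rw [vs_biUnion]
      have hvF : v ∈ vs F := by
        rcases mem_ends.1 hv with h | h
        · rw [h, hx]; exact hxF
        · rw [h, hy]; exact hyF
      obtain ⟨g, hg, hvg⟩ := mem_vs.1 hvF
      exact ⟨g, hg, I.ends_sub g (hF hg) hvg⟩
    · rw [hup f hf]
      exact I.ends_sub f (Finset.mem_sdiff.1 hf).1
  · have key : ∀ g ∈ H \ F, Disjoint (F.biUnion R) (R g) := by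
      intro g hg
      rw [Finset.mem_sdiff] at hg
      rw [Finset.disjoint_biUnion_left]
      intro f hf
      exact I.disj f (hF hf) g hg.1 (fun h => hg.2 (h ▸ hf))
    intro f hf g hg hne
    rw [Finset.mem_insert] at hf hg
    rcases hf with rfl | hf
    · rcases hg with rfl | hg
      · exact absurd rfl hne
      · rw [hupe, hup g hg]
        exact key g hg
    · rcases hg with rfl | hg
      · rw [hupe, hup f hf]
        exact (key f hf).symm
      · rw [hup f hf, hup g hg]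
        exact I.disj f (Finset.mem_sdiff.1 hf).1 g (Finset.mem_sdiff.1 hg).1 hne
  · have key : ∀ g ∈ H \ F, vs (F.biUnion R) ∩ vs (R g) ⊆ ends e ∩ ends g := by
      intro g hg v hv
      rw [Finset.mem_inter, vs_biUnion] at hv
      obtain ⟨⟨f, hf, hvf⟩, hvg⟩ := hv
      have hg' := Finset.mem_sdiff.1 hg
      have h1 := I.inter f (hF hf) g hg'.1 (fun h => hg'.2 (h ▸ hf)) (Finset.mem_inter.2 ⟨hvf, hvg⟩)
      rw [Finset.mem_inter] at h1 ⊢
      refine ⟨?_, h1.2⟩
      have h2 := hbd (Finset.mem_inter.2 ⟨ends_subset_vs hf h1.1, ends_subset_vs hg h1.2⟩)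
      rw [ends, hx, hy]
      exact h2
    intro f hf g hg hne
    rw [Finset.mem_insert] at hf hg
    rcases hf with rfl | hf
    · rcases hg with rfl | hg
      · exact absurd rfl hne
      · rw [hupe, hup g hg]
        exact key g hg
    · rcases hg with rfl | hg
      · rw [hupe, hup f hf, Finset.inter_comm, Finset.inter_comm (ends f)]
        exact key f hf
      · rw [hup f hf, hup g hg]
        exact I.inter f (Finset.mem_sdiff.1 hf).1 g (Finset.mem_sdiff.1 hg).1 hne
  · intro f hf hdg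
    rw [Finset.mem_insert] at hf
    rcases hf with rfl | hf
    · rw [hupe, hx] at hdg
      have h1 : tau F {x} = tau F ∅ := thin_part I hF hdg ∅ (Finset.notMem_empty _)
      have h2 : tau F {x, y} = tau F {y} := thin_part I hF hdg {y} (by simpa using hxy)
      omega
    · rw [hup f hf] at hdg
      exact I.thinx f (Finset.mem_sdiff.1 hf).1 hdg
  · intro f hf hdg
    rw [Finset.mem_insert] at hf
    rcases hf with rfl | hf
    · rw [hupe, hy] at hdg
      have h1 : tau F {y} = tau F ∅ := thin_part I hF hdg ∅ (Finset.notMem_empty _)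
      have h2 : tau F {y, x} = tau F {x} := thin_part I hF hdg {x} (by simpa using hxy.symm)
      rw [hpair] at h2
      omega
    · rw [hup f hf] at hdg
      exact I.thiny f (Finset.mem_sdiff.1 hf).1 hdg

end Pool.Agent.TH694.FV
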