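import Pool.Agent.TH694.FV.St
import Pool.Agent.TH694.FV.Inv

/-!
# Parts with a long path are subcubic
-/

set_option autoImplicit false

namespace Pool.Agent.TH694.FV

open SimpleGraph

variable {n : ℕ}

/-- the simple graph of a set of labelled edges -/
def gr (n : ℕ) (F : Finset Ed) : SimpleGraph (Fin n) where
  Adj u w := u ≠ w ∧ ∃ e ∈ F, (u : ℕ) ∈ ends e ∧ (w : ℕ) ∈ ends e
  symm := ⟨fun u w h => ⟨h.1.symm, by
    obtain ⟨e, he, h1, h2⟩ := h.2
    exact ⟨e, he, h2, h1⟩⟩⟩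
  loopless := ⟨fun u h => h.1 rfl⟩

theorem gr_adj {F : Finset Ed} {u w : Fin n} :
    (gr n F).Adj u w ↔ u ≠ w ∧ ∃ e ∈ F, (u : ℕ) ∈ ends e ∧ (w : ℕ) ∈ ends e := Iff.rfl

theorem gr_mono {F F' : Finset Ed} (h : F ⊆ F') : gr n F ≤ gr n F' := by
  intro u w huw
  obtain ⟨h1, e, he, h2⟩ := huw
  exact ⟨h1, e, h he, h2⟩

theorem ends_eq_pair {e : Ed} {u w : ℕ} (hne : u ≠ w) (hu : u ∈ ends e) (hw : w ∈ ends e) :
    ends e = {u, w} := by
  rw [mem_ends] at hu hw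
  rw [ends]
  rcases hu with hu | hu <;> rcases hw with hw | hw
  · exact absurd (hu.trans hw.symm) hne
  · rw [hu, hw]
  · rw [hu, hw, Finset.pair_comm]
  · exact absurd (hu.trans hw.symm) hne

theorem realE_mem {G : SimpleGraph (Fin n)} {g : Ed} (h : g ∈ realE G) :
    ∃ i j : Fin n, i < j ∧ G.Adj i j ∧ g = E 0 i j := by
  classical
  unfold realE at h
  rw [Finset.mem_image] at h
  obtain ⟨⟨i, j⟩, h1, h2⟩ := h
  rw [Finset.mem_filter] at h1
  exact ⟨i, j, h1.2.1, h1.2.2, h2.symm⟩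

theorem realE_adj {G : SimpleGraph (Fin n)} {g : Ed} (h : g ∈ realE G) {a b : Fin n} (hab : a ≠ b)
    (ha : (a : ℕ) ∈ ends g) (hb : (b : ℕ) ∈ ends g) : G.Adj a b := by
  obtain ⟨i, j, hij, hadj, rfl⟩ := realE_mem h
  rw [mem_ends] at ha hb
  have e1 : px (E 0 (i : ℕ) (j : ℕ)) = i := rfl
  have e2 : py (E 0 (i : ℕ) (j : ℕ)) = j := rfl
  rw [e1, e2] at ha hb
  rcases ha with ha | ha <;> rcases hb with hb | hb
  · exact absurd (Fin.ext (ha.trans hb.symm)) hab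
  · rw [Fin.ext ha, Fin.ext hb]; exact hadj
  · rw [Fin.ext ha, Fin.ext hb]; exact hadj.symm
  · exact absurd (Fin.ext (ha.trans hb.symm)) hab

theorem realE_lt {G : SimpleGraph (Fin n)} {g : Ed} (h : g ∈ realE G) {a : ℕ}
    (ha : a ∈ ends g) : a < n := by
  obtain ⟨i, j, hij, hadj, rfl⟩ := realE_mem h
  rw [mem_ends] at ha
  rcases ha with ha | ha
  · rw [ha]; exact i.2
  · rw [ha]; exact j.2

/-- the other end of a real edge -/
theorem realE_other {G : SimpleGraph (Fin n)} {g : Ed} (h : g ∈ realE G) {a : Fin n}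
    (ha : (a : ℕ) ∈ ends g) : ∃ b : Fin n, a ≠ b ∧ (b : ℕ) ∈ ends g := by
  obtain ⟨i, j, hij, hadj, rfl⟩ := realE_mem h
  rw [mem_ends] at ha
  rcases ha with ha | ha
  · refine ⟨j, ?_, mem_ends.2 (Or.inr rfl)⟩
    rintro rfl
    exact hadj.ne (Fin.ext ha).symm
  · refine ⟨i, ?_, mem_ends.2 (Or.inl rfl)⟩
    rintro rfl
    exact hadj.ne (Fin.ext ha)

theorem realE_ext {G : SimpleGraph (Fin n)} {g g' : Ed} (h : g ∈ realE G) (h' : g' ∈ realE G)
    {a b : ℕ} (hab : a ≠ b) (h1 : a ∈ ends g) (h2 : b ∈ ends g) (h3 : a ∈ ends g')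
    (h4 : b ∈ ends g') : g = g' := by
  obtain ⟨i, j, hij, hadj, rfl⟩ := realE_mem h
  obtain ⟨i', j', hij', hadj', rfl⟩ := realE_mem h'
  have hlt : (i : ℕ) < j := hij
  have hlt' : (i' : ℕ) < j' := hij'
  rw [mem_ends] at h1 h2 h3 h4
  have e1 : px (E 0 (i : ℕ) (j : ℕ)) = i := rfl
  have e2 : py (E 0 (i : ℕ) (j : ℕ)) = j := rfl
  have e3 : px (E 0 (i' : ℕ) (j' : ℕ)) = i' := rfl
  have e4 : py (E 0 (i' : ℕ) (j' : ℕ)) = j' := rfl
  rw [e1, e2] at h1 h2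
  rw [e3, e4] at h3 h4
  have : (i : ℕ) = i' ∧ (j : ℕ) = j' := by omega
  rw [this.1, this.2]

/-- connected sets of edges give connected graphs -/
theorem reach_of_conn {S : Finset Ed} (hS : Conn S) (hlt : ∀ e ∈ S, ∀ a ∈ ends e, a < n)
    {T : SimpleGraph (Fin n)} (hT : ∀ e ∈ S, ∀ a b : Fin n, (a : ℕ) ∈ ends e → (b : ℕ) ∈ ends e →
      a ≠ b → T.Adj a b) {u w : Fin n} (hu : (u : ℕ) ∈ vs S) (hw : (w : ℕ) ∈ vs S) :
    T.Reachable u w := by
  classical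
  by_contra hcon
  have hstep : ∀ e ∈ S, ∀ a b : Fin n, (a : ℕ) ∈ ends e → (b : ℕ) ∈ ends e →
      T.Reachable u a → T.Reachable u b := by
    intro e he a b ha hb hr
    by_cases hab : a = b
    · rw [← hab]; exact hr
    · exact hr.trans (hT e he a b ha hb hab).reachable
  refine hS.2 (S.filter (fun e => ∃ a : Fin n, (a : ℕ) ∈ ends e ∧ T.Reachable u a))
    (Finset.filter_subset _ _) ?_ ?_ ?_
  · obtain ⟨e, he, hue⟩ := mem_vs.1 hu
    exact ⟨e, Finset.mem_filter.2 ⟨he, u, hue, Reachable.refl _⟩⟩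
  · obtain ⟨e, he, hwe⟩ := mem_vs.1 hw
    refine ⟨e, Finset.mem_sdiff.2 ⟨he, fun h => ?_⟩⟩
    obtain ⟨_, a, ha, hr⟩ := Finset.mem_filter.1 h
    exact hcon (hstep e he a w ha hwe hr)
  · rw [Finset.disjoint_left]
    intro v hv hv'
    obtain ⟨e, he, hve⟩ := mem_vs.1 hv
    obtain ⟨f, hf, hvf⟩ := mem_vs.1 hv'
    rw [Finset.mem_filter] at he
    rw [Finset.mem_sdiff, Finset.mem_filter, not_and] at hf
    obtain ⟨he1, a, ha, hr⟩ := he
    have hvn : v < n := hlt e he1 v hve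
    exact hf.2 hf.1 ⟨⟨v, hvn⟩, hvf, hstep e he1 a ⟨v, hvn⟩ ha hve hr⟩

theorem mem_support_gr {F : Finset Ed} (hne : ∀ e ∈ F, px e ≠ py e)
    (hlt : ∀ e ∈ F, ∀ a ∈ ends e, a < n) {v : Fin n} :
    v ∈ (gr n F).support ↔ (v : ℕ) ∈ vs F := by
  rw [SimpleGraph.mem_support]
  constructor
  · rintro ⟨w, hw⟩
    obtain ⟨_, e, he, h1, _⟩ := hw
    exact mem_vs.2 ⟨e, he, h1⟩
  · intro h
    obtain ⟨e, he, hv⟩ := mem_vs.1 h
    rcases mem_ends.1 hv with h1 | h1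
    · refine ⟨⟨py e, hlt e he _ (mem_ends.2 (Or.inr rfl))⟩, ?_, e, he, hv, mem_ends.2 (Or.inr rfl)⟩
      intro h2
      rw [Fin.ext_iff] at h2
      exact hne e he (h1.symm.trans h2)
    · refine ⟨⟨px e, hlt e he _ (mem_ends.2 (Or.inl rfl))⟩, ?_, e, he, hv, mem_ends.2 (Or.inl rfl)⟩
      intro h2
      rw [Fin.ext_iff] at h2
      exact hne e he (h2.symm.trans h1)

theorem walk_of_reach {F : Finset Ed} (hlt : ∀ e ∈ F, ∀ a ∈ ends e, a < n) {a b v : Fin n}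
    (hva : v ≠ a) (hvb : v ≠ b) {z : ℕ} (h : Reach F {(a : ℕ), (b : ℕ)} v z) :
    ∃ hz : z < n, ∃ p : (gr n F).Walk v ⟨z, hz⟩, a ∉ p.support ∧ b ∉ p.support := by
  induction h with
  | refl =>
    refine ⟨v.2, SimpleGraph.Walk.nil, ?_, ?_⟩
    · simpa using Ne.symm hva
    · simpa using Ne.symm hvb
  | @tail y z h1 h2 ih =>
    obtain ⟨hy, p, hp1, hp2⟩ := ih
    obtain ⟨hz, e, he, hye, hze⟩ := h2
    have hzn : z < n := hlt e he z hze
    by_cases hyz : y = z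
    · subst hyz
      exact ⟨hy, p, hp1, hp2⟩
    · have hadj : (gr n F).Adj ⟨y, hy⟩ ⟨z, hzn⟩ := by
        refine ⟨?_, e, he, hye, hze⟩
        intro h
        rw [Fin.ext_iff] at h
        exact hyz h
      refine ⟨hzn, p.concat hadj, ?_, ?_⟩
      · rw [SimpleGraph.Walk.support_concat, List.mem_append, List.mem_singleton, not_or]
        refine ⟨hp1, ?_⟩
        rintro rfl
        exact hz (by simp)
      · rw [SimpleGraph.Walk.support_concat, List.mem_append, List.mem_singleton, not_or]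
        refine ⟨hp2, ?_⟩
        rintro rfl
        exact hz (by simp)

/-- a list path gives a walk -/
theorem walk_of_pth {F : Finset Ed} (hlt : ∀ e ∈ F, ∀ a ∈ ends e, a < n) :
    ∀ (P : List ℕ) (u : ℕ), Pth F (u :: P) → ∀ hu : u < n, ∃ (w : Fin n)
      (p : (gr n F).Walk ⟨u, hu⟩ w), p.length = P.length ∧ p.support.map Fin.val = u :: P
  | [], u, _, hu => ⟨⟨u, hu⟩, SimpleGraph.Walk.nil, rfl, by simp⟩
  | v :: P, u, h, hu => by
    obtain ⟨h1, h2⟩ := h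
    rw [List.isChain_cons_cons] at h2
    obtain ⟨⟨e, he, hue, hve⟩, h3⟩ := h2
    have hv : v < n := hlt e he v hve
    obtain ⟨w, p, hp1, hp2⟩ := walk_of_pth hlt P v ⟨(List.nodup_cons.1 h1).2, h3⟩ hv
    have hadj : (gr n F).Adj ⟨u, hu⟩ ⟨v, hv⟩ := by
      refine ⟨?_, e, he, hue, hve⟩
      intro h
      rw [Fin.ext_iff] at h
      have : u = v := h
      rw [this] at h1
      exact (List.nodup_cons.1 h1).1 List.mem_cons_self
    refine ⟨w, SimpleGraph.Walk.cons hadj p, by simp [hp1], ?_⟩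
    rw [SimpleGraph.Walk.support_cons, List.map_cons, hp2]

/-- **Long paths force thin parts and degree at most three.** -/
theorem key_mod (L : ℕ) (hL : 1 ≤ L) : ∃ N : ℕ, ∀ (n : ℕ) (G : SimpleGraph (Fin n)),
    ¬ (spider ![1, L, L, L]).IsContained G → ∀ (F : Finset Ed) (R : Ed → Finset Ed),
    (∀ e ∈ F, px e ≠ py e) → (∀ e ∈ F, R e ⊆ realE G) → (∀ e ∈ F, Conn (R e)) →
    (∀ e ∈ F, ends e ⊆ vs (R e)) →
    (∀ e ∈ F, ∀ f ∈ F, e ≠ f → vs (R e) ∩ vs (R f) ⊆ ends e ∩ ends f) →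
    (∀ e ∈ F, ∀ f ∈ F, e ≠ f → ends e ≠ ends f) → Three F →
    (∀ P, Pth F P → P.length < N) ∨
      ((∀ e ∈ F, ∀ v ∈ ends e, dg (R e) v ≤ 1) ∧ ∀ v, dg F v ≤ 3) := by
  classical
  obtain ⟨N, hN⟩ := structural L hL
  refine ⟨N + 2, fun n G hG F R hne hR hconn hends hinter hpar h3 => ?_⟩
  by_contra hcon
  push Not at hcon
  obtain ⟨⟨P, hP, hPN⟩, hcon⟩ := hcon
  have hlt : ∀ e ∈ F, ∀ a ∈ ends e, a < n := by
    intro e he a ha
    obtain ⟨g, hg, hag⟩ := mem_vs.1 (hends e he ha)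
    exact realE_lt (hR e he hg) hag
  set T := gr n F with hT
  let Rm : Fin n → Fin n → SimpleGraph (Fin n) := fun u w =>
    gr n ((F.filter (fun e => (u : ℕ) ∈ ends e ∧ (w : ℕ) ∈ ends e)).biUnion R)
  have hRm : ∀ u w a b, (Rm u w).Adj a b ↔ a ≠ b ∧ ∃ e ∈ F, ((u : ℕ) ∈ ends e ∧ (w : ℕ) ∈ ends e) ∧
      ∃ g ∈ R e, (a : ℕ) ∈ ends g ∧ (b : ℕ) ∈ ends g := by
    intro u w a b
    simp only [Rm, gr_adj, Finset.mem_biUnion, Finset.mem_filter]
    constructor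
    · rintro ⟨h1, g, ⟨e, ⟨he, hu⟩, hg⟩, hab⟩
      exact ⟨h1, e, he, hu, g, hg, hab⟩
    · rintro ⟨h1, e, he, hu, g, hg, hab⟩
      exact ⟨h1, g, ⟨e, ⟨he, hu⟩, hg⟩, hab⟩
  have hM : Model G T Rm := by
    refine ⟨?_, ?_, ?_, ?_⟩
    · intro u w _ a b hab
      obtain ⟨h1, e, he, _, g, hg, h2, h3⟩ := (hRm u w a b).1 hab
      exact realE_adj (hR e he hg) h1 h2 h3
    · intro u w
      ext a b
      rw [hRm, hRm]
      constructor
      · rintro ⟨h1, e, he, hu, h⟩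
        exact ⟨h1, e, he, hu.symm, h⟩
      · rintro ⟨h1, e, he, hu, h⟩
        exact ⟨h1, e, he, hu.symm, h⟩
    · intro u w huw
      obtain ⟨h1, e, he, hu, hw⟩ := huw
      refine reach_of_conn (hconn e he) (fun g hg a ha => realE_lt (hR e he hg) ha) ?_
        (hends e he hu) (hends e he hw)
      intro g hg a b ha hb hab
      exact (hRm u w a b).2 ⟨hab, e, he, ⟨hu, hw⟩, g, hg, ha, hb⟩
    · intro u w u' w' a huw huw' hs ha ha'
      rw [SimpleGraph.mem_support] at ha ha'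
      obtain ⟨b, hb⟩ := ha
      obtain ⟨b', hb'⟩ := ha'
      obtain ⟨_, e, he, ⟨hu, hw⟩, g, hg, hag, _⟩ := (hRm u w a b).1 hb
      obtain ⟨_, e', he', ⟨hu', hw'⟩, g', hg', hag', _⟩ := (hRm u' w' a b').1 hb'
      have p1 := ends_eq_pair (fun h => huw.1 (Fin.ext h)) hu hw
      have p2 := ends_eq_pair (fun h => huw'.1 (Fin.ext h)) hu' hw'
      have hee : e ≠ e' := by
        rintro rfl
        apply hs
        rw [p1] at p2
        have q1 : (u : ℕ) = u' ∨ (u : ℕ) = w' := by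
          have : (u : ℕ) ∈ ({(u' : ℕ), (w' : ℕ)} : Finset ℕ) := by rw [← p2]; simp
          simpa using this
        have q2 : (w : ℕ) = u' ∨ (w : ℕ) = w' := by
          have : (w : ℕ) ∈ ({(u' : ℕ), (w' : ℕ)} : Finset ℕ) := by rw [← p2]; simp
          simpa using this
        have q3 := huw.1
        rw [Sym2.eq_iff]
        rcases q1 with q1 | q1 <;> rcases q2 with q2 | q2
        · exact absurd (Fin.ext (q1.trans q2.symm)) q3
        · exact Or.inl ⟨Fin.ext q1, Fin.ext q2⟩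
        · exact Or.inr ⟨Fin.ext q1, Fin.ext q2⟩
        · exact absurd (Fin.ext (q1.trans q2.symm)) q3
      have h1 := hinter e he e' he' hee (Finset.mem_inter.2
        ⟨mem_vs.2 ⟨g, hg, hag⟩, mem_vs.2 ⟨g', hg', hag'⟩⟩)
      rw [Finset.mem_inter, p1, p2] at h1
      simp only [Finset.mem_insert, Finset.mem_singleton] at h1
      exact ⟨h1.1.imp (fun h => Fin.ext h) (fun h => Fin.ext h),
        h1.2.imp (fun h => Fin.ext h) (fun h => Fin.ext h)⟩
  have hsup : ∀ v : Fin n, v ∈ T.support ↔ (v : ℕ) ∈ vs F := fun v => mem_support_gr hne hlt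
  have hThree : Three' T := by
    intro v z a b hv hz hva hvb hza hzb
    have hne' : ∀ {i j : Fin n}, i ≠ j → (i : ℕ) ≠ j := fun h h' => h (Fin.ext h')
    obtain ⟨hz', p, hp⟩ := walk_of_reach hlt hva hvb
      (h3 v ((hsup v).1 hv) z ((hsup z).1 hz) a b (hne' hva) (hne' hvb) (hne' hza) (hne' hzb))
    exact ⟨p, hp⟩
  have hpath : ∃ u w, ∃ p : T.Walk u w, p.IsPath ∧ N ≤ p.length := by
    match P, hP, hPN with
    | [], _, h => simp at h
    | [u], _, h => simp at h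
    | u :: v :: P, hP, h =>
      have hu : u < n := by
        obtain ⟨e, he, hue, _⟩ := (List.isChain_cons_cons.1 hP.2).1
        exact hlt e he u hue
      obtain ⟨w, p, hp1, hp2⟩ := walk_of_pth hlt (v :: P) u hP hu
      refine ⟨_, w, p, ?_, ?_⟩
      · rw [SimpleGraph.Walk.isPath_def]
        have : (p.support.map Fin.val).Nodup := by rw [hp2]; exact hP.1
        exact List.Nodup.of_map _ this
      · rw [hp1]
        simp only [List.length_cons] at h ⊢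
        omega
  have hnofat : ∀ v : Fin n, (v : ℕ) ∈ vs F →
      ¬ ((∃ s : Finset (Fin n), s.card = 4 ∧ ∀ u ∈ s, T.Adj v u) ∨
        ∃ w a b, T.Adj v w ∧ a ≠ b ∧ (Rm v w).Adj v a ∧ (Rm v w).Adj v b) := by
    intro v hv hfat
    exact hG (hN (Fin n) G T Rm hM hThree hpath v ((hsup v).2 hv) hfat)
  have hA : ∀ e ∈ F, ∀ v ∈ ends e, dg (R e) v ≤ 1 := by
    intro e he v hv
    by_contra hgt
    rw [not_le, dg, Finset.one_lt_card] at hgt
    obtain ⟨g, hg, g', hg', hgg⟩ := hgt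
    rw [Finset.mem_filter] at hg hg'
    have hvn : v < n := hlt e he v hv
    obtain ⟨a, ha, hag⟩ := realE_other (hR e he hg.1) (a := ⟨v, hvn⟩) hg.2
    obtain ⟨b, hb, hbg⟩ := realE_other (hR e he hg'.1) (a := ⟨v, hvn⟩) hg'.2
    -- the other end of `e`
    obtain ⟨w, hwe, hvw⟩ : ∃ w ∈ ends e, v ≠ w := by
      rcases mem_ends.1 hv with h | h
      · exact ⟨py e, mem_ends.2 (Or.inr rfl), by rw [h]; exact hne e he⟩
      · exact ⟨px e, mem_ends.2 (Or.inl rfl), by rw [h]; exact (hne e he).symm⟩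
    have hwn : w < n := hlt e he w hwe
    refine hnofat ⟨v, hvn⟩ (mem_vs.2 ⟨e, he, hv⟩) (Or.inr ⟨⟨w, hwn⟩, a, b, ?_, ?_, ?_, ?_⟩)
    · exact ⟨fun h => hvw (Fin.ext_iff.1 h), e, he, hv, hwe⟩
    · rintro rfl
      exact hgg (realE_ext (hR e he hg.1) (hR e he hg'.1) (fun h => ha (Fin.ext h)) hg.2 hag
        hg'.2 hbg)
    · exact (hRm _ _ _ _).2 ⟨ha, e, he, ⟨hv, hwe⟩, g, hg.1, hg.2, hag⟩
    · exact (hRm _ _ _ _).2 ⟨hb, e, he, ⟨hv, hwe⟩, g', hg'.1, hg'.2, hbg⟩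
  obtain ⟨v, hv⟩ := hcon hA
  -- four edges at `v`
  have hvF : v ∈ vs F := by
    have : 0 < dg F v := by omega
    obtain ⟨e, he⟩ := Finset.card_pos.1 this
    rw [Finset.mem_filter] at he
    exact mem_vs.2 ⟨e, he.1, he.2⟩
  have hvn : v < n := by
    obtain ⟨e, he, hve⟩ := mem_vs.1 hvF
    exact hlt e he v hve
  obtain ⟨Q, hQ, hQc⟩ := Finset.exists_subset_card_eq (s := F.filter (fun e => v ∈ ends e)) (n := 4)
    (by unfold dg at hv; omega)
  have hoth : ∀ e ∈ Q, ∃ w : Fin n, (w : ℕ) ∈ ends e ∧ (⟨v, hvn⟩ : Fin n) ≠ w := by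
    intro e he
    have he' := Finset.mem_filter.1 (hQ he)
    rcases mem_ends.1 he'.2 with h | h
    · refine ⟨⟨py e, hlt e he'.1 _ (mem_ends.2 (Or.inr rfl))⟩, mem_ends.2 (Or.inr rfl), ?_⟩
      intro h'
      rw [Fin.ext_iff] at h'
      exact hne e he'.1 (h.symm.trans h')
    · refine ⟨⟨px e, hlt e he'.1 _ (mem_ends.2 (Or.inl rfl))⟩, mem_ends.2 (Or.inl rfl), ?_⟩
      intro h'
      rw [Fin.ext_iff] at h'
      exact hne e he'.1 (h'.symm.trans h)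
  have : Nonempty (Fin n) := ⟨⟨v, hvn⟩⟩
  choose! φ hφ1 hφ2 using hoth
  refine hnofat ⟨v, hvn⟩ hvF (Or.inl ⟨Q.image φ, ?_, ?_⟩)
  · rw [Finset.card_image_of_injOn, hQc]
    intro e he f hf hef
    by_contra hef'
    have he' := Finset.mem_filter.1 (hQ he)
    have hf' := Finset.mem_filter.1 (hQ hf)
    refine hpar e he'.1 f hf'.1 hef' ?_
    rw [ends_eq_pair (fun h => hφ2 e he (Fin.ext h)) he'.2 (hφ1 e he),
      ends_eq_pair (fun h => hφ2 f hf (Fin.ext h)) hf'.2 (hφ1 f hf), hef]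
  · intro u hu
    rw [Finset.mem_image] at hu
    obtain ⟨e, he, rfl⟩ := hu
    have he' := Finset.mem_filter.1 (hQ he)
    exact ⟨hφ2 e he, e, he'.1, he'.2, hφ1 e he⟩

end Pool.Agent.TH694.FV
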