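import Pool.Agent.TH694.FV.Dp
import Pool.Agent.TH694.FV.Key

/-!
# The algorithm: definitions and elementary facts
-/

set_option autoImplicit false

namespace Pool.Agent.TH694.FV

open Pool.Agent

/-- the list of the vertices -/
def vl (F : List Ed) : List ℕ := (F.flatMap (fun e => [px e, py e])).dedup

theorem mem_vl {F : List Ed} {v : ℕ} : v ∈ vl F ↔ v ∈ vs F.toFinset := by
  simp only [vl, List.mem_dedup, List.mem_flatMap, mem_vs, List.mem_toFinset, mem_ends,
    List.mem_cons, List.not_mem_nil, or_false]

theorem nodup_vl (F : List Ed) : (vl F).Nodup := List.nodup_dedup _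

/-- the bridge class as a list -/
def clsL (H : List Ed) (A : List ℕ) (e : Ed) : List Ed :=
  H.filter fun f => decide (f = e ∨ ∃ u ∈ [px e, py e], u ∉ A ∧ ∃ w ∈ [px f, py f], w ∉ A ∧
    w ∈ reachL H A u)

theorem clsL_toFinset {H : List Ed} {A : List ℕ} {e : Ed} (he : e ∈ H) :
    (clsL H A e).toFinset = cls H.toFinset A.toFinset e := by
  classical
  ext f
  simp only [clsL, cls, List.mem_toFinset, List.mem_filter, decide_eq_true_eq, Finset.mem_filter]
  refine and_congr_right fun hf => or_congr Iff.rfl ?_
  constructor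
  · rintro ⟨u, hu, huA, w, hw, hwA, hr⟩
    have hu' : u ∈ ends e := by
      rw [mem_ends]; simpa using hu
    have hw' : w ∈ ends f := by
      rw [mem_ends]; simpa using hw
    have huH : u ∈ vs H.toFinset := mem_vs.2 ⟨e, List.mem_toFinset.2 he, hu'⟩
    exact ⟨u, hu', by simpa using huA, w, hw', by simpa using hwA,
      ((mem_reachL huH huA).1 hr).2⟩
  · rintro ⟨u, hu, huA, w, hw, hwA, hr⟩
    have huH : u ∈ vs H.toFinset := mem_vs.2 ⟨e, List.mem_toFinset.2 he, hu⟩
    have hwH : w ∈ vs H.toFinset := mem_vs.2 ⟨f, List.mem_toFinset.2 hf, hw⟩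
    have huA' : u ∉ A := by simpa using huA
    exact ⟨u, by simpa using mem_ends.1 hu, huA', w, by simpa using mem_ends.1 hw,
      by simpa using hwA, (mem_reachL huH huA').2 ⟨hwH, hr⟩⟩

theorem clsL_sublist (H : List Ed) (A : List ℕ) (e : Ed) : (clsL H A e).Sublist H :=
  List.filter_sublist

/-- the boundary as a list -/
def bdL (H F : List Ed) : List ℕ :=
  (vl F).filter fun v => decide (∃ g ∈ H, g ∉ F ∧ (v = px g ∨ v = py g))

theorem bdL_toFinset (H F : List Ed) : (bdL H F).toFinset = bd H.toFinset F.toFinset := by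
  ext v
  simp only [bdL, bd, List.mem_toFinset, List.mem_filter, decide_eq_true_eq, Finset.mem_inter,
    mem_vl]
  refine and_congr_right fun _ => ?_
  rw [mem_vs]
  constructor
  · rintro ⟨g, hg, hgF, hv⟩
    exact ⟨g, Finset.mem_sdiff.2 ⟨List.mem_toFinset.2 hg, by simpa using hgF⟩, mem_ends.2 hv⟩
  · rintro ⟨g, hg, hv⟩
    rw [Finset.mem_sdiff, List.mem_toFinset, List.mem_toFinset] at hg
    exact ⟨g, hg.1, hg.2, mem_ends.1 hv⟩

theorem nodup_bdL (H F : List Ed) : (bdL H F).Nodup := (nodup_vl F).filter _

theorem length_bdL (H F : List Ed) : (bdL H F).length = (bd H.toFinset F.toFinset).card := by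
  rw [← bdL_toFinset, List.toFinset_card_of_nodup (nodup_bdL H F)]

/-- a minimal element -/
def argmin {β : Type} (f : β → ℕ) (l : List β) : List β :=
  (l.filter fun b => decide (∀ b' ∈ l, f b ≤ f b')).take 1

theorem argmin_nil {β : Type} {f : β → ℕ} {l : List β} (h : argmin f l = []) : l = [] := by
  by_contra hne
  obtain ⟨b, hb, hmin⟩ : ∃ b ∈ l, ∀ b' ∈ l, f b ≤ f b' := by
    classical
    obtain ⟨b, hb, hmin⟩ := Finset.exists_min_image (l.map f).toFinset id
      ⟨f (l.head hne), by
        rw [List.mem_toFinset]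
        exact List.mem_map_of_mem (List.head_mem hne)⟩
    rw [List.mem_toFinset, List.mem_map] at hb
    obtain ⟨a, ha, rfl⟩ := hb
    refine ⟨a, ha, fun b' hb' => hmin (f b') ?_⟩
    rw [List.mem_toFinset]
    exact List.mem_map_of_mem hb'
  have h1 : b ∈ l.filter fun b => decide (∀ b' ∈ l, f b ≤ f b') := by
    rw [List.mem_filter]
    exact ⟨hb, decide_eq_true hmin⟩
  rw [argmin, List.take_eq_nil_iff] at h
  rcases h with h | h
  · omega
  · rw [h] at h1
    exact absurd h1 List.not_mem_nil

theorem argmin_mem {β : Type} {f : β → ℕ} {l : List β} {b : β} (h : b ∈ argmin f l) :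
    b ∈ l ∧ ∀ b' ∈ l, f b ≤ f b' := by
  have h1 := List.mem_of_mem_take h
  rw [List.mem_filter] at h1
  exact ⟨h1.1, of_decide_eq_true h1.2⟩

/-- two adjacent edges with a boundary of at most two vertices -/
def cand1 (H : List Ed) : List (List Ed) :=
  H.flatMap fun e => (H.filter fun f => decide (e ≠ f ∧
    (∃ u ∈ [px e, py e], u ∈ [px f, py f]) ∧ (bdL H [e, f]).length ≤ 2)).map fun f => [e, f]

/-- vertices, and a number which is no vertex -/
def al (H : List Ed) : List ℕ := ((vl H).sum + 1) :: vl H

/-- bridge classes of one vertex -/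
def candB (H : List Ed) : List (List Ed) :=
  (al H).flatMap fun a => (H.map fun e => clsL H [a] e).filter fun F => decide (2 ≤ F.length)

/-- bridge classes of `a` and `b` inside `B` -/
def candG (H B : List Ed) (a b : ℕ) : List (List Ed) :=
  (H.map fun e => clsL H [a, b] e).filter fun F => decide (2 ≤ F.length ∧ ∀ g ∈ F, g ∈ B)

/-- bridge classes of two vertices inside `B` -/
def candF (H B : List Ed) : List (List Ed) :=
  (al H).flatMap fun a => (al H).flatMap fun b => candG H B a b

/-- the part which is replaced next -/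
def pick (H : List Ed) : List (List Ed) :=
  (cand1 H ++ (argmin List.length (candB H)).flatMap
    fun B => argmin List.length (candF H B)).take 1

/-- the condition for the use of matroid parity -/
def Good (F : List Ed) : Prop :=
  (∀ e ∈ F, ca e = 0 ∧ cb e = 0 ∧ cc e = 0 ∧ cd e ≤ 1) ∧
    ∀ v ∈ vl F, (F.filter fun e => decide (cd e = 1 ∧ (v = px e ∨ v = py e))).length ≤ 3

instance (F : List Ed) : Decidable (Good F) := by unfold Good; infer_instance

theorem length_filter_dg {F : List Ed} (hF : F.Nodup) (v : ℕ) :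
    (F.filter fun e => decide (cd e = 1 ∧ (v = px e ∨ v = py e))).length =
      dg (F.toFinset.filter (fun e => cd e = 1)) v := by
  rw [dg, ← List.toFinset_card_of_nodup (hF.filter _)]
  congr 1
  ext e
  simp only [List.mem_toFinset, List.mem_filter, decide_eq_true_eq, Finset.mem_filter, mem_ends]
  tauto

theorem good_iff {F : List Ed} (hF : F.Nodup) : Good F ↔
    (∀ e ∈ F, ca e = 0 ∧ cb e = 0 ∧ cc e = 0 ∧ cd e ≤ 1) ∧
      ∀ v, dg (F.toFinset.filter (fun e => cd e = 1)) v ≤ 3 := by
  refine and_congr_right fun _ => ⟨fun h v => ?_, fun h v _ => ?_⟩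
  · by_cases hv : v ∈ vl F
    · rw [← length_filter_dg hF]
      exact h v hv
    · have : dg (F.toFinset.filter (fun e => cd e = 1)) v = 0 := by
        rw [dg, Finset.card_eq_zero, Finset.filter_eq_empty_iff]
        intro e he hve
        rw [Finset.mem_filter] at he
        exact hv (mem_vl.2 (mem_vs.2 ⟨e, he.1, hve⟩))
      omega
  · rw [length_filter_dg hF]
    exact h v

section step

variable (par dp : List Ed → List ℕ → ℕ)

/-- the algorithm for parts -/
def base (ok : Bool) (F : List Ed) (D : List ℕ) : ℕ := bif ok then par F D else dp F D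

/-- the boundary vertices, followed by the other vertices -/
def ol (H F : List Ed) : List ℕ :=
  bdL H F ++ (vl F).filter fun v => decide (v ∉ bdL H F)

/-- first end of the new edge -/
def xo (H F : List Ed) : ℕ := (ol H F).getD 0 0

/-- second end of the new edge -/
def yo (H F : List Ed) : ℕ := (ol H F).getD 1 0

/-- the part with the virtual edge -/
def Fv (k : ℕ) (H F : List Ed) : List Ed :=
  bif decide ((bdL H F).length = 2) then E k (xo H F) (yo H F) :: F else F

/-- abbreviation -/
def bs (k : ℕ) (H F : List Ed) (D : List ℕ) : ℕ := base par dp (decide (Good (Fv k H F))) F D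

/-- abbreviation -/
def bv (k : ℕ) (H F : List Ed) : ℕ := base par dp (decide (Good (Fv k H F))) (Fv k H F) []

/-- the number `γ` -/
def gam (k : ℕ) (H F : List Ed) : ℕ := min (bs par dp k H F [xo H F, yo H F]) (2 * F.length)

/-- the new edge -/
def newE (k : ℕ) (H F : List Ed) : Ed :=
  ((k, xo H F, yo H F),
    (min (bs par dp k H F [xo H F] - gam par dp k H F) 1,
      min (bs par dp k H F [yo H F] - gam par dp k H F) 1),
    (min (bs par dp k H F [] - gam par dp k H F) 2,
      min (bv par dp k H F - gam par dp k H F) 2))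

/-- replacement of the part `F` -/
def repl (s : ℕ × ℕ × List Ed) (F : List Ed) : ℕ × ℕ × List Ed :=
  (s.1 + gam par dp s.2.1 s.2.2 F, s.2.1 + 1,
    newE par dp s.2.1 s.2.2 F :: s.2.2.filter fun e => decide (e ∉ F))

/-- one step -/
def step (s : ℕ × ℕ × List Ed) : ℕ × ℕ × List Ed :=
  (((pick s.2.2).map fun F => repl par dp s F).head?).getD s

/-- the whole algorithm -/
def solve (H : List Ed) : ℕ :=
  let s := H.foldl (fun s _ => step par dp s) (0, 1, H)
  s.1 + (s.2.2.map cc).sum

end step

end Pool.Agent.TH694.FV
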