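import Mathlib

/-!
# Feedback vertex sets: labelled multigraphs

A labelled edge is a tuple `((name, x, y), (a, b), (c, d))` with ends `x ≠ y`.  It stands for a part of a
graph which is attached to the rest at `x` and `y` only; the numbers `a, b, c, d` are the costs when
`x` is deleted and `y` is kept, when `y` is deleted and `x` is kept, when both are kept and may be
connected inside the part, and when both are kept and must not be connected inside the part.
-/

set_option autoImplicit false

namespace Pool.Agent.TH694.FV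

/-- labelled edges -/
abbrev Ed : Type := (ℕ × ℕ × ℕ) × (ℕ × ℕ) × (ℕ × ℕ)

/-- name -/
abbrev nm (e : Ed) : ℕ := e.1.1
/-- first end -/
abbrev px (e : Ed) : ℕ := e.1.2.1
/-- second end -/
abbrev py (e : Ed) : ℕ := e.1.2.2
/-- cost when the first end is deleted and the second is kept -/
abbrev ca (e : Ed) : ℕ := e.2.1.1
/-- cost when the second end is deleted and the first is kept -/
abbrev cb (e : Ed) : ℕ := e.2.1.2
/-- cost when both ends are kept and the edge is connected -/
abbrev cc (e : Ed) : ℕ := e.2.2.1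
/-- cost when both ends are kept and the edge is not connected -/
abbrev cd (e : Ed) : ℕ := e.2.2.2

/-- an ordinary edge -/
abbrev E (i x y : ℕ) : Ed := ((i, x, y), (0, 0), (0, 1))

/-- the set of the ends -/
def ends (e : Ed) : Finset ℕ := {px e, py e}

/-- the vertices of a set of edges -/
def vs (F : Finset Ed) : Finset ℕ := F.biUnion ends

/-- `C` is the edge set of a forest (without parallel edges). -/
def Forest (C : Finset Ed) : Prop := ∀ Y ⊆ C, Y.Nonempty → Y.card + 1 ≤ (vs Y).card

/-- admissible labels -/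
def Valid (e : Ed) : Prop :=
  px e ≠ py e ∧ ca e ≤ cc e ∧ cb e ≤ cc e ∧ cc e ≤ cd e ∧ ca e ≤ 1 ∧ cb e ≤ 1 ∧
    cd e ≤ 1 + ca e ∧ cd e ≤ 1 + cb e

/-- the cost of the edge `e`, when the vertices of `X` are deleted and the edges of `C` are
connected -/
def ecost (X : Finset ℕ) (C : Finset Ed) (e : Ed) : ℕ :=
  if px e ∈ X then (if py e ∈ X then 0 else ca e)
  else if py e ∈ X then cb e else if e ∈ C then cc e else cd e

/-- `X` is a set of deleted vertices containing `D`, and `C` is a set of connected edges. -/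
structure Cfg (H : Finset Ed) (D X : Finset ℕ) (C : Finset Ed) : Prop where
  DX : D ⊆ X
  CH : C ⊆ H
  kept : ∀ e ∈ C, px e ∉ X ∧ py e ∉ X
  forest : Forest C

/-- the cost of a configuration -/
def cost (H : Finset Ed) (D X : Finset ℕ) (C : Finset Ed) : ℕ :=
  (X \ D).card + ∑ e ∈ H, ecost X C e

/-- the minimum cost of a configuration, when the vertices of `D` are deleted for free -/
noncomputable def tau (H : Finset Ed) (D : Finset ℕ) : ℕ :=
  sInf {n | ∃ X C, Cfg H D X C ∧ cost H D X C = n}

/-- connected sets of edges -/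
def Conn (S : Finset Ed) : Prop :=
  S.Nonempty ∧ ∀ A ⊆ S, A.Nonempty → (S \ A).Nonempty → ¬ Disjoint (vs A) (vs (S \ A))

/-- the number of edges of `S` at `v` -/
def dg (S : Finset Ed) (v : ℕ) : ℕ := (S.filter (fun e => v ∈ ends e)).card

/-- the boundary of a set `F` of edges in `H` -/
def bd (H F : Finset Ed) : Finset ℕ := vs F ∩ vs (H \ F)

/-- `w` can be reached from `v` along edges of `F` avoiding the set `A` -/
def Reach (F : Finset Ed) (A : Finset ℕ) (v w : ℕ) : Prop :=
  Relation.ReflTransGen (fun p q => q ∉ A ∧ ∃ e ∈ F, p ∈ ends e ∧ q ∈ ends e) v w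

theorem mem_ends {e : Ed} {v : ℕ} : v ∈ ends e ↔ v = px e ∨ v = py e := by
  simp [ends]

theorem mem_vs {F : Finset Ed} {v : ℕ} : v ∈ vs F ↔ ∃ e ∈ F, v ∈ ends e := by
  simp [vs]

theorem vs_mono {F F' : Finset Ed} (h : F ⊆ F') : vs F ⊆ vs F' :=
  Finset.biUnion_subset_biUnion_of_subset_left _ h

theorem vs_union (F F' : Finset Ed) : vs (F ∪ F') = vs F ∪ vs F' := by
  simp [vs, Finset.union_biUnion]

theorem vs_insert (e : Ed) (F : Finset Ed) : vs (insert e F) = ends e ∪ vs F := by
  simp [vs]

theorem Forest.mono {C C' : Finset Ed} (h : Forest C) (hs : C' ⊆ C) : Forest C' :=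
  fun Y hY hne => h Y (hY.trans hs) hne

theorem forest_empty : Forest ∅ := fun Y hY hne => by
  rw [Finset.subset_empty] at hY
  exact absurd hY hne.ne_empty

theorem cfg_base (H : Finset Ed) (D : Finset ℕ) : Cfg H D D ∅ :=
  ⟨le_rfl, by simp, by simp, forest_empty⟩

theorem exists_tau (H : Finset Ed) (D : Finset ℕ) : ∃ X C, Cfg H D X C ∧ cost H D X C = tau H D :=
  Nat.sInf_mem (s := {n | ∃ X C, Cfg H D X C ∧ cost H D X C = n}) ⟨_, D, ∅, cfg_base H D, rfl⟩

theorem tau_le {H : Finset Ed} {D X : Finset ℕ} {C : Finset Ed} (h : Cfg H D X C) :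
    tau H D ≤ cost H D X C := Nat.sInf_le ⟨X, C, h, rfl⟩

end Pool.Agent.TH694.FV
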