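import Pool.Agent.TH694.FV.Defs

/-!
# Spiders, paths, models
-/

set_option autoImplicit false

namespace Pool.Agent.TH694.FV

/-- The subdivided star with legs of `l 0, l 1, l 2, l 3` edges: `none` is the centre, and
`some ⟨i, j⟩` is the `j`-th vertex of the `i`-th leg. -/
def spider (l : Fin 4 → ℕ) : SimpleGraph (Option (Σ i : Fin 4, Fin (l i))) :=
  SimpleGraph.fromRel fun u w => match u, w with
    | none, some ⟨_, j⟩ => j.val = 0
    | some ⟨i, j⟩, some ⟨i', j'⟩ => i = i' ∧ j'.val = j.val + 1
    | _, _ => False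

/-- the edges of a graph as labelled edges -/
noncomputable def realE {n : ℕ} (G : SimpleGraph (Fin n)) : Finset Ed := open Classical in
  (Finset.univ.filter (fun p : Fin n × Fin n => p.1 < p.2 ∧ G.Adj p.1 p.2)).image
    (fun p => E 0 p.1 p.2)

/-- the list `P` is a path in the multigraph with edge set `F` -/
def Pth (F : Finset Ed) (P : List ℕ) : Prop :=
  P.Nodup ∧ P.IsChain (fun u w => ∃ e ∈ F, u ∈ ends e ∧ w ∈ ends e)

open Classical in
/-- the bridge class of `e` with respect to the vertex set `A`: the edges of `H` which can be reached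
from `e` without passing through a vertex of `A` -/
noncomputable def cls (H : Finset Ed) (A : Finset ℕ) (e : Ed) : Finset Ed :=
  H.filter fun f => f = e ∨ ∃ u ∈ ends e, u ∉ A ∧ ∃ w ∈ ends f, w ∉ A ∧ Reach H A u w

/-- no two vertices separate two other vertices -/
def Three (F : Finset Ed) : Prop :=
  ∀ v ∈ vs F, ∀ z ∈ vs F, ∀ a b, v ≠ a → v ≠ b → z ≠ a → z ≠ b → Reach F {a, b} v z

/-- `R` replaces every edge of `T` by a connected part of `G`; different parts meet at most in common
ends. -/
structure Model {V : Type} (G T : SimpleGraph V) (R : V → V → SimpleGraph V) : Prop where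
  le : ∀ u w, T.Adj u w → R u w ≤ G
  symm : ∀ u w, R u w = R w u
  reach : ∀ u w, T.Adj u w → (R u w).Reachable u w
  disj : ∀ u w u' w' a, T.Adj u w → T.Adj u' w' → s(u, w) ≠ s(u', w') →
    a ∈ (R u w).support → a ∈ (R u' w').support → (a = u ∨ a = w) ∧ (a = u' ∨ a = w')

/-- no two vertices of the support separate two other vertices of the support -/
def Three' {V : Type} (T : SimpleGraph V) : Prop :=
  ∀ v z a b, v ∈ T.support → z ∈ T.support → v ≠ a → v ≠ b → z ≠ a → z ≠ b →
    ∃ p : T.Walk v z, a ∉ p.support ∧ b ∉ p.support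

/-- `m` paths of length at least `L` from `h` which pairwise meet only in `h` -/
def Legs {V : Type} (T : SimpleGraph V) (m L : ℕ) (h : V) (z : Fin m → V)
    (p : ∀ i, T.Walk h (z i)) : Prop :=
  (∀ i, (p i).IsPath) ∧ (∀ i, L ≤ (p i).length) ∧
    ∀ i j, i ≠ j → ∀ u, u ∈ (p i).support → u ∈ (p j).support → u = h

end Pool.Agent.TH694.FV
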