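import Pool.Agent.TH694.FV.Jobs2

/-!
# Parts without long paths
-/

set_option autoImplicit false

namespace Pool.Agent.TH694.FV

open Pool.Agent Pool.Agent.NPC Pool.Agent.TH645.FV

/-- cost of an edge with kept ends -/
def gK (M : ℕ) (e : Ed) (ip jq : ℕ × Option Ed) : ℕ :=
  bif decide ((ip.2 = some e ∧ ¬ jq.2 = some e ∧ jq.1 < ip.1) ∨
    (jq.2 = some e ∧ ¬ ip.2 = some e ∧ ip.1 < jq.1)) then cc e
  else bif decide (¬ ip.2 = some e ∧ ¬ jq.2 = some e) then cd e else M

/-- cost of an edge -/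
def gL (M : ℕ) (e : Ed) (s t : St) : ℕ :=
  s.elim (t.elim 0 fun _ => ca e) fun ip => t.elim (cb e) fun jq => gK M e ip jq

theorem gL_eq (F : Finset Ed) (e : Ed) (s t : St) : gL (big F) e s t = gcost F e s t := by
  rcases s with _ | ⟨i, p⟩ <;> rcases t with _ | ⟨j, q⟩
  · rfl
  · rfl
  · rfl
  · simp only [gL, gK, gcost, Option.elim_some]
    by_cases h : (p = some e ∧ ¬ q = some e ∧ j < i) ∨ (q = some e ∧ ¬ p = some e ∧ i < j)
    · rw [decide_eq_true h, cond_true, if_pos h]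
    · rw [decide_eq_false h, cond_false, if_neg h]
      by_cases h' : ¬ p = some e ∧ ¬ q = some e
      · rw [decide_eq_true h', cond_true, if_pos h']
      · rw [decide_eq_false h', cond_false, if_neg h']

/-- cost of a vertex -/
def wL (M : ℕ) (D : List ℕ) (v : ℕ) (s : St) : ℕ :=
  bif decide (v ∈ D) then (s.elim 0 fun _ => M) else (s.elim 1 fun _ => 0)

theorem wL_eq (F : Finset Ed) (D : List ℕ) (v : ℕ) (s : St) :
    wL (big F) D v s = wcost F D.toFinset v s := by
  unfold wL wcost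
  by_cases h : v ∈ D
  · rw [decide_eq_true h, cond_true, if_pos (List.mem_toFinset.2 h)]
    rcases s with _ | s
    · rfl
    · rfl
  · rw [decide_eq_false h, cond_false, if_neg (fun h' => h (List.mem_toFinset.1 h'))]
    rcases s with _ | s
    · rfl
    · rfl

/-- the list of the states -/
def domL (F : List Ed) : List St :=
  none :: (List.range (F.length + 1)).flatMap fun i => (none :: F.map some).map fun p => some (i, p)

theorem mem_domL {F : List Ed} (hF : F.Nodup) {s : St} : s ∈ domL F ↔ Adm F.toFinset s := by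
  have hc : F.toFinset.card = F.length := List.toFinset_card_of_nodup hF
  simp only [domL, Adm, List.mem_cons, List.mem_flatMap, List.mem_map, List.mem_range, hc]
  refine or_congr Iff.rfl ⟨?_, ?_⟩
  · rintro ⟨i, hi, p, hp, rfl⟩
    refine ⟨i, p, rfl, by omega, ?_⟩
    rcases hp with rfl | ⟨e, he, rfl⟩
    · exact Or.inl rfl
    · exact Or.inr ⟨e, List.mem_toFinset.2 he, rfl⟩
  · rintro ⟨i, p, rfl, hi, hp⟩
    refine ⟨i, by omega, p, ?_, rfl⟩
    rcases hp with rfl | ⟨e, he, rfl⟩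
    · exact Or.inl rfl
    · exact Or.inr ⟨e, List.mem_toFinset.1 he, rfl⟩

/-- the large number -/
def bigL (F : List Ed) : ℕ := 2 * F.length + 1

theorem poly_bigL : NPC.Poly bigL := by
  unfold bigL
  fun_prop

theorem poly_domL : NPC.Poly domL := by
  unfold domL
  refine NPC.Poly.cons (NPC.Poly.const _) ?_
  refine NPC.Poly.flatMap (F := fun (a : List Ed) i => (none :: a.map some).map fun p => some (i, p))
    ?_ ?_
  · exact (NPC.Poly.range_length (l := fun a : List Ed => a ++ [((0, 0, 0), (0, 0), (0, 0))])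
      (NPC.Poly.append NPC.Poly.id (NPC.Poly.const _))).congr fun a => by simp
  · refine NPC.Poly.map (F := fun (p : List Ed × ℕ) q => some (p.2, q)) ?_ ?_
    · refine NPC.Poly.cons (NPC.Poly.const _) ?_
      exact NPC.Poly.map (F := fun _ e => some e) (NPC.Poly.fst NPC.Poly.id) (NPC.Poly.some (NPC.Poly.snd NPC.Poly.id))
    · exact NPC.Poly.some (NPC.Poly.pair (NPC.Poly.snd (NPC.Poly.fst NPC.Poly.id)) (NPC.Poly.snd NPC.Poly.id))

theorem poly_ca : NPC.Poly ca := by unfold ca; fun_prop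
theorem poly_cb : NPC.Poly cb := by unfold cb; fun_prop
theorem poly_cc : NPC.Poly cc := by unfold cc; fun_prop
theorem poly_cd : NPC.Poly cd := by unfold cd; fun_prop

theorem poly_wL {α : Type} [TEnc α] {M : α → ℕ} {D : α → List ℕ} {v : α → ℕ} {s : α → St}
    (hM : NPC.Poly M) (hD : NPC.Poly D) (hv : NPC.Poly v) (hs : NPC.Poly s) :
    NPC.Poly (fun a => wL (M a) (D a) (v a) (s a)) := by
  unfold wL
  refine NPC.Poly.cond (NPC.Poly.decide_mem hv hD) ?_ ?_
  · exact NPC.Poly.optElim (h := fun a _ => M a) hs (NPC.Poly.const 0) (hM.comp (NPC.Poly.fst NPC.Poly.id))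
  · exact NPC.Poly.optElim (h := fun a _ => 0) hs (NPC.Poly.const 1) (NPC.Poly.const 0)

theorem poly_gK {α : Type} [TEnc α] {M : α → ℕ} {e : α → Ed} {s t : α → ℕ × Option Ed}
    (hM : NPC.Poly M) (he : NPC.Poly e) (hs : NPC.Poly s) (ht : NPC.Poly t) :
    NPC.Poly (fun a => gK (M a) (e a) (s a) (t a)) := by
  unfold gK
  have h2 : NPC.Poly (fun a => some (e a)) := NPC.Poly.some he
  have e1 : PP (fun a => (s a).2 = some (e a)) := PP.eq (NPC.Poly.snd hs) h2
  have e2 : PP (fun a => (t a).2 = some (e a)) := PP.eq (NPC.Poly.snd ht) h2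
  refine NPC.Poly.cond (PP.dec ?_) (poly_cc.comp he) (NPC.Poly.cond (PP.dec ?_)
    (poly_cd.comp he) hM)
  · exact (e1.and (e2.not.and (PP.lt (NPC.Poly.fst ht) (NPC.Poly.fst hs)))).or
      (e2.and (e1.not.and (PP.lt (NPC.Poly.fst hs) (NPC.Poly.fst ht))))
  · exact e1.not.and e2.not

theorem poly_gL {α : Type} [TEnc α] {M : α → ℕ} {e : α → Ed} {s t : α → St}
    (hM : NPC.Poly M) (he : NPC.Poly e) (hs : NPC.Poly s) (ht : NPC.Poly t) :
    NPC.Poly (fun a => gL (M a) (e a) (s a) (t a)) := by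
  unfold gL
  refine NPC.Poly.optElim (g := fun a => (t a).elim 0 fun _ => ca (e a))
    (h := fun a ip => (t a).elim (cb (e a)) fun jq => gK (M a) (e a) ip jq) hs ?_ ?_
  · exact NPC.Poly.optElim (h := fun a _ => ca (e a)) ht (NPC.Poly.const 0)
      ((poly_ca.comp he).comp (NPC.Poly.fst NPC.Poly.id))
  · refine NPC.Poly.optElim (o := fun p : α × ℕ × Option Ed => t p.1)
      (g := fun p : α × ℕ × Option Ed => cb (e p.1))
      (h := fun (p : α × ℕ × Option Ed) jq => gK (M p.1) (e p.1) p.2 jq)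
      (ht.comp (NPC.Poly.fst NPC.Poly.id)) ((poly_cb.comp he).comp (NPC.Poly.fst NPC.Poly.id)) ?_
    exact poly_gK (hM.comp (NPC.Poly.fst (NPC.Poly.fst NPC.Poly.id)))
      (he.comp (NPC.Poly.fst (NPC.Poly.fst NPC.Poly.id))) (NPC.Poly.snd (NPC.Poly.fst NPC.Poly.id))
      (NPC.Poly.snd NPC.Poly.id)

/-- **Parts without long paths.** -/
theorem exists_dp (N : ℕ) : ∃ dp : List Ed → List ℕ → ℕ,
    NPC.Poly (fun p : List Ed × List ℕ => dp p.1 p.2) ∧
    ∀ (F : List Ed) (D : List ℕ), F.Nodup → (∀ e ∈ F, Valid e) → Conn F.toFinset →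
      (∀ P, Pth F.toFinset P → P.length < N) → dp F D = tau F.toFinset D.toFinset := by
  obtain ⟨f, hf, hspec⟩ := exists_vcsp N (α := List Ed × List ℕ) (S := St) (fun a => a.1)
    (fun a => domL a.1) (fun a v s => wL (bigL a.1) a.2 v s) (fun a e s t => gL (bigL a.1) e s t)
    (NPC.Poly.fst NPC.Poly.id) (poly_domL.comp (NPC.Poly.fst NPC.Poly.id))
    (poly_wL (poly_bigL.comp (NPC.Poly.fst (NPC.Poly.fst NPC.Poly.id))) (NPC.Poly.snd (NPC.Poly.fst NPC.Poly.id))
      (NPC.Poly.fst (NPC.Poly.snd NPC.Poly.id)) (NPC.Poly.snd (NPC.Poly.snd NPC.Poly.id)))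
    (poly_gL (poly_bigL.comp (NPC.Poly.fst (NPC.Poly.fst NPC.Poly.id))) (NPC.Poly.fst (NPC.Poly.snd NPC.Poly.id))
      (NPC.Poly.fst (NPC.Poly.snd (NPC.Poly.snd NPC.Poly.id))) (NPC.Poly.snd (NPC.Poly.snd (NPC.Poly.snd NPC.Poly.id))))
  refine ⟨fun F D => f (F, D), hf, fun F D hnd hv hconn hP => ?_⟩
  have h1 := hspec (F, D) hnd (fun e he => (hv e he).1) hconn (by simp [domL]) hP
  have h2 := tau_states F.toFinset (fun e he => hv e (List.mem_toFinset.1 he)) D.toFinset
  have hbig : bigL F = big F.toFinset := by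
    rw [bigL, big, List.toFinset_card_of_nodup hnd]
  refine h1.unique ?_
  simp only [hbig, gL_eq, wL_eq, mem_domL hnd]
  exact h2

end Pool.Agent.TH694.FV
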