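import Pool.Agent.TH694.FV.Time

/-!
# The final theorem
-/

set_option autoImplicit false

namespace Pool.Agent.TH694.FV

open Pool.Agent Pool.Agent.NPC Pool.Agent.NPC.R671

/-! ### The initial multigraph -/

theorem conn_singleton (e : Ed) : Conn {e} := by
  refine ⟨Finset.singleton_nonempty e, fun A hA hne hne' => ?_⟩
  exfalso
  obtain ⟨f, hf⟩ := hne
  obtain ⟨g, hg⟩ := hne'
  rw [Finset.mem_sdiff, Finset.mem_singleton] at hg
  have := hA hf
  rw [Finset.mem_singleton] at this
  exact hg.2 (by rw [hg.1, ← this]; exact hf)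

theorem inv_init {n : ℕ} (G : SimpleGraph (Fin n)) :
    Inv (realE G) 0 1 (realE G) (fun e => {e}) := by
  have hvs : ∀ e : Ed, vs {e} = ends e := fun e => by simp [vs]
  have key : ∀ e ∈ realE G, Valid e ∧ nm e = 0 ∧ ca e = 0 ∧ cb e = 0 ∧ cc e = 0 := by
    intro e he
    obtain ⟨i, j, hij, _, rfl⟩ := realE_mem he
    refine ⟨⟨?_, le_rfl, le_rfl, Nat.zero_le _, Nat.zero_le _, Nat.zero_le _, le_rfl, le_rfl⟩,
      rfl, rfl, rfl, rfl⟩
    have : (i : ℕ) < j := hij
    exact this.ne
  refine ⟨(Nat.zero_add _).symm, fun e he => (key e he).1, fun e he => ?_, ?_, ?_, ?_, ?_, ?_, ?_, ?_⟩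
  · rw [(key e he).2.1]; exact Nat.one_pos
  · intro e he
    exact Finset.singleton_subset_iff.2 he
  · intro e _
    exact conn_singleton e
  · intro e _
    rw [hvs]
  · intro e _ f _ hef
    rw [Finset.disjoint_singleton]
    exact hef
  · intro e _ f _ _
    rw [hvs, hvs]
  · intro e he _
    have := key e he
    omega
  · intro e he _
    have := key e he
    omega

/-! ### The loop -/

theorem pick_empty : pick [] = [] := by
  have hB : candB [] = [] := by
    rw [candB, List.flatMap_eq_nil_iff]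
    intro a _
    rfl
  rw [pick, hB]
  rfl

theorem loop_ok {n : ℕ} {G : SimpleGraph (Fin n)} {N : ℕ} (hN : 4 ≤ N) (hkey : KeyFor G N)
    {par dp : List Ed → List ℕ → ℕ} (hb : BaseOK N par dp) {H : List Ed} (hnd : H.Nodup)
    (hH : H.toFinset = realE G) : ∀ j ≤ H.length, ∃ R : Ed → Finset Ed,
    Inv (realE G) ((step par dp)^[j] (0, 1, H)).1 ((step par dp)^[j] (0, 1, H)).2.1
      ((step par dp)^[j] (0, 1, H)).2.2.toFinset R ∧
    ((step par dp)^[j] (0, 1, H)).2.2.Nodup ∧
    (pick ((step par dp)^[j] (0, 1, H)).2.2 = [] ∨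
      ((step par dp)^[j] (0, 1, H)).2.2.length + j ≤ H.length)
  | 0, _ => ⟨fun e => {e}, by
      change Inv (realE G) 0 1 H.toFinset _
      rw [hH]
      exact inv_init G, hnd, Or.inr le_rfl⟩
  | j + 1, hj => by
    obtain ⟨R, hI, hnd', hcase⟩ := loop_ok hN hkey hb hnd hH j (by omega)
    rw [Function.iterate_succ_apply']
    set s := (step par dp)^[j] (0, 1, H) with hs
    rcases hp : pick s.2.2 with _ | ⟨F, l⟩
    · have hst : step par dp s = s := by
        rw [step, hp]
        rfl
      rw [hst]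
      exact ⟨R, hI, hnd', Or.inl hp⟩
    · have hst : step par dp s = repl par dp s F := by
        rw [step, hp]
        rfl
      rw [hst]
      obtain ⟨R', h1, h2, h3⟩ := repl_ok hN hkey hb hI hnd' (F := F)
        (by rw [hp]; exact List.mem_cons_self)
      refine ⟨R', h1, h2, Or.inr ?_⟩
      have h4 : s.2.2.length + j ≤ H.length := by
        rcases hcase with h | h
        · rw [hp] at h
          exact absurd h (List.cons_ne_nil _ _)
        · exact h
      have h5 : (repl par dp s F).2.2.length < s.2.2.length := h3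
      omega

theorem solve_ok {n : ℕ} {G : SimpleGraph (Fin n)} {N : ℕ} (hN : 4 ≤ N) (hkey : KeyFor G N)
    {par dp : List Ed → List ℕ → ℕ} (hb : BaseOK N par dp) {H : List Ed} (hnd : H.Nodup)
    (hH : H.toFinset = realE G) : solve par dp H = tau (realE G) ∅ := by
  obtain ⟨R, hI, hnd', hcase⟩ := loop_ok hN hkey hb hnd hH H.length le_rfl
  rw [solve]
  simp only [foldl_step]
  set s := (step par dp)^[H.length] (0, 1, H) with hs
  have hpick : pick s.2.2 = [] := by
    rcases hcase with h | h
    · exact h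
    · have : s.2.2 = [] := List.length_eq_zero_iff.1 (by omega)
      rw [this]
      exact pick_empty
  have h1 := pick_nil hnd' hpick
  have h2 := tau_disjoint s.2.2.toFinset hI.valid (fun e he f hf =>
    h1 e (List.mem_toFinset.1 he) f (List.mem_toFinset.1 hf))
  rw [hI.tau_eq, h2, List.sum_toFinset _ hnd']

/-! ### The edges of a graph given by its adjacency matrix -/

/-- an entry of the matrix -/
def ent (M : List (List Bool)) (i j : ℕ) : Bool := (M.getD i []).getD j false

/-- the edges -/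
def edgesL (M : List (List Bool)) : List Ed :=
  (List.range M.length).flatMap fun i => ((List.range M.length).filter fun j =>
    decide (i < j) && ent M i j).map fun j => E 0 i j

theorem mem_edgesL {M : List (List Bool)} {e : Ed} : e ∈ edgesL M ↔
    ∃ i < M.length, ∃ j < M.length, i < j ∧ ent M i j = true ∧ e = E 0 i j := by
  simp only [edgesL, List.mem_flatMap, List.mem_range, List.mem_map, List.mem_filter,
    Bool.and_eq_true, decide_eq_true_eq]
  constructor
  · rintro ⟨i, hi, j, ⟨hj, h1, h2⟩, rfl⟩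
    exact ⟨i, hi, j, hj, h1, h2, rfl⟩
  · rintro ⟨i, hi, j, hj, h1, h2, rfl⟩
    exact ⟨i, hi, j, ⟨hj, h1, h2⟩, rfl⟩

theorem nodup_edgesL (M : List (List Bool)) : (edgesL M).Nodup := by
  unfold edgesL
  rw [List.nodup_flatMap]
  refine ⟨fun i _ => ?_, ?_⟩
  · refine List.Nodup.map (fun a b h => ?_) (List.nodup_range.filter _)
    have : py (E 0 i a) = py (E 0 i b) := by rw [h]
    exact this
  · refine List.Nodup.pairwise_of_forall_ne List.nodup_range fun i _ j _ hij => ?_
    intro e he he'
    rw [List.mem_map] at he he'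
    obtain ⟨a, _, rfl⟩ := he
    obtain ⟨b, _, hb⟩ := he'
    have : px (E 0 j b) = px (E 0 i a) := by rw [hb]
    exact hij this.symm

theorem ent_adjMatrix {n : ℕ} (G : SimpleGraph (Fin n)) (i j : Fin n) :
    ent (adjMatrix G) i j = true ↔ G.Adj i j := by
  classical
  unfold ent adjMatrix
  simp [List.getD_eq_getElem?_getD]

theorem length_adjMatrix {n : ℕ} (G : SimpleGraph (Fin n)) : (adjMatrix G).length = n := by
  simp [adjMatrix]

theorem edgesL_toFinset {n : ℕ} (G : SimpleGraph (Fin n)) :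
    (edgesL (adjMatrix G)).toFinset = realE G := by
  classical
  ext e
  rw [List.mem_toFinset, mem_edgesL, length_adjMatrix]
  constructor
  · rintro ⟨i, hi, j, hj, hij, he, rfl⟩
    unfold realE
    rw [Finset.mem_image]
    refine ⟨(⟨i, hi⟩, ⟨j, hj⟩), ?_, rfl⟩
    rw [Finset.mem_filter]
    exact ⟨Finset.mem_univ _, hij, (ent_adjMatrix G ⟨i, hi⟩ ⟨j, hj⟩).1 he⟩
  · intro h
    obtain ⟨i, j, hij, hadj, rfl⟩ := realE_mem h
    exact ⟨i, i.2, j, j.2, hij, (ent_adjMatrix G i j).2 hadj, rfl⟩

theorem poly_ent {α : Type} [TEnc α] {M : α → List (List Bool)} {i j : α → ℕ}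
    (hM : NPC.Poly M) (hi : NPC.Poly i) (hj : NPC.Poly j) :
    NPC.Poly (fun a => ent (M a) (i a) (j a)) := by
  unfold ent
  exact NPC.Poly.getD (NPC.Poly.getD hM hi (NPC.Poly.const _)) hj (NPC.Poly.const _)

theorem poly_edgesL : NPC.Poly edgesL := by
  unfold edgesL
  refine NPC.Poly.flatMap (F := fun (M : List (List Bool)) i =>
    ((List.range M.length).filter fun j => decide (i < j) && ent M i j).map fun j => E 0 i j)
    (NPC.Poly.range_length NPC.Poly.id) ?_
  refine NPC.Poly.map (F := fun (p : List (List Bool) × ℕ) j => E 0 p.2 j) ?_ ?_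
  · refine NPC.Poly.filter (l := fun p : List (List Bool) × ℕ => List.range p.1.length)
      (p := fun (p : List (List Bool) × ℕ) j => decide (p.2 < j) && ent p.1 p.2 j)
      (NPC.Poly.range_length (NPC.Poly.fst NPC.Poly.id)) ?_
    refine NPC.Poly.and (NPC.Poly.decide_lt (NPC.Poly.snd (NPC.Poly.fst NPC.Poly.id))
      (NPC.Poly.snd NPC.Poly.id)) ?_
    exact poly_ent (NPC.Poly.fst (NPC.Poly.fst NPC.Poly.id)) (NPC.Poly.snd (NPC.Poly.fst NPC.Poly.id))
      (NPC.Poly.snd NPC.Poly.id)
  · exact NPC.Poly.pair (NPC.Poly.pair (NPC.Poly.const 0)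
      (NPC.Poly.pair (NPC.Poly.snd (NPC.Poly.fst NPC.Poly.id)) (NPC.Poly.snd NPC.Poly.id)))
      (NPC.Poly.const _)

/-! ### Spiders -/

theorem spider_mono {l l' : Fin 4 → ℕ} (h : ∀ i, l i ≤ l' i) :
    (spider l).IsContained (spider l') := by
  let f : Option (Σ i : Fin 4, Fin (l i)) → Option (Σ i : Fin 4, Fin (l' i)) :=
    Option.map fun p => ⟨p.1, Fin.castLE (h p.1) p.2⟩
  have hf : Function.Injective f := by
    refine Option.map_injective ?_
    rintro ⟨i, j⟩ ⟨i', j'⟩ hij
    simp only [Sigma.mk.injEq] at hij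
    obtain ⟨rfl, h2⟩ := hij
    have := Fin.castLE_injective _ (eq_of_heq h2)
    rw [this]
  refine ⟨⟨⟨f, ?_⟩, hf⟩⟩
  intro u w huw
  rw [spider, SimpleGraph.fromRel_adj] at huw ⊢
  refine ⟨fun hh => huw.1 (hf hh), ?_⟩
  refine huw.2.imp ?_ ?_
  · intro hr
    rcases u with _ | ⟨i, j⟩ <;> rcases w with _ | ⟨i', j'⟩
    · exact hr
    · exact hr
    · exact hr
    · exact hr
  · intro hr
    rcases u with _ | ⟨i, j⟩ <;> rcases w with _ | ⟨i', j'⟩
    · exact hr
    · exact hr
    · exact hr
    · exact hr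

/-! ### The theorem -/

theorem main (p q r : ℕ) : ∃ g : List (List Bool) → ℕ, NPC.Poly g ∧
    ∀ (n : ℕ) (G : SimpleGraph (Fin n)), (spider ![1, p, q, r]).Free G →
      IsLeast {k | ∃ X : Finset (Fin n), X.card = k ∧ (G.induce {v | v ∉ X}).IsAcyclic}
        (g (adjMatrix G)) := by
  set L := p + q + r + 1 with hL
  obtain ⟨N, hN⟩ := key_mod L (by omega)
  obtain ⟨par, hpar, hpar'⟩ := exists_par
  obtain ⟨dp, hdp, hdp'⟩ := exists_dp (N + 4)
  refine ⟨fun M => solve par dp (edgesL M), (poly_solve hpar hdp).comp poly_edgesL,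
    fun n G hG => ?_⟩
  have hG' : ¬ (spider ![1, L, L, L]).IsContained G := by
    intro h
    refine hG ((spider_mono fun i => ?_).trans h)
    fin_cases i
    · exact le_rfl
    · change p ≤ L
      omega
    · change q ≤ L
      omega
    · change r ≤ L
      omega
  have hkey : KeyFor G (N + 4) := by
    intro F R h1 h2 h3 h4 h5 h6 h7
    rcases hN n G hG' F R h1 h2 h3 h4 h5 h6 h7 with h | h
    · exact Or.inl fun P hP => (h P hP).trans (by omega)
    · exact Or.inr h
  have hs : solve par dp (edgesL (adjMatrix G)) = tau (realE G) ∅ :=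
    solve_ok (by omega) hkey ⟨hpar', hdp'⟩ (nodup_edgesL _) (edgesL_toFinset G)
  change IsLeast _ (solve par dp (edgesL (adjMatrix G)))
  rw [hs]
  exact tau_real G

end Pool.Agent.TH694.FV
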