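import Pool.Agent.TH694.FV.Defs2

/-!
# Counting facts about forests
-/

set_option autoImplicit false

namespace Pool.Agent.TH694.FV

theorem ends_card {e : Ed} (h : px e ≠ py e) : (ends e).card = 2 := by
  rw [ends, Finset.card_pair h]

theorem vs_subset_of {F : Finset Ed} {A : Finset ℕ} (h : ∀ e ∈ F, ends e ⊆ A) : vs F ⊆ A := by
  intro v hv
  obtain ⟨e, he, hv⟩ := mem_vs.1 hv
  exact h e he hv

theorem ends_subset_vs {F : Finset Ed} {e : Ed} (h : e ∈ F) : ends e ⊆ vs F :=
  fun _ hv => mem_vs.2 ⟨e, h, hv⟩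

/-- the general lower bound for a nonempty subset of a union -/
theorem forest_union_aux {C₁ C₂ : Finset Ed} (h₁ : Forest C₁) (h₂ : Forest C₂)
    (h : ∀ Y₁ ⊆ C₁, ∀ Y₂ ⊆ C₂, Y₁.Nonempty → Y₂.Nonempty →
      Y₁.card + Y₂.card + 1 + (vs Y₁ ∩ vs Y₂).card ≤ (vs Y₁).card + (vs Y₂).card) :
    Forest (C₁ ∪ C₂) := by
  intro Y hY hne
  set Y₁ := Y ∩ C₁ with hY₁
  set Y₂ := Y \ C₁ with hY₂
  have e1 : Y = Y₁ ∪ Y₂ := by
    ext e
    simp only [hY₁, hY₂, Finset.mem_union, Finset.mem_inter, Finset.mem_sdiff]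
    tauto
  have s1 : Y₁ ⊆ C₁ := Finset.inter_subset_right
  have s2 : Y₂ ⊆ C₂ := by
    intro e he
    rw [hY₂, Finset.mem_sdiff] at he
    have := hY he.1
    rw [Finset.mem_union] at this
    tauto
  have hcard : Y.card ≤ Y₁.card + Y₂.card := by
    conv_lhs => rw [e1]
    exact Finset.card_union_le _ _
  have hvs : (vs Y).card + (vs Y₁ ∩ vs Y₂).card = (vs Y₁).card + (vs Y₂).card := by
    conv_lhs => rw [e1, vs_union]
    exact Finset.card_union_add_card_inter _ _
  rcases Y₁.eq_empty_or_nonempty with h0 | hne1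
  · rw [h0, Finset.empty_union] at e1
    rw [e1]
    exact h₂ _ s2 (e1 ▸ hne)
  rcases Y₂.eq_empty_or_nonempty with h0 | hne2
  · rw [h0, Finset.union_empty] at e1
    rw [e1]
    exact h₁ _ s1 (e1 ▸ hne)
  have := h Y₁ s1 Y₂ s2 hne1 hne2
  omega

/-- Two forests which meet in at most one vertex. -/
theorem forest_union_one {C₁ C₂ : Finset Ed} (h₁ : Forest C₁) (h₂ : Forest C₂)
    (h : (vs C₁ ∩ vs C₂).card ≤ 1) : Forest (C₁ ∪ C₂) := by
  refine forest_union_aux h₁ h₂ fun Y₁ s1 Y₂ s2 n1 n2 => ?_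
  have a1 := h₁ Y₁ s1 n1
  have a2 := h₂ Y₂ s2 n2
  have a3 : (vs Y₁ ∩ vs Y₂).card ≤ 1 :=
    (Finset.card_le_card (Finset.inter_subset_inter (vs_mono s1) (vs_mono s2))).trans h
  omega

/-- Two forests which meet in the ends of an edge `e` which can be added to the second. -/
theorem forest_union_two {C₁ C₂ : Finset Ed} {e : Ed} (he : e ∉ C₂) (hxy : px e ≠ py e)
    (h₁ : Forest C₁) (h₂ : Forest (insert e C₂)) (h : vs C₁ ∩ vs C₂ ⊆ ends e) :
    Forest (C₁ ∪ C₂) := by
  refine forest_union_aux h₁ (h₂.mono (Finset.subset_insert _ _)) fun Y₁ s1 Y₂ s2 n1 n2 => ?_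
  have a1 := h₁ Y₁ s1 n1
  have a2 := h₂ Y₂ (s2.trans (Finset.subset_insert _ _)) n2
  have a3 : vs Y₁ ∩ vs Y₂ ⊆ ends e :=
    (Finset.inter_subset_inter (vs_mono s1) (vs_mono s2)).trans h
  have a4 := Finset.card_le_card a3
  rw [ends_card hxy] at a4
  by_cases h1 : (vs Y₁ ∩ vs Y₂).card ≤ 1
  · omega
  · have h2 : vs Y₁ ∩ vs Y₂ = ends e := by
      apply Finset.eq_of_subset_of_card_le a3
      rw [ends_card hxy]
      omega
    have h3 := h₂ (insert e Y₂) (Finset.insert_subset_insert _ s2) (Finset.insert_nonempty _ _)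
    rw [Finset.card_insert_of_notMem (fun hh => he (s2 hh)), vs_insert] at h3
    have h4 : ends e ∪ vs Y₂ = vs Y₂ := by
      apply Finset.union_eq_right.2
      rw [← h2]
      exact Finset.inter_subset_right
    rw [h4] at h3
    omega

/-- A forest which is a union: on one of the sides an edge can be added. -/
theorem forest_split {C₁ C₂ : Finset Ed} (hd : Disjoint C₁ C₂) (h : Forest (C₁ ∪ C₂)) {e₁ e₂ : Ed}
    (he : ends e₁ = ends e₂) (hxy : px e₁ ≠ py e₁) :
    Forest (insert e₁ C₁) ∨ Forest (insert e₂ C₂) := by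
  by_contra hcon
  push Not at hcon
  obtain ⟨c1, c2⟩ := hcon
  have key : ∀ (C : Finset Ed) (e : Ed), Forest C → ¬ Forest (insert e C) →
      ∃ Z ⊆ C, (vs Z ∪ ends e).card ≤ Z.card + 1 := by
    intro C e hC hn
    rw [Forest] at hn
    push Not at hn
    obtain ⟨Y, hY, hne, hlt⟩ := hn
    by_cases heY : e ∈ Y
    · refine ⟨Y.erase e, ?_, ?_⟩
      · intro f hf
        have := hY (Finset.mem_of_mem_erase hf)
        rw [Finset.mem_insert] at this
        rcases this with h | h
        · exact absurd h (Finset.ne_of_mem_erase hf)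
        · exact h
      · have h1 : vs Y = vs (Y.erase e) ∪ ends e := by
          conv_lhs => rw [← Finset.insert_erase heY, vs_insert, Finset.union_comm]
        have h2 := Finset.card_erase_add_one heY
        rw [h1] at hlt
        omega
    · exfalso
      have : Y ⊆ C := by
        intro f hf
        have := hY hf
        rw [Finset.mem_insert] at this
        rcases this with h | h
        · exact absurd (h ▸ hf) heY
        · exact h
      have := hC Y this hne
      omega
  obtain ⟨Z₁, z1, w1⟩ := key C₁ e₁ (h.mono Finset.subset_union_left) c1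
  obtain ⟨Z₂, z2, w2⟩ := key C₂ e₂ (h.mono Finset.subset_union_right) c2
  rw [← he] at w2
  have hc2 := ends_card hxy
  have hn1 : Z₁.Nonempty := by
    rw [Finset.nonempty_iff_ne_empty]
    rintro rfl
    have : (vs ∅ ∪ ends e₁).card = 2 := by simpa [vs] using hc2
    simp at w1
    omega
  have hdz : Disjoint Z₁ Z₂ := Finset.disjoint_of_subset_left z1 (Finset.disjoint_of_subset_right z2 hd)
  have h1 := h (Z₁ ∪ Z₂) (Finset.union_subset_union z1 z2) (hn1.mono Finset.subset_union_left)
  rw [Finset.card_union_of_disjoint hdz, vs_union] at h1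
  have h2 := Finset.card_union_add_card_inter (vs Z₁ ∪ ends e₁) (vs Z₂ ∪ ends e₁)
  have h3 : (vs Z₁ ∪ vs Z₂).card ≤ ((vs Z₁ ∪ ends e₁) ∪ (vs Z₂ ∪ ends e₁)).card :=
    Finset.card_le_card (Finset.union_subset_union Finset.subset_union_left Finset.subset_union_left)
  have h4 : (ends e₁).card ≤ ((vs Z₁ ∪ ends e₁) ∩ (vs Z₂ ∪ ends e₁)).card :=
    Finset.card_le_card (Finset.subset_inter Finset.subset_union_right Finset.subset_union_right)
  omega

/-- Adding a pendant edge. -/
theorem forest_pendant {C : Finset Ed} {e : Ed} (h : Forest C) {x : ℕ} (hx : x ∈ ends e)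
    (hxC : x ∉ vs C) (hxy : px e ≠ py e) : Forest (insert e C) := by
  have h1 : Forest {e} := by
    intro Y hY hne
    have : Y = {e} := by
      rcases Finset.subset_singleton_iff.1 hY with h | h
      · exact absurd h hne.ne_empty
      · exact h
    subst this
    rw [Finset.card_singleton]
    have : vs {e} = ends e := by simp [vs]
    rw [this, ends_card hxy]
  have h2 : vs {e} = ends e := by simp [vs]
  rw [Finset.insert_eq]
  refine forest_union_one h1 h ?_
  rw [h2]
  have h3 : ends e ∩ vs C ⊆ (ends e).erase x := by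
    intro v hv
    rw [Finset.mem_inter] at hv
    rw [Finset.mem_erase]
    refine ⟨?_, hv.1⟩
    rintro rfl
    exact hxC hv.2
  have h4 := Finset.card_le_card h3
  have h5 := Finset.card_erase_add_one hx
  rw [ends_card hxy] at h5
  omega

end Pool.Agent.TH694.FV
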