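import Pool.Agent.TH694.FV.Repl
import Pool.Agent.TH731.J2469
import Pool.Agent.TH135.J2476
import Pool.Agent.TH883.FV.J2473
import Pool.Agent.TH883.FV.J2474
import Pool.Agent.TH11.FVLegs

/-!
# Lemmas proved by helpers 731, 135, 883 and 11, under common names
-/

set_option autoImplicit false

namespace Pool.Agent.TH694.FV

theorem replace_one (F B : Finset Ed) (x y : ℕ) (hxy : x ≠ y) (hv : ∀ e ∈ F ∪ B, Valid e)
    (hd : Disjoint F B) (hVB : vs F ∩ vs B ⊆ {x}) (hy' : y ∉ vs B) (e : Ed)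
    (hx : px e = x) (hy : py e = y) (heB : e ∉ B) (γ : ℕ) (hγ : tau F {x, y} = γ)
    (ha : tau F {x} = γ + ca e) (hb : tau F {y} = γ + cb e) (hc : tau F ∅ = γ + cc e)
    (hdd : cd e = cc e) :
    tau (F ∪ B) ∅ = γ + tau (insert e B) ∅ :=
  TH731.FVR.replace_one F B x y hxy hv hd hVB hy' e hx hy heB γ hγ ha hb hc hdd

theorem tau_pendant (F : Finset Ed) (hv : ∀ e ∈ F, Valid e) (x : ℕ) (hdg : dg F x ≤ 1)
    (h : ∀ e ∈ F, (px e = x → cc e = ca e ∧ cb e = 0) ∧ (py e = x → cc e = cb e ∧ ca e = 0))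
    (D : Finset ℕ) (hD : x ∉ D) : tau F (insert x D) = tau F D :=
  TH731.FVR.tau_pendant F hv x hdg h D hD

theorem legs3 {V : Type} [Fintype V] [DecidableEq V] (T : SimpleGraph V) (h3 : Three' T) (L : ℕ)
    (hL : 1 ≤ L) (v : V) (hv : v ∈ T.support) (Z : Finset V) (hZ : 3 ≤ Z.card)
    (hZT : ∀ z ∈ Z, z ∈ T.support ∧ ∀ p : T.Walk v z, L ≤ p.length) :
    ∃ (z : Fin 3 → V) (p : ∀ i, T.Walk v (z i)), Legs T 3 L v z p ∧
      ∀ i, ∀ u ∈ (p i).support, T.Adj v u → u = (p i).snd :=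
  TH883.FV.J2473.legs3 T h3 L hL v hv Z hZ hZT

theorem hub (L : ℕ) : ∃ N : ℕ, ∀ (V : Type) [Fintype V] [DecidableEq V] (T : SimpleGraph V) (v : V)
    (B : Finset V), B.card ≤ 2 →
    (∀ z ∈ T.support, z ∉ B → ∃ p : T.Walk v z, p.length < L) →
    (∃ u w, ∃ p : T.Walk u w, p.IsPath ∧ N ≤ p.length) →
    ∃ (h : V) (z : Fin 4 → V) (p : ∀ i, T.Walk h (z i)), Legs T 4 L h z p :=
  TH883.FV.J2474.hub L

section
variable {V : Type} [Fintype V] [DecidableEq V] {G T : SimpleGraph V} {R : V → V → SimpleGraph V}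

theorem Model.legs (M : Model G T R) {m L : ℕ} {h : V} {z : Fin m → V} {p : ∀ i, T.Walk h (z i)}
    (hp : Legs T m L h z p) : ∃ q : ∀ i, G.Walk h (z i), Legs G m L h z q :=
  TH11.FVLegs.Model.legs M hp

theorem Model.legs_extra (M : Model G T R) {L : ℕ} (hL : 1 ≤ L) {v : V} {z : Fin 3 → V}
    {p : ∀ i, T.Walk v (z i)} (hp : Legs T 3 L v z p)
    (hs : ∀ i, ∀ u ∈ (p i).support, T.Adj v u → u = (p i).snd)
    (hfat : (∃ s : Finset V, s.card = 4 ∧ ∀ u ∈ s, T.Adj v u) ∨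
      ∃ w a b, T.Adj v w ∧ a ≠ b ∧ (R v w).Adj v a ∧ (R v w).Adj v b) :
    ∃ q : ∀ i, G.Walk v (z i), Legs G 3 L v z q ∧ ∃ b, G.Adj v b ∧ ∀ i, b ∉ (q i).support :=
  TH11.FVLegs.Model.legs_extra M hL hp hs hfat

theorem spider_of_legs (l : Fin 4 → ℕ) {h : V} {z : Fin 4 → V} {q : ∀ i, G.Walk h (z i)}
    (hq : Legs G 4 0 h z q) (hl : ∀ i, l i ≤ (q i).length) : (spider l).IsContained G :=
  TH11.FVLegs.spider_of_legs l hq hl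

end

theorem piece (H : Finset Ed) (hne : ∀ e ∈ H, px e ≠ py e)
    (h2 : ∀ e ∈ H, ∀ f ∈ H, e ≠ f → (ends e ∩ ends f).Nonempty → 3 ≤ (bd H {e, f}).card)
    (a₀ : ℕ) (e₀ : Ed) (he₀ : e₀ ∈ H) (hB : 2 ≤ (cls H {a₀} e₀).card)
    (hBmin : ∀ a, ∀ e ∈ H, 2 ≤ (cls H {a} e).card → (cls H {a₀} e₀).card ≤ (cls H {a} e).card)
    (a b : ℕ) (e₁ : Ed) (he₁ : e₁ ∈ H) (F : Finset Ed) (hF : F = cls H {a, b} e₁)
    (hFB : F ⊆ cls H {a₀} e₀) (hF2 : 2 ≤ F.card)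
    (hFmin : ∀ a' b', ∀ e ∈ H, cls H {a', b'} e ⊆ cls H {a₀} e₀ → 2 ≤ (cls H {a', b'} e).card →
      F.card ≤ (cls H {a', b'} e).card) :
    Conn F ∧ (∀ e ∈ F, ∀ f ∈ F, e ≠ f → ends e ≠ ends f) ∧
    (((bd H F).card ≤ 1 ∧ Three F) ∨
      ∃ x y, x ≠ y ∧ bd H F = {x, y} ∧ (∀ e ∈ F, ends e ≠ {x, y}) ∧
        (∃ K ⊆ H \ F, Conn K ∧ x ∈ vs K ∧ y ∈ vs K) ∧ ∀ k, Three (insert (E k x y) F)) :=
  TH135.J2476.piece H hne h2 a₀ e₀ he₀ hB hBmin a b e₁ he₁ F hF hFB hF2 hFmin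

end Pool.Agent.TH694.FV
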