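import Pool.Agent.TH18.FV.Main
import Pool.Agent.TH993.ExistsPar
import Pool.Agent.TH645.FV.Real
import Pool.Agent.TH645.FV.States

/-!
# Lemmas proved by helpers 18, 993 and 645, under common names
-/

set_option autoImplicit false

namespace Pool.Agent.TH694.FV

open Pool.Agent

/-- the vertices which can be reached from `u` avoiding `A` -/
def reachL (F : List Ed) (A : List ℕ) (u : ℕ) : List ℕ := TH18.FV.reachL F A u

theorem mem_reachL {F : List Ed} {A : List ℕ} {u w : ℕ} (hu : u ∈ vs F.toFinset) (_ : u ∉ A) :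
    w ∈ reachL F A u ↔ w ∈ vs F.toFinset ∧ Reach F.toFinset A.toFinset u w :=
  TH18.FV.mem_reachL hu

theorem poly_reachL {α : Type} [NPC.TEnc α] {F : α → List Ed} {A : α → List ℕ} {u : α → ℕ}
    (hF : NPC.Poly F) (hA : NPC.Poly A) (hu : NPC.Poly u) :
    NPC.Poly (fun a => reachL (F a) (A a) (u a)) := TH18.FV.poly_reachL' hF hA hu

theorem poly_dedup {α β : Type} [NPC.TEnc α] [NPC.TEnc β] [DecidableEq β] {l : α → List β}
    (hl : NPC.Poly l) : NPC.Poly (fun a => (l a).dedup) := TH993.FVS.poly_dedup hl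

theorem exists_par : ∃ par : List Ed → List ℕ → ℕ,
    NPC.Poly (fun p : List Ed × List ℕ => par p.1 p.2) ∧
    ∀ (F : List Ed) (D : List ℕ), F.Nodup →
      (∀ e ∈ F, px e ≠ py e ∧ ca e = 0 ∧ cb e = 0 ∧ cc e = 0 ∧ cd e ≤ 1) →
      (∀ v, dg (F.toFinset.filter (fun e => cd e = 1)) v ≤ 3) →
      par F D = tau F.toFinset D.toFinset := TH993.FVS.exists_par

theorem tau_real {n : ℕ} (G : SimpleGraph (Fin n)) :
    IsLeast {k | ∃ X : Finset (Fin n), X.card = k ∧ (G.induce {v | v ∉ X}).IsAcyclic}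
      (tau (realE G) ∅) := TH645.FV.tau_real G

theorem tau_disjoint (H : Finset Ed) (hv : ∀ e ∈ H, Valid e)
    (hd : ∀ e ∈ H, ∀ f ∈ H, e ≠ f → Disjoint (ends e) (ends f)) :
    tau H ∅ = ∑ e ∈ H, cc e := TH645.FV.tau_disjoint H hv hd

end Pool.Agent.TH694.FV
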