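import Pool.Agent.TH694.FV.Alg

/-!
# The choice of the next part
-/

set_option autoImplicit false

namespace Pool.Agent.TH694.FV

open Pool.Agent

theorem reach_congr {H : Finset Ed} {A A' : Finset ℕ} (h : ∀ v ∈ vs H, v ∈ A ↔ v ∈ A') {u w : ℕ}
    (hr : Reach H A u w) : Reach H A' u w := by
  unfold Reach at hr ⊢
  induction hr with
  | refl => exact Relation.ReflTransGen.refl
  | tail _ hst ih =>
    obtain ⟨h1, e, he, h2, h3⟩ := hst
    exact ih.tail ⟨fun hh => h1 ((h _ (mem_vs.2 ⟨e, he, h3⟩)).2 hh), e, he, h2, h3⟩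

theorem cls_congr {H : Finset Ed} {A A' : Finset ℕ} (h : ∀ v ∈ vs H, v ∈ A ↔ v ∈ A') {e : Ed}
    (he : e ∈ H) : cls H A e = cls H A' e := by
  classical
  ext f
  simp only [cls, Finset.mem_filter]
  refine and_congr_right fun hf => or_congr Iff.rfl ?_
  constructor
  · rintro ⟨u, hu, huA, w, hw, hwA, hr⟩
    exact ⟨u, hu, fun hh => huA ((h u (mem_vs.2 ⟨e, he, hu⟩)).2 hh), w, hw,
      fun hh => hwA ((h w (mem_vs.2 ⟨f, hf, hw⟩)).2 hh), reach_congr h hr⟩
  · rintro ⟨u, hu, huA, w, hw, hwA, hr⟩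
    exact ⟨u, hu, fun hh => huA ((h u (mem_vs.2 ⟨e, he, hu⟩)).1 hh), w, hw,
      fun hh => hwA ((h w (mem_vs.2 ⟨f, hf, hw⟩)).1 hh),
      reach_congr (fun v hv => (h v hv).symm) hr⟩

theorem exists_al (H : List Ed) (a : ℕ) : ∃ a' ∈ al H, ∀ v ∈ vs H.toFinset, v = a ↔ v = a' := by
  by_cases ha : a ∈ vl H
  · exact ⟨a, List.mem_cons_of_mem _ ha, fun v _ => Iff.rfl⟩
  · refine ⟨(vl H).sum + 1, List.mem_cons_self, fun v hv => ?_⟩
    rw [← mem_vl] at hv
    constructor
    · rintro rfl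
      exact absurd hv ha
    · intro h
      have := List.single_le_sum (l := vl H) (fun _ _ => Nat.zero_le _) v hv
      omega

theorem cls_single (H : List Ed) (a : ℕ) : ∃ a' ∈ al H, ∀ e ∈ H,
    cls H.toFinset {a} e = (clsL H [a'] e).toFinset := by
  obtain ⟨a', ha', h⟩ := exists_al H a
  refine ⟨a', ha', fun e he => ?_⟩
  rw [clsL_toFinset he]
  refine cls_congr (fun v hv => ?_) (List.mem_toFinset.2 he)
  simp only [Finset.mem_singleton, List.mem_toFinset, List.mem_cons, List.not_mem_nil, or_false]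
  exact h v hv

theorem cls_double (H : List Ed) (a b : ℕ) : ∃ a' ∈ al H, ∃ b' ∈ al H, ∀ e ∈ H,
    cls H.toFinset {a, b} e = (clsL H [a', b'] e).toFinset := by
  obtain ⟨a', ha', h⟩ := exists_al H a
  obtain ⟨b', hb', h'⟩ := exists_al H b
  refine ⟨a', ha', b', hb', fun e he => ?_⟩
  rw [clsL_toFinset he]
  refine cls_congr (fun v hv => ?_) (List.mem_toFinset.2 he)
  simp only [Finset.mem_insert, Finset.mem_singleton, List.mem_toFinset, List.mem_cons,
    List.not_mem_nil, or_false]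
  rw [h v hv, h' v hv]

theorem card_toFinset {F : List Ed} (h : F.Nodup) : F.toFinset.card = F.length :=
  List.toFinset_card_of_nodup h

theorem mem_candB {H B : List Ed} : B ∈ candB H ↔ ∃ a ∈ al H, ∃ e ∈ H, clsL H [a] e = B ∧
    2 ≤ B.length := by
  simp only [candB, List.mem_flatMap, List.mem_filter, List.mem_map, decide_eq_true_eq]
  constructor
  · rintro ⟨a, ha, ⟨e, he, rfl⟩, h2⟩
    exact ⟨a, ha, e, he, rfl, h2⟩
  · rintro ⟨a, ha, e, he, rfl, h2⟩
    exact ⟨a, ha, ⟨e, he, rfl⟩, h2⟩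

theorem mem_candF {H B F : List Ed} : F ∈ candF H B ↔ ∃ a ∈ al H, ∃ b ∈ al H, ∃ e ∈ H,
    clsL H [a, b] e = F ∧ 2 ≤ F.length ∧ ∀ g ∈ F, g ∈ B := by
  simp only [candF, candG, List.mem_flatMap, List.mem_filter, List.mem_map, decide_eq_true_eq]
  constructor
  · rintro ⟨a, ha, b, hb, ⟨e, he, rfl⟩, h2⟩
    exact ⟨a, ha, b, hb, e, he, rfl, h2⟩
  · rintro ⟨a, ha, b, hb, e, he, rfl, h2⟩
    exact ⟨a, ha, b, hb, ⟨e, he, rfl⟩, h2⟩

theorem mem_cand1 {H F : List Ed} : F ∈ cand1 H ↔ ∃ e ∈ H, ∃ f ∈ H, e ≠ f ∧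
    (ends e ∩ ends f).Nonempty ∧ (bd H.toFinset {e, f}).card ≤ 2 ∧ F = [e, f] := by
  have hsh : ∀ e f : Ed, (∃ u ∈ [px e, py e], u ∈ [px f, py f]) ↔ (ends e ∩ ends f).Nonempty := by
    intro e f
    simp only [Finset.Nonempty, Finset.mem_inter, mem_ends, List.mem_cons, List.not_mem_nil,
      or_false]
  have hb : ∀ e f : Ed, (bdL H [e, f]).length = (bd H.toFinset {e, f}).card := by
    intro e f
    rw [length_bdL]
    congr 2
    ext g
    simp
  simp only [cand1, List.mem_flatMap, List.mem_map, List.mem_filter, decide_eq_true_eq, hsh, hb]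
  constructor
  · rintro ⟨e, he, f, ⟨hf, hne, h1, h2⟩, rfl⟩
    exact ⟨e, he, f, hf, hne, h1, h2, rfl⟩
  · rintro ⟨e, he, f, hf, hne, h1, h2, rfl⟩
    exact ⟨e, he, f, ⟨hf, hne, h1, h2⟩, rfl⟩

/-- the three possible outcomes -/
theorem pick_cases {H F : List Ed} (h : F ∈ pick H) :
    F ∈ cand1 H ∨ (cand1 H = [] ∧ ∃ B ∈ argmin List.length (candB H),
      F ∈ argmin List.length (candF H B)) := by
  unfold pick at h
  rcases hc : cand1 H with _ | ⟨F', l⟩
  · right
    rw [hc, List.nil_append] at h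
    have := List.mem_of_mem_take h
    rw [List.mem_flatMap] at this
    exact ⟨rfl, this⟩
  · left
    rw [hc, List.cons_append, List.take_succ_cons, List.take_zero, List.mem_singleton] at h
    rw [h]
    exact List.mem_cons_self

/-- if there is nothing to replace then the edges are disjoint -/
theorem pick_nil {H : List Ed} (hnd : H.Nodup) (h : pick H = []) :
    ∀ e ∈ H, ∀ f ∈ H, e ≠ f → Disjoint (ends e) (ends f) := by
  unfold pick at h
  rw [List.take_eq_nil_iff] at h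
  have h1 := h.resolve_left (by omega)
  rw [List.append_eq_nil_iff] at h1
  intro e he f hf hne
  by_contra hdis
  rw [Finset.not_disjoint_iff] at hdis
  obtain ⟨u, hu1, hu2⟩ := hdis
  -- the component is a candidate
  set a := (vl H).sum + 1 with ha
  have haH : a ∉ vs H.toFinset := by
    intro h
    rw [← mem_vl] at h
    have := List.single_le_sum (l := vl H) (fun _ _ => Nat.zero_le _) a h
    omega
  have hua : u ≠ a := by
    rintro rfl
    exact haH (mem_vs.2 ⟨e, List.mem_toFinset.2 he, hu1⟩)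
  have hB : clsL H [a] e ∈ candB H := by
    rw [mem_candB]
    refine ⟨a, List.mem_cons_self, e, he, rfl, ?_⟩
    have hnd' : (clsL H [a] e).Nodup := (clsL_sublist H [a] e).nodup hnd
    rw [← card_toFinset hnd', clsL_toFinset he]
    have : ({e, f} : Finset Ed) ⊆ cls H.toFinset [a].toFinset e := by
      classical
      intro g hg
      rw [Finset.mem_insert, Finset.mem_singleton] at hg
      simp only [cls, Finset.mem_filter]
      rcases hg with rfl | rfl
      · exact ⟨List.mem_toFinset.2 he, Or.inl rfl⟩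
      · exact ⟨List.mem_toFinset.2 hf, Or.inr ⟨u, hu1, by simpa using hua, u, hu2,
          by simpa using hua, Relation.ReflTransGen.refl⟩⟩
    have h2 := Finset.card_le_card this
    rw [Finset.card_pair hne] at h2
    exact h2
  have hBne : argmin List.length (candB H) ≠ [] := fun h' => by
    rw [argmin_nil h'] at hB
    exact absurd hB List.not_mem_nil
  obtain ⟨B, hBm⟩ := List.exists_mem_of_ne_nil _ hBne
  have h3 := List.flatMap_eq_nil_iff.1 h1.2 B hBm
  have h4 := argmin_nil h3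
  obtain ⟨a0, ha0, e0, he0, hB0, hB2⟩ := mem_candB.1 (argmin_mem hBm).1
  have h5 : clsL H [a0, a0] e0 = B := by
    rw [← hB0]
    unfold clsL
    refine List.filter_congr fun g hg => ?_
    have hr : ∀ u w, u ∈ [px e0, py e0] → w ∈ [px g, py g] → u ∉ [a0] →
        (w ∈ reachL H [a0, a0] u ↔ w ∈ reachL H [a0] u) := by
      intro u w hu hw hua
      have hu' : u ∈ vs H.toFinset := mem_vs.2 ⟨e0, List.mem_toFinset.2 he0, by
        rw [mem_ends]; simpa using hu⟩
      rw [mem_reachL hu' hua, mem_reachL hu' (by simpa using hua)]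
      have : ([a0, a0] : List ℕ).toFinset = [a0].toFinset := by ext; simp
      rw [this]
    have hm : ∀ u, u ∉ [a0, a0] ↔ u ∉ [a0] := by intro u; simp
    rw [decide_eq_decide]
    refine or_congr Iff.rfl ⟨?_, ?_⟩
    · rintro ⟨u, hu, h1, w, hw, h2, h3⟩
      exact ⟨u, hu, (hm u).1 h1, w, hw, (hm w).1 h2, (hr u w hu hw ((hm u).1 h1)).1 h3⟩
    · rintro ⟨u, hu, h1, w, hw, h2, h3⟩
      exact ⟨u, hu, (hm u).2 h1, w, hw, (hm w).2 h2, (hr u w hu hw h1).2 h3⟩
  have h6 : B ∈ candF H B := by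
    rw [mem_candF]
    exact ⟨a0, ha0, a0, ha0, e0, he0, h5, hB2, fun g hg => hg⟩
  rw [h4] at h6
  exact absurd h6 List.not_mem_nil

/-- the second phase -/
theorem pick_piece {H F : List Ed} (hnd : H.Nodup) (hne : ∀ e ∈ H, px e ≠ py e)
    (h1 : cand1 H = []) {B : List Ed} (hB : B ∈ argmin List.length (candB H))
    (hF : F ∈ argmin List.length (candF H B)) :
    F.Nodup ∧ (∀ g ∈ F, g ∈ H) ∧ 2 ≤ F.length ∧
    Conn F.toFinset ∧ (∀ e ∈ F, ∀ f ∈ F, e ≠ f → ends e ≠ ends f) ∧
    (((bd H.toFinset F.toFinset).card ≤ 1 ∧ Three F.toFinset) ∨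
      ∃ x y, x ≠ y ∧ bd H.toFinset F.toFinset = {x, y} ∧ (∀ e ∈ F, ends e ≠ {x, y}) ∧
        (∃ K ⊆ H.toFinset \ F.toFinset, Conn K ∧ x ∈ vs K ∧ y ∈ vs K) ∧
          ∀ k, Three (insert (E k x y) F.toFinset)) := by
  obtain ⟨hB1, hB2⟩ := argmin_mem hB
  obtain ⟨hF1, hF2⟩ := argmin_mem hF
  obtain ⟨a0, ha0, e0, he0, hBe, hBl⟩ := mem_candB.1 hB1
  obtain ⟨a, ha, b, hb, e1, he1, hFe, hFl, hFB⟩ := mem_candF.1 hF1
  have hFnd : F.Nodup := by rw [← hFe]; exact (clsL_sublist _ _ _).nodup hnd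
  have hBnd : B.Nodup := by rw [← hBe]; exact (clsL_sublist _ _ _).nodup hnd
  have hFH : ∀ g ∈ F, g ∈ H := by
    intro g hg
    rw [← hFe] at hg
    exact (clsL_sublist _ _ _).subset hg
  have hBc : cls H.toFinset {a0} e0 = B.toFinset := by
    have := clsL_toFinset (A := [a0]) he0
    rw [hBe] at this
    rw [this]
    congr 1
  have hFc : F.toFinset = cls H.toFinset {a, b} e1 := by
    have := clsL_toFinset (A := [a, b]) he1
    rw [hFe] at this
    rw [this]
    congr 1
    ext v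
    simp
  have := piece H.toFinset (fun e he => hne e (List.mem_toFinset.1 he)) ?_ a0 e0
    (List.mem_toFinset.2 he0) ?_ ?_ a b e1 (List.mem_toFinset.2 he1) F.toFinset hFc ?_ ?_ ?_
  · refine ⟨hFnd, hFH, hFl, this.1, fun e he f hf => this.2.1 e (List.mem_toFinset.2 he) f
      (List.mem_toFinset.2 hf), ?_⟩
    rcases this.2.2 with h | ⟨x, y, h2, h3, h4, h5, h6⟩
    · exact Or.inl h
    · exact Or.inr ⟨x, y, h2, h3, fun e he => h4 e (List.mem_toFinset.2 he), h5, h6⟩
  · intro e he f hf hef hnon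
    by_contra hlt
    have : [e, f] ∈ cand1 H := by
      rw [mem_cand1]
      exact ⟨e, List.mem_toFinset.1 he, f, List.mem_toFinset.1 hf, hef, hnon, by omega, rfl⟩
    rw [h1] at this
    exact absurd this List.not_mem_nil
  · rw [hBc, card_toFinset hBnd]
    exact hBl
  · intro a' e he h2
    obtain ⟨a'', ha'', hcl⟩ := cls_single H a'
    have he' := List.mem_toFinset.1 he
    have hnd' : (clsL H [a''] e).Nodup := (clsL_sublist _ _ _).nodup hnd
    rw [hcl e he', card_toFinset hnd'] at h2 ⊢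
    rw [hBc, card_toFinset hBnd]
    exact hB2 _ (mem_candB.2 ⟨a'', ha'', e, he', rfl, h2⟩)
  · rw [hBc]
    intro g hg
    exact List.mem_toFinset.2 (hFB g (List.mem_toFinset.1 hg))
  · rw [card_toFinset hFnd]
    exact hFl
  · intro a' b' e he hsub h2
    obtain ⟨a'', ha'', b'', hb'', hcl⟩ := cls_double H a' b'
    have he' := List.mem_toFinset.1 he
    have hnd' : (clsL H [a'', b''] e).Nodup := (clsL_sublist _ _ _).nodup hnd
    rw [hcl e he'] at hsub
    rw [hcl e he', card_toFinset hnd'] at h2 ⊢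
    rw [card_toFinset hFnd]
    refine hF2 _ (mem_candF.2 ⟨a'', ha'', b'', hb'', e, he', rfl, h2, fun g hg => ?_⟩)
    have := hsub (List.mem_toFinset.2 hg)
    rw [hBc] at this
    exact List.mem_toFinset.1 this

end Pool.Agent.TH694.FV
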