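import Pool.Agent.TH694.FV.Forest

/-!
# Replacement of a part of a multigraph by an edge
-/

set_option autoImplicit false

namespace Pool.Agent.TH694.FV

theorem ecost_congr {X X' : Finset ℕ} {C C' : Finset Ed} {e : Ed} (h1 : px e ∈ X ↔ px e ∈ X')
    (h2 : py e ∈ X ↔ py e ∈ X') (h3 : e ∈ C ↔ e ∈ C') : ecost X C e = ecost X' C' e := by
  simp only [ecost, h1, h2, h3]

theorem ecost_mono {X X' : Finset ℕ} {C C' : Finset Ed} {e : Ed} (hv : Valid e) (h : X ⊆ X')
    (h3 : px e ∉ X' → py e ∉ X' → (e ∈ C ↔ e ∈ C')) : ecost X' C' e ≤ ecost X C e := by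
  obtain ⟨v1, v2, v3, v4, v5, v6, v7, v8⟩ := hv
  unfold ecost
  by_cases hx : px e ∈ X'
  · rw [if_pos hx]
    by_cases hy : py e ∈ X'
    · rw [if_pos hy]; exact Nat.zero_le _
    · rw [if_neg hy]
      have hy' : py e ∉ X := fun hh => hy (h hh)
      rw [if_neg hy', if_neg hy']
      split_ifs <;> omega
  · rw [if_neg hx]
    have hx' : px e ∉ X := fun hh => hx (h hh)
    rw [if_neg hx']
    by_cases hy : py e ∈ X'
    · rw [if_pos hy]
      split_ifs <;> omega
    · have hy' : py e ∉ X := fun hh => hy (h hh)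
      rw [if_neg hy, if_neg hy']
      have := h3 hx hy
      by_cases hC : e ∈ C
      · rw [if_pos hC, if_pos (this.1 hC)]
      · rw [if_neg hC, if_neg (fun hh => hC (this.2 hh))]

/-- the edges of `C` with both ends outside `X` -/
def keep (X : Finset ℕ) (C : Finset Ed) : Finset Ed := C.filter (fun e => px e ∉ X ∧ py e ∉ X)

theorem mem_keep {X : Finset ℕ} {C : Finset Ed} {e : Ed} :
    e ∈ keep X C ↔ e ∈ C ∧ px e ∉ X ∧ py e ∉ X := by simp [keep]

theorem keep_subset (X : Finset ℕ) (C : Finset Ed) : keep X C ⊆ C := Finset.filter_subset _ _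

theorem vs_keep {X : Finset ℕ} {C : Finset Ed} {v : ℕ} (h : v ∈ vs (keep X C)) : v ∈ vs C ∧ v ∉ X := by
  obtain ⟨e, he, hv⟩ := mem_vs.1 h
  rw [mem_keep] at he
  refine ⟨mem_vs.2 ⟨e, he.1, hv⟩, ?_⟩
  rcases mem_ends.1 hv with h | h
  · rw [h]; exact he.2.1
  · rw [h]; exact he.2.2

theorem keep_eq {X : Finset ℕ} {C : Finset Ed} (h : ∀ e ∈ C, px e ∉ X ∧ py e ∉ X) :
    keep X C = C := Finset.filter_true_of_mem h

/-- enlarge the set of the deleted vertices -/
theorem cfg_enlarge {H : Finset Ed} (hv : ∀ e ∈ H, Valid e) {D X X' D' : Finset ℕ} {C : Finset Ed}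
    (h : Cfg H D X C) (hX : X ⊆ X') (hD : D' ⊆ X') : Cfg H D' X' (keep X' C) ∧
    ∑ e ∈ H, ecost X' (keep X' C) e ≤ ∑ e ∈ H, ecost X C e := by
  refine ⟨⟨hD, (keep_subset _ _).trans h.CH, fun e he => (mem_keep.1 he).2,
    h.forest.mono (keep_subset _ _)⟩, Finset.sum_le_sum fun e he => ?_⟩
  refine ecost_mono (hv e he) hX fun h1 h2 => ?_
  rw [mem_keep]
  tauto

theorem tau_insert_le (F : Finset Ed) (hv : ∀ e ∈ F, Valid e) (D : Finset ℕ) (x : ℕ) :
    tau F (insert x D) ≤ tau F D := by
  obtain ⟨X, C, h, hc⟩ := exists_tau F D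
  obtain ⟨h1, h2⟩ := cfg_enlarge hv (X' := insert x X) (D' := insert x D) h
    (Finset.subset_insert _ _) (Finset.insert_subset_insert _ h.DX)
  refine (tau_le h1).trans ?_
  rw [← hc, cost, cost]
  have h3 : (insert x X \ insert x D).card ≤ (X \ D).card := by
    apply Finset.card_le_card
    intro v hv
    simp only [Finset.mem_sdiff, Finset.mem_insert, not_or] at hv ⊢
    tauto
  omega

theorem tau_le_insert (F : Finset Ed) (D : Finset ℕ) (x : ℕ) :
    tau F D ≤ tau F (insert x D) + 1 := by
  obtain ⟨X, C, h, hc⟩ := exists_tau F (insert x D)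
  refine (tau_le (X := X) (C := C) ⟨(Finset.subset_insert _ _).trans h.DX, h.CH, h.kept,
    h.forest⟩).trans ?_
  rw [← hc, cost, cost]
  have h3 : (X \ D).card ≤ (X \ insert x D).card + 1 := by
    have : X \ D ⊆ insert x (X \ insert x D) := by
      intro v hv
      simp only [Finset.mem_sdiff, Finset.mem_insert, not_or] at hv ⊢
      tauto
    exact (Finset.card_le_card this).trans (Finset.card_insert_le _ _)
  omega

theorem cost_insert {H : Finset Ed} {e : Ed} (he : e ∉ H) (D X : Finset ℕ) (C C' : Finset Ed)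
    (hC : ∀ f ∈ H, f ∈ C ↔ f ∈ C') :
    cost (insert e H) D X C = cost H D X C' + ecost X C e := by
  rw [cost, cost, Finset.sum_insert he]
  have : ∑ f ∈ H, ecost X C f = ∑ f ∈ H, ecost X C' f :=
    Finset.sum_congr rfl fun f hf => ecost_congr Iff.rfl Iff.rfl (hC f hf)
  rw [this]
  omega

/-- The virtual edge. -/
theorem tau_le_E (F : Finset Ed) (k x y : ℕ) (hE : E k x y ∉ F) (D : Finset ℕ) :
    tau F D ≤ tau (insert (E k x y) F) D ∧
      (x ∈ D ∨ y ∈ D → tau (insert (E k x y) F) D = tau F D) := by
  have h1 : tau F D ≤ tau (insert (E k x y) F) D := by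
    obtain ⟨X, C, h, hc⟩ := exists_tau (insert (E k x y) F) D
    refine (tau_le (H := F) (D := D) (X := X) (C := C ∩ F) ⟨h.DX, Finset.inter_subset_right,
      fun e he => h.kept e (Finset.mem_inter.1 he).1,
      h.forest.mono Finset.inter_subset_left⟩).trans ?_
    rw [← hc, cost_insert hE D X C (C ∩ F) (fun f hf => by simp [hf])]
    exact Nat.le_add_right _ _
  refine ⟨h1, fun hD => le_antisymm ?_ h1⟩
  obtain ⟨X, C, h, hc⟩ := exists_tau F D
  refine (tau_le (H := insert (E k x y) F) (D := D) (X := X) (C := C) ⟨h.DX,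
    h.CH.trans (Finset.subset_insert _ _), h.kept, h.forest⟩).trans ?_
  rw [cost_insert hE D X C C (fun f hf => Iff.rfl), hc]
  have : ecost X C (E k x y) = 0 := by
    have : x ∈ X ∨ y ∈ X := hD.imp (fun h' => h.DX h') (fun h' => h.DX h')
    unfold ecost
    rcases this with h | h
    · rw [if_pos h]; split_ifs <;> rfl
    · by_cases hx : x ∈ X
      · rw [if_pos hx]; split_ifs <;> rfl
      · rw [if_neg hx, if_pos h]
  omega

/-- gluing two configurations -/
theorem glue_up {F B : Finset Ed} (hv : ∀ e ∈ F ∪ B, Valid e) (hd : Disjoint F B)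
    {XB XF DF : Finset ℕ} {CB CF : Finset Ed} (hB : Cfg B ∅ XB CB) (hF : Cfg F DF XF CF)
    (hDF : DF ⊆ XB) (hfor : Forest (keep (XB ∪ XF) CF ∪ keep (XB ∪ XF) CB)) :
    tau (F ∪ B) ∅ ≤ cost B ∅ XB CB + cost F DF XF CF := by
  set X := XB ∪ XF with hX
  set C := keep X CF ∪ keep X CB with hC
  have hcfg : Cfg (F ∪ B) ∅ X C := by
    refine ⟨Finset.empty_subset _, ?_, ?_, hfor⟩
    · exact Finset.union_subset_union ((keep_subset _ _).trans hF.CH) ((keep_subset _ _).trans hB.CH)
    · intro e he
      rw [hC, Finset.mem_union, mem_keep, mem_keep] at he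
      tauto
  refine (tau_le hcfg).trans ?_
  rw [cost, cost, cost, Finset.sum_union hd]
  have h1 : (X \ ∅).card ≤ (XB \ ∅).card + (XF \ DF).card := by
    have : X \ ∅ ⊆ (XB \ ∅) ∪ (XF \ DF) := by
      intro v hv
      simp only [hX, Finset.mem_sdiff, Finset.mem_union, Finset.notMem_empty, not_false_eq_true,
        and_true] at hv ⊢
      by_cases hvB : v ∈ XB
      · exact Or.inl hvB
      · exact Or.inr ⟨hv.resolve_left hvB, fun h => hvB (hDF h)⟩
    exact (Finset.card_le_card this).trans (Finset.card_union_le _ _)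
  have h2 : ∑ e ∈ F, ecost X C e ≤ ∑ e ∈ F, ecost XF CF e := by
    refine Finset.sum_le_sum fun e he => ecost_mono (hv e (Finset.mem_union_left _ he))
      Finset.subset_union_right fun a1 a2 => ?_
    rw [hC, Finset.mem_union, mem_keep, mem_keep]
    have : e ∉ CB := fun h => (Finset.disjoint_left.1 hd he) (hB.CH h)
    tauto
  have h3 : ∑ e ∈ B, ecost X C e ≤ ∑ e ∈ B, ecost XB CB e := by
    refine Finset.sum_le_sum fun e he => ecost_mono (hv e (Finset.mem_union_right _ he))
      Finset.subset_union_left fun a1 a2 => ?_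
    rw [hC, Finset.mem_union, mem_keep, mem_keep]
    have : e ∉ CF := fun h => (Finset.disjoint_left.1 hd (hF.CH h)) he
    tauto
  omega

/-- the common vertices of the two sides -/
theorem common_le {F B : Finset Ed} {x y : ℕ} (hVB : vs F ∩ vs B ⊆ {x, y}) {X : Finset ℕ}
    {CF CB : Finset Ed} (hF : CF ⊆ F) (hB : CB ⊆ B) (h : x ∈ X ∨ y ∈ X) :
    (vs (keep X CF) ∩ vs (keep X CB)).card ≤ 1 := by
  have h1 : ∀ v ∈ vs (keep X CF) ∩ vs (keep X CB), (v = x ∨ v = y) ∧ v ∉ X := by
    intro v hv
    rw [Finset.mem_inter] at hv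
    have a1 := vs_keep hv.1
    have a2 := vs_keep hv.2
    have := hVB (Finset.mem_inter.2 ⟨vs_mono hF a1.1, vs_mono hB a2.1⟩)
    rw [Finset.mem_insert, Finset.mem_singleton] at this
    exact ⟨this, a1.2⟩
  rcases h with h | h
  · have : vs (keep X CF) ∩ vs (keep X CB) ⊆ {y} := by
      intro v hv
      obtain ⟨h1 | h1, h2⟩ := h1 v hv
      · exact absurd (h1 ▸ h) h2
      · rw [Finset.mem_singleton]; exact h1
    exact (Finset.card_le_card this).trans (by simp)
  · have : vs (keep X CF) ∩ vs (keep X CB) ⊆ {x} := by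
      intro v hv
      obtain ⟨h1 | h1, h2⟩ := h1 v hv
      · rw [Finset.mem_singleton]; exact h1
      · exact absurd (h1 ▸ h) h2
    exact (Finset.card_le_card this).trans (by simp)

theorem vs_keep_subset {X : Finset ℕ} {C : Finset Ed} : vs (keep X C) ⊆ vs C :=
  vs_mono (keep_subset _ _)

/-- gluing when a boundary vertex is deleted -/
theorem glue_del {F B : Finset Ed} {x y : ℕ} (hv : ∀ e ∈ F ∪ B, Valid e) (hd : Disjoint F B)
    (hVB : vs F ∩ vs B ⊆ {x, y})
    {XB XF DF : Finset ℕ} {CB CF : Finset Ed} (hB : Cfg B ∅ XB CB) (hF : Cfg F DF XF CF)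
    (hDF : DF ⊆ XB) (h : (x ∈ XB ∨ y ∈ XB) ∨ (x ∈ XF ∨ y ∈ XF)) :
    tau (F ∪ B) ∅ ≤ cost B ∅ XB CB + cost F DF XF CF := by
  refine glue_up hv hd hB hF hDF (forest_union_one (hF.forest.mono (keep_subset _ _))
    (hB.forest.mono (keep_subset _ _)) (common_le hVB hF.CH hB.CH ?_))
  simp only [Finset.mem_union]
  tauto

theorem replace_le (F B : Finset Ed) (x y k : ℕ) (hxy : x ≠ y) (hv : ∀ e ∈ F ∪ B, Valid e)
    (hd : Disjoint F B) (hVB : vs F ∩ vs B ⊆ {x, y}) (hE : E k x y ∉ F) (e : Ed)
    (hx : px e = x) (hy : py e = y) (heB : e ∉ B) (γ : ℕ) (hγ : tau F {x, y} = γ)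
    (ha : tau F {x} = γ + ca e) (hb : tau F {y} = γ + cb e) (hc : tau F ∅ = γ + cc e)
    (hdd : tau (insert (E k x y) F) ∅ = γ + cd e) :
    tau (F ∪ B) ∅ ≤ γ + tau (insert e B) ∅ := by
  have hvF : ∀ e ∈ F, Valid e := fun e he => hv e (Finset.mem_union_left _ he)
  have hvB : ∀ e ∈ B, Valid e := fun e he => hv e (Finset.mem_union_right _ he)
  obtain ⟨X, C, hcfg, hcost⟩ := exists_tau (insert e B) ∅
  set CB := C ∩ B with hCB
  have hB : Cfg B ∅ X CB := ⟨Finset.empty_subset _, Finset.inter_subset_right,
    fun f hf => hcfg.kept f (Finset.mem_inter.1 hf).1, hcfg.forest.mono Finset.inter_subset_left⟩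
  have hcost' : cost (insert e B) ∅ X C = cost B ∅ X CB + ecost X C e :=
    cost_insert heB ∅ X C CB (fun f hf => by simp [hCB, hf])
  rw [hcost'] at hcost
  rw [← hcost]
  by_cases hxX : x ∈ X
  · by_cases hyX : y ∈ X
    · have he : ecost X C e = 0 := by
        unfold ecost
        rw [hx, hy, if_pos hxX, if_pos hyX]
      obtain ⟨XF, CF, hF, hcF⟩ := exists_tau F {x, y}
      have := glue_del hv hd hVB hB hF (by
        intro v hv
        rw [Finset.mem_insert, Finset.mem_singleton] at hv
        rcases hv with rfl | rfl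
        · exact hxX
        · exact hyX) (Or.inl (Or.inl hxX))
      omega
    · have he : ecost X C e = ca e := by
        unfold ecost
        rw [hx, hy, if_pos hxX, if_neg hyX]
      obtain ⟨XF, CF, hF, hcF⟩ := exists_tau F {x}
      have := glue_del hv hd hVB hB hF (by
        intro v hv
        rw [Finset.mem_singleton] at hv
        rw [hv]; exact hxX) (Or.inl (Or.inl hxX))
      omega
  · by_cases hyX : y ∈ X
    · have he : ecost X C e = cb e := by
        unfold ecost
        rw [hx, hy, if_neg hxX, if_pos hyX]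
      obtain ⟨XF, CF, hF, hcF⟩ := exists_tau F {y}
      have := glue_del hv hd hVB hB hF (by
        intro v hv
        rw [Finset.mem_singleton] at hv
        rw [hv]; exact hyX) (Or.inl (Or.inr hyX))
      omega
    · by_cases heC : e ∈ C
      · have he : ecost X C e = cc e := by
          unfold ecost
          rw [hx, hy, if_neg hxX, if_neg hyX, if_pos heC]
        obtain ⟨XF, CF, hF, hcF⟩ := exists_tau F ∅
        by_cases hdel : x ∈ XF ∨ y ∈ XF
        · have := glue_del hv hd hVB hB hF (Finset.empty_subset _) (Or.inr hdel)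
          omega
        · have h1 : Forest (insert e (keep (X ∪ XF) CB)) := by
            refine hcfg.forest.mono ?_
            intro f hf
            rw [Finset.mem_insert] at hf
            rcases hf with rfl | hf
            · exact heC
            · exact (Finset.mem_inter.1 ((keep_subset _ _) hf)).1
          have h2 : Forest (keep (X ∪ XF) CF ∪ keep (X ∪ XF) CB) := by
            refine forest_union_two (e := e) ?_ (by rw [hx, hy]; exact hxy)
              (hF.forest.mono (keep_subset _ _)) h1 ?_
            · intro h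
              exact heB (hB.CH (keep_subset _ _ h))
            · refine (Finset.inter_subset_inter (vs_keep_subset.trans (vs_mono hF.CH))
                (vs_keep_subset.trans (vs_mono hB.CH))).trans (hVB.trans ?_)
              rw [ends, hx, hy]
          have := glue_up hv hd hB hF (Finset.empty_subset _) h2
          omega
      · have he : ecost X C e = cd e := by
          unfold ecost
          rw [hx, hy, if_neg hxX, if_neg hyX, if_neg heC]
        obtain ⟨XF, CF', hF', hcF⟩ := exists_tau (insert (E k x y) F) ∅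
        set CF := CF' ∩ F with hCF
        have hF : Cfg F ∅ XF CF := ⟨Finset.empty_subset _, Finset.inter_subset_right,
          fun f hf => hF'.kept f (Finset.mem_inter.1 hf).1,
          hF'.forest.mono Finset.inter_subset_left⟩
        have hcost2 : cost (insert (E k x y) F) ∅ XF CF' = cost F ∅ XF CF + ecost XF CF' (E k x y) :=
          cost_insert hE ∅ XF CF' CF (fun f hf => by simp [hCF, hf])
        by_cases hdel : x ∈ XF ∨ y ∈ XF
        · have := glue_del hv hd hVB hB hF (Finset.empty_subset _) (Or.inr hdel)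
          omega
        · push Not at hdel
          by_cases hEC : E k x y ∈ CF'
          · have h1 : Forest (insert (E k x y) (keep (X ∪ XF) CF)) := by
              refine hF'.forest.mono ?_
              intro f hf
              rw [Finset.mem_insert] at hf
              rcases hf with rfl | hf
              · exact hEC
              · exact (Finset.mem_inter.1 ((keep_subset _ _) hf)).1
            have h2 : Forest (keep (X ∪ XF) CF ∪ keep (X ∪ XF) CB) := by
              rw [Finset.union_comm]
              refine forest_union_two (e := E k x y) ?_ hxy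
                (hB.forest.mono (keep_subset _ _)) h1 ?_
              · intro h
                exact hE (hF.CH (keep_subset _ _ h))
              · rw [Finset.inter_comm]
                refine (Finset.inter_subset_inter (vs_keep_subset.trans (vs_mono hF.CH))
                  (vs_keep_subset.trans (vs_mono hB.CH))).trans hVB
            have := glue_up hv hd hB hF (Finset.empty_subset _) h2
            omega
          · have hE1 : ecost XF CF' (E k x y) = 1 := by
              unfold ecost
              rw [if_neg hdel.1, if_neg hdel.2, if_neg hEC]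
            have h3 : tau F {x} ≤ cost F ∅ XF CF := by
              have := tau_insert_le F hvF ∅ x
              have h4 := tau_le hF
              have h5 : (insert x ∅ : Finset ℕ) = {x} := rfl
              rw [h5] at this
              omega
            obtain ⟨XF₂, CF₂, hF₂, hcF₂⟩ := exists_tau F {x}
            obtain ⟨hB₂, hs₂⟩ := cfg_enlarge hvB (X' := insert x X) (D' := ∅) hB
              (Finset.subset_insert _ _) (Finset.empty_subset _)
            have h6 : cost B ∅ (insert x X) (keep (insert x X) CB) ≤ cost B ∅ X CB + 1 := by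
              rw [cost, cost]
              have : (insert x X \ ∅).card ≤ (X \ ∅).card + 1 := by
                simpa using Finset.card_insert_le x X
              omega
            have := glue_del hv hd hVB hB₂ hF₂ (by
              intro v hv
              rw [Finset.mem_singleton] at hv
              rw [hv]; exact Finset.mem_insert_self _ _)
              (Or.inl (Or.inl (Finset.mem_insert_self _ _)))
            omega

/-- splitting a configuration -/
theorem glue_down {F B : Finset Ed} {P : Finset ℕ} (hd : Disjoint F B)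
    (hVB : vs F ∩ vs B ⊆ P) {X : Finset ℕ} {C : Finset Ed} (h : Cfg (F ∪ B) ∅ X C)
    (PB : Finset ℕ) (hPB : PB ⊆ P) :
    Cfg B ∅ (X ∩ (vs B ∪ PB)) (C ∩ B) ∧ Cfg F (X ∩ P) (X ∩ (vs F ∪ P)) (C ∩ F) ∧
      cost B ∅ (X ∩ (vs B ∪ PB)) (C ∩ B) + cost F (X ∩ P) (X ∩ (vs F ∪ P)) (C ∩ F) ≤
        cost (F ∪ B) ∅ X C := by
  have inB : ∀ e ∈ B, px e ∈ vs B ∧ py e ∈ vs B := fun e he =>
    ⟨mem_vs.2 ⟨e, he, mem_ends.2 (Or.inl rfl)⟩, mem_vs.2 ⟨e, he, mem_ends.2 (Or.inr rfl)⟩⟩
  have inF : ∀ e ∈ F, px e ∈ vs F ∧ py e ∈ vs F := fun e he =>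
    ⟨mem_vs.2 ⟨e, he, mem_ends.2 (Or.inl rfl)⟩, mem_vs.2 ⟨e, he, mem_ends.2 (Or.inr rfl)⟩⟩
  refine ⟨⟨Finset.empty_subset _, Finset.inter_subset_right, ?_, ?_⟩,
    ⟨?_, Finset.inter_subset_right, ?_, ?_⟩, ?_⟩
  · intro e he
    have := h.kept e (Finset.mem_inter.1 he).1
    simp only [Finset.mem_inter]
    tauto
  · exact h.forest.mono Finset.inter_subset_left
  · exact Finset.inter_subset_inter le_rfl Finset.subset_union_right
  · intro e he
    have := h.kept e (Finset.mem_inter.1 he).1
    simp only [Finset.mem_inter]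
    tauto
  · exact h.forest.mono Finset.inter_subset_left
  · rw [cost, cost, cost, Finset.sum_union hd]
    have h1 : ∑ e ∈ B, ecost (X ∩ (vs B ∪ PB)) (C ∩ B) e = ∑ e ∈ B, ecost X C e := by
      refine Finset.sum_congr rfl fun e he => ecost_congr ?_ ?_ ?_
      · simp [(inB e he).1]
      · simp [(inB e he).2]
      · simp [he]
    have h2 : ∑ e ∈ F, ecost (X ∩ (vs F ∪ P)) (C ∩ F) e = ∑ e ∈ F, ecost X C e := by
      refine Finset.sum_congr rfl fun e he => ecost_congr ?_ ?_ ?_
      · simp [(inF e he).1]
      · simp [(inF e he).2]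
      · simp [he]
    rw [h1, h2]
    have h3 : ((X ∩ (vs B ∪ PB)) \ ∅).card + ((X ∩ (vs F ∪ P)) \ (X ∩ P)).card ≤ (X \ ∅).card := by
      rw [← Finset.card_union_of_disjoint]
      · apply Finset.card_le_card
        intro v hv
        simp only [Finset.mem_union, Finset.mem_sdiff, Finset.mem_inter] at hv ⊢
        rcases hv with hv | hv
        · exact ⟨hv.1.1, by simp⟩
        · exact ⟨hv.1.1, by simp⟩
      · rw [Finset.disjoint_left]
        intro v hv hv'
        simp only [Finset.mem_sdiff, Finset.mem_inter, Finset.mem_union, Finset.notMem_empty,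
          not_false_eq_true, and_true, not_and] at hv hv'
        have hP : v ∉ P := hv'.2 hv.1
        rcases hv.2 with h4 | h4
        · rcases hv'.1.2 with h5 | h5
          · exact hP (hVB (Finset.mem_inter.2 ⟨h5, h4⟩))
          · exact hP h5
        · exact hP (hPB h4)
    omega

theorem replace_ge (F B : Finset Ed) (x y k : ℕ) (hxy : x ≠ y)
    (hd : Disjoint F B) (hVB : vs F ∩ vs B ⊆ {x, y}) (hE : E k x y ∉ F) (e : Ed)
    (hx : px e = x) (hy : py e = y) (heB : e ∉ B) (γ : ℕ) (hγ : tau F {x, y} = γ)
    (ha : tau F {x} = γ + ca e) (hb : tau F {y} = γ + cb e) (hc : tau F ∅ = γ + cc e)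
    (hdd : tau (insert (E k x y) F) ∅ = γ + cd e) :
    γ + tau (insert e B) ∅ ≤ tau (F ∪ B) ∅ := by
  obtain ⟨X, C, hcfg, hcost⟩ := exists_tau (F ∪ B) ∅
  obtain ⟨hB, hF, hle⟩ := glue_down hd hVB hcfg {x, y} le_rfl
  have hF' := tau_le hF
  rw [← hcost]
  set XB := X ∩ (vs B ∪ {x, y}) with hXB
  set XF := X ∩ (vs F ∪ {x, y}) with hXF
  have hxB : x ∈ XB ↔ x ∈ X := by simp [hXB]
  have hyB : y ∈ XB ↔ y ∈ X := by simp [hXB]
  have heC : e ∉ C ∩ B := fun h => heB (Finset.mem_inter.1 h).2
  -- the configuration without `e`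
  have hcfg1 : Cfg (insert e B) ∅ XB (C ∩ B) :=
    ⟨Finset.empty_subset _, hB.CH.trans (Finset.subset_insert _ _), hB.kept, hB.forest⟩
  have hcost1 : cost (insert e B) ∅ XB (C ∩ B) = cost B ∅ XB (C ∩ B) + ecost XB (C ∩ B) e :=
    cost_insert heB ∅ XB _ _ (fun f hf => Iff.rfl)
  have ht1 := tau_le hcfg1
  by_cases hxX : x ∈ X
  · by_cases hyX : y ∈ X
    · have hD : X ∩ {x, y} = {x, y} := by
        apply Finset.inter_eq_right.2
        intro v hv
        rw [Finset.mem_insert, Finset.mem_singleton] at hv
        rcases hv with rfl | rfl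
        · exact hxX
        · exact hyX
      rw [hD] at hF' hle
      have he : ecost XB (C ∩ B) e = 0 := by
        unfold ecost
        rw [hx, hy, if_pos (hxB.2 hxX), if_pos (hyB.2 hyX)]
      omega
    · have hD : X ∩ {x, y} = {x} := by
        ext v
        simp only [Finset.mem_inter, Finset.mem_insert, Finset.mem_singleton]
        constructor
        · rintro ⟨h1, rfl | rfl⟩
          · rfl
          · exact absurd h1 hyX
        · rintro rfl
          exact ⟨hxX, Or.inl rfl⟩
      rw [hD] at hF' hle
      have he : ecost XB (C ∩ B) e = ca e := by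
        unfold ecost
        rw [hx, hy, if_pos (hxB.2 hxX), if_neg (fun h => hyX (hyB.1 h))]
      omega
  · by_cases hyX : y ∈ X
    · have hD : X ∩ {x, y} = {y} := by
        ext v
        simp only [Finset.mem_inter, Finset.mem_insert, Finset.mem_singleton]
        constructor
        · rintro ⟨h1, rfl | rfl⟩
          · exact absurd h1 hxX
          · rfl
        · rintro rfl
          exact ⟨hyX, Or.inr rfl⟩
      rw [hD] at hF' hle
      have he : ecost XB (C ∩ B) e = cb e := by
        unfold ecost
        rw [hx, hy, if_neg (fun h => hxX (hxB.1 h)), if_pos (hyB.2 hyX)]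
      omega
    · have hD : X ∩ {x, y} = ∅ := by
        ext v
        simp only [Finset.mem_inter, Finset.mem_insert, Finset.mem_singleton, Finset.notMem_empty,
          iff_false, not_and, not_or]
        intro h1
        constructor
        · rintro rfl; exact hxX h1
        · rintro rfl; exact hyX h1
      rw [hD] at hF' hle hF
      by_cases hfor : Forest (insert e (C ∩ B))
      · have hcfg2 : Cfg (insert e B) ∅ XB (insert e (C ∩ B)) := by
          refine ⟨Finset.empty_subset _, Finset.insert_subset_insert _ hB.CH, ?_, hfor⟩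
          intro f hf
          rw [Finset.mem_insert] at hf
          rcases hf with rfl | hf
          · rw [hx, hy]
            exact ⟨fun h => hxX (hxB.1 h), fun h => hyX (hyB.1 h)⟩
          · exact hB.kept f hf
        have hcost2 : cost (insert e B) ∅ XB (insert e (C ∩ B)) = cost B ∅ XB (C ∩ B) +
            ecost XB (insert e (C ∩ B)) e :=
          cost_insert heB ∅ XB _ _ (fun f hf => by
            rw [Finset.mem_insert]
            have : f ≠ e := fun h => heB (h ▸ hf)
            tauto)
        have ht2 := tau_le hcfg2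
        have he : ecost XB (insert e (C ∩ B)) e = cc e := by
          unfold ecost
          rw [hx, hy, if_neg (fun h => hxX (hxB.1 h)), if_neg (fun h => hyX (hyB.1 h)),
            if_pos (Finset.mem_insert_self _ _)]
        omega
      · have hsplit : Forest (insert (E k x y) (C ∩ F)) := by
          have hdC : Disjoint (C ∩ F) (C ∩ B) :=
            Finset.disjoint_of_subset_left Finset.inter_subset_right
              (Finset.disjoint_of_subset_right Finset.inter_subset_right hd)
          rcases forest_split (e₁ := E k x y) (e₂ := e) hdC (hcfg.forest.mono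
            (Finset.union_subset Finset.inter_subset_left Finset.inter_subset_left))
            (by rw [ends, ends, hx, hy]) hxy with h | h
          · exact h
          · exact absurd h hfor
        have hxF : x ∉ XF := fun h => hxX (Finset.mem_inter.1 h).1
        have hyF : y ∉ XF := fun h => hyX (Finset.mem_inter.1 h).1
        have hcfg3 : Cfg (insert (E k x y) F) ∅ XF (insert (E k x y) (C ∩ F)) := by
          refine ⟨Finset.empty_subset _, Finset.insert_subset_insert _ hF.CH, ?_, hsplit⟩
          intro f hf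
          rw [Finset.mem_insert] at hf
          rcases hf with rfl | hf
          · exact ⟨hxF, hyF⟩
          · exact hF.kept f hf
        have hcost3 : cost (insert (E k x y) F) ∅ XF (insert (E k x y) (C ∩ F)) =
            cost F ∅ XF (C ∩ F) + ecost XF (insert (E k x y) (C ∩ F)) (E k x y) :=
          cost_insert hE ∅ XF _ _ (fun f hf => by
            rw [Finset.mem_insert]
            have : f ≠ E k x y := fun h => hE (h ▸ hf)
            tauto)
        have he3 : ecost XF (insert (E k x y) (C ∩ F)) (E k x y) = 0 := by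
          unfold ecost
          rw [if_neg hxF, if_neg hyF, if_pos (Finset.mem_insert_self _ _)]
        have ht3 := tau_le hcfg3
        have he : ecost XB (C ∩ B) e = cd e := by
          unfold ecost
          rw [hx, hy, if_neg (fun h => hxX (hxB.1 h)), if_neg (fun h => hyX (hyB.1 h)),
            if_neg heC]
        omega

/-- **Replacement of a part with two boundary vertices by an edge.** -/
theorem replace (F B : Finset Ed) (x y k : ℕ) (hxy : x ≠ y) (hv : ∀ e ∈ F ∪ B, Valid e)
    (hd : Disjoint F B) (hVB : vs F ∩ vs B ⊆ {x, y}) (hE : E k x y ∉ F) (e : Ed)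
    (hx : px e = x) (hy : py e = y) (heB : e ∉ B) (γ : ℕ) (hγ : tau F {x, y} = γ)
    (ha : tau F {x} = γ + ca e) (hb : tau F {y} = γ + cb e) (hc : tau F ∅ = γ + cc e)
    (hdd : tau (insert (E k x y) F) ∅ = γ + cd e) :
    tau (F ∪ B) ∅ = γ + tau (insert e B) ∅ :=
  le_antisymm (replace_le F B x y k hxy hv hd hVB hE e hx hy heB γ hγ ha hb hc hdd)
    (replace_ge F B x y k hxy hd hVB hE e hx hy heB γ hγ ha hb hc hdd)

end Pool.Agent.TH694.FV
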