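import Pool.Agent.TH694.FV.Final

/-!
# Computing a minimum feedback vertex set by self-reduction
-/

set_option autoImplicit false

namespace Pool.Agent.TH694.FV

open Pool.Agent Pool.Agent.NPC Pool.Agent.NPC.R671

variable {n : ℕ}

/-- the graph in which the vertices of `Z` are isolated -/
def iso (G : SimpleGraph (Fin n)) (Z : Finset (Fin n)) : SimpleGraph (Fin n) where
  Adj u w := G.Adj u w ∧ u ∉ Z ∧ w ∉ Z
  symm := ⟨fun _ _ h => ⟨h.1.symm, h.2.2, h.2.1⟩⟩
  loopless := ⟨fun _ h => h.1.ne rfl⟩

/-- feedback vertex sets -/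
def Fvs (G : SimpleGraph (Fin n)) (X : Finset (Fin n)) : Prop :=
  (G.induce {v | v ∉ X}).IsAcyclic

theorem realE_iso_mem {G : SimpleGraph (Fin n)} {Z : Finset (Fin n)} {i j : Fin n} :
    E 0 i j ∈ realE (iso G Z) ↔ E 0 i j ∈ realE G ∧ i ∉ Z ∧ j ∉ Z := by
  classical
  have key : ∀ (H : SimpleGraph (Fin n)), E 0 (i : ℕ) j ∈ realE H ↔ i < j ∧ H.Adj i j := by
    intro H
    constructor
    · intro h
      obtain ⟨i', j', hij, hadj, he⟩ := realE_mem h
      have e1 : (i : ℕ) = i' := by
        have : px (E 0 (i : ℕ) j) = px (E 0 (i' : ℕ) j') := by rw [he]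
        exact this
      have e2 : (j : ℕ) = j' := by
        have : py (E 0 (i : ℕ) j) = py (E 0 (i' : ℕ) j') := by rw [he]
        exact this
      rw [Fin.ext e1, Fin.ext e2]
      exact ⟨hij, hadj⟩
    · rintro ⟨h1, h2⟩
      unfold realE
      rw [Finset.mem_image]
      exact ⟨(i, j), Finset.mem_filter.2 ⟨Finset.mem_univ _, h1, h2⟩, rfl⟩
  rw [key, key]
  simp only [iso]
  tauto

theorem cx_iso (G : SimpleGraph (Fin n)) {Z Y : Finset (Fin n)} (h : Z ⊆ Y) :
    TH645.FV.CX (iso G Z) (Y \ Z) = TH645.FV.CX G Y := by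
  classical
  ext e
  unfold TH645.FV.CX
  rw [Finset.mem_filter, Finset.mem_filter]
  have hX : ∀ (X : Finset (Fin n)) (a : Fin n), (a : ℕ) ∈ X.image Fin.val ↔ a ∈ X := by
    intro X a
    rw [Finset.mem_image]
    constructor
    · rintro ⟨b, hb, hab⟩
      rwa [← Fin.ext hab]
    · intro h
      exact ⟨a, h, rfl⟩
  constructor
  · rintro ⟨h1, h2, h3⟩
    obtain ⟨i, j, hij, hadj, rfl⟩ := realE_mem h1
    have h4 := realE_iso_mem.1 h1
    have e1 : px (E 0 (i : ℕ) j) = i := rfl
    have e2 : py (E 0 (i : ℕ) j) = j := rfl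
    rw [e1, hX] at h2
    rw [e2, hX] at h3
    rw [Finset.mem_sdiff] at h2 h3
    refine ⟨h4.1, ?_, ?_⟩
    · rw [e1, hX]; tauto
    · rw [e2, hX]; tauto
  · rintro ⟨h1, h2, h3⟩
    obtain ⟨i, j, hij, hadj, rfl⟩ := realE_mem h1
    have e1 : px (E 0 (i : ℕ) j) = i := rfl
    have e2 : py (E 0 (i : ℕ) j) = j := rfl
    rw [e1, hX] at h2
    rw [e2, hX] at h3
    refine ⟨realE_iso_mem.2 ⟨h1, fun hh => h2 (h hh), fun hh => h3 (h hh)⟩, ?_, ?_⟩
    · rw [e1, hX, Finset.mem_sdiff]; tauto
    · rw [e2, hX, Finset.mem_sdiff]; tauto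

theorem fvs_iso (G : SimpleGraph (Fin n)) {Z Y : Finset (Fin n)} (h : Z ⊆ Y) :
    Fvs (iso G Z) (Y \ Z) ↔ Fvs G Y := by
  unfold Fvs
  rw [TH645.FV.acyc_iff, TH645.FV.acyc_iff, cx_iso G h]

/-- the minimum size of a feedback vertex set -/
noncomputable def opt (G : SimpleGraph (Fin n)) : ℕ := tau (realE G) ∅

theorem opt_le {G : SimpleGraph (Fin n)} {X : Finset (Fin n)} (h : Fvs G X) : opt G ≤ X.card :=
  (tau_real G).2 ⟨X, rfl, h⟩

theorem exists_opt (G : SimpleGraph (Fin n)) : ∃ X, Fvs G X ∧ X.card = opt G := by
  obtain ⟨X, h1, h2⟩ := (tau_real G).1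
  exact ⟨X, h2, h1⟩

theorem fvs_mono {G : SimpleGraph (Fin n)} {X Y : Finset (Fin n)} (h : Fvs G X) (hs : X ⊆ Y) :
    Fvs G Y := by
  unfold Fvs at h ⊢
  rw [TH645.FV.acyc_iff] at h ⊢
  refine h.mono ?_
  intro e he
  unfold TH645.FV.CX at he ⊢
  rw [Finset.mem_filter] at he ⊢
  exact ⟨he.1, fun hh => he.2.1 (Finset.image_subset_image hs hh),
    fun hh => he.2.2 (Finset.image_subset_image hs hh)⟩

/-- minimum feedback vertex sets -/
def MinFvs (G : SimpleGraph (Fin n)) (X : Finset (Fin n)) : Prop := Fvs G X ∧ X.card = opt G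

/-- `Z` is contained in a minimum feedback vertex set iff the optimum drops by `|Z|` -/
theorem opt_iso (G : SimpleGraph (Fin n)) (Z : Finset (Fin n)) :
    opt G ≤ opt (iso G Z) + Z.card ∧
      (opt (iso G Z) + Z.card ≤ opt G ↔ ∃ Y, MinFvs G Y ∧ Z ⊆ Y) := by
  classical
  have h1 : ∃ Y, Fvs G Y ∧ Z ⊆ Y ∧ Y.card ≤ opt (iso G Z) + Z.card := by
    obtain ⟨X, hX, hc⟩ := exists_opt (iso G Z)
    refine ⟨X ∪ Z, ?_, Finset.subset_union_right, ?_⟩
    · rw [← fvs_iso G (Z := Z) Finset.subset_union_right]
      have h2 : Fvs (iso G Z) (X ∪ Z) := fvs_mono hX Finset.subset_union_left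
      -- deleting isolated vertices does not matter
      unfold Fvs at h2 ⊢
      rw [TH645.FV.acyc_iff] at h2 ⊢
      refine h2.mono ?_
      intro e he
      unfold TH645.FV.CX at he ⊢
      rw [Finset.mem_filter] at he ⊢
      obtain ⟨i, j, hij, hadj, rfl⟩ := realE_mem he.1
      have h4 := realE_iso_mem.1 he.1
      have e1 : px (E 0 (i : ℕ) j) = i := rfl
      have e2 : py (E 0 (i : ℕ) j) = j := rfl
      have hX' : ∀ (X : Finset (Fin n)) (a : Fin n), (a : ℕ) ∈ X.image Fin.val ↔ a ∈ X := by
        intro X a
        rw [Finset.mem_image]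
        constructor
        · rintro ⟨b, hb, hab⟩
          rwa [← Fin.ext hab]
        · intro h
          exact ⟨a, h, rfl⟩
      refine ⟨he.1, ?_, ?_⟩
      · have := he.2.1
        rw [e1, hX', Finset.mem_sdiff] at this
        rw [e1, hX']
        tauto
      · have := he.2.2
        rw [e2, hX', Finset.mem_sdiff] at this
        rw [e2, hX']
        tauto
    · exact (Finset.card_union_le _ _).trans (by omega)
  obtain ⟨Y, hY, hZY, hc⟩ := h1
  have h2 := opt_le hY
  refine ⟨h2.trans hc, fun h => ⟨Y, ⟨hY, by omega⟩, hZY⟩, ?_⟩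
  rintro ⟨Y', ⟨hY', hc'⟩, hZY'⟩
  have h3 := opt_le ((fvs_iso G hZY').2 hY')
  have h4 := Finset.card_sdiff_add_card_eq_card hZY'
  omega

/-- the set given by a list of bits -/
def dset (n : ℕ) (D : List Bool) : Finset (Fin n) :=
  Finset.univ.filter fun i => D.getD i false = true

theorem mem_dset {D : List Bool} {i : Fin n} : i ∈ dset n D ↔ D.getD i false = true := by
  simp [dset]

/-- the greedy algorithm, for a function `m` which gives the optimum after the deletion of a set -/
def greedy (m : List Bool → ℕ) : ℕ → List Bool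
  | 0 => []
  | j + 1 => greedy m j ++ [decide (m (greedy m j ++ [true]) < m (greedy m j))]

theorem greedy_length (m : List Bool → ℕ) : ∀ j, (greedy m j).length = j
  | 0 => rfl
  | j + 1 => by rw [greedy, List.length_append, greedy_length m j]; rfl

theorem greedy_take (m : List Bool → ℕ) {i j : ℕ} (h : i ≤ j) :
    (greedy m j).take i = greedy m i := by
  induction j with
  | zero =>
    have : i = 0 := by omega
    subst this
    rfl
  | succ j ih =>
    rcases Nat.lt_or_ge i (j + 1) with h' | h'
    · rw [greedy, List.take_append_of_le_length (by rw [greedy_length]; omega), ih (by omega)]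
    · have : i = j + 1 := by omega
      subst this
      exact List.take_of_length_le (by rw [greedy_length])

theorem greedy_getD (m : List Bool → ℕ) {i j : ℕ} (h : i < j) :
    (greedy m j).getD i false = decide (m (greedy m i ++ [true]) < m (greedy m i)) := by
  have h1 : ((greedy m j).take (i + 1)).getD i false = (greedy m j).getD i false := by
    rw [List.getD_eq_getElem?_getD, List.getD_eq_getElem?_getD, List.getElem?_take_of_lt (by omega)]
  rw [← h1, greedy_take m (by omega), greedy, List.getD_append_right _ _ _ _ (by rw [greedy_length]),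
    greedy_length, Nat.sub_self]
  rfl

theorem dset_append {D : List Bool} {i : Fin n} (hD : D.length = i) :
    dset n (D ++ [true]) = insert i (dset n D) := by
  classical
  ext a
  rw [mem_dset, Finset.mem_insert, mem_dset]
  rcases lt_trichotomy (a : ℕ) i with h | h | h
  · rw [List.getD_append _ _ _ _ (by omega)]
    have : a ≠ i := fun hh => by rw [hh] at h; exact lt_irrefl _ h
    tauto
  · have hai : a = i := Fin.ext h
    rw [List.getD_append_right _ _ _ _ (by omega), hD, h, Nat.sub_self]
    exact iff_of_true rfl (Or.inl hai)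
  · rw [List.getD_append_right _ _ _ _ (by omega)]
    have h1 : a ≠ i := fun hh => by rw [hh] at h; exact lt_irrefl _ h
    have h2 : D.getD a false = false := List.getD_eq_default _ _ (by omega)
    rw [h2]
    have h3 : ([true] : List Bool).getD ((a : ℕ) - D.length) false = false :=
      List.getD_eq_default _ _ (by simp; omega)
    rw [h3]
    simp [h1]

theorem greedy_subset (m : List Bool → ℕ) {i j : ℕ} (h : i ≤ j) :
    dset n (greedy m i) ⊆ dset n (greedy m j) := by
  intro a ha
  rw [mem_dset] at ha ⊢
  rw [← greedy_take m h] at ha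
  rw [List.getD_eq_getElem?_getD] at ha ⊢
  by_cases hai : (a : ℕ) < i
  · rwa [List.getElem?_take_of_lt hai] at ha
  · rw [List.getElem?_take, if_neg hai] at ha
    simp at ha

theorem greedy_ok (G : SimpleGraph (Fin n)) (m : List Bool → ℕ)
    (hm : ∀ D : List Bool, D.length ≤ n → m D = opt (iso G (dset n D))) :
    MinFvs G (dset n (greedy m n)) := by
  classical
  -- some minimum feedback vertex set contains the chosen vertices
  have h1 : ∀ j ≤ n, ∃ Y, MinFvs G Y ∧ dset n (greedy m j) ⊆ Y := by
    intro j
    induction j with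
    | zero =>
      intro _
      obtain ⟨X, hX⟩ := exists_opt G
      refine ⟨X, hX, ?_⟩
      intro a ha
      rw [mem_dset] at ha
      simp [greedy] at ha
    | succ j ih =>
      intro hj
      obtain ⟨Y, hY, hsub⟩ := ih (by omega)
      have hlen := greedy_length m j
      by_cases hlt : m (greedy m j ++ [true]) < m (greedy m j)
      · have e1 : greedy m (j + 1) = greedy m j ++ [true] := by
          rw [greedy, decide_eq_true hlt]
        have e2 : dset n (greedy m j ++ [true]) = insert (⟨j, by omega⟩ : Fin n)
            (dset n (greedy m j)) := dset_append (by rw [hlen])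
        have h2 := hm (greedy m j) (by omega)
        have h3 := hm (greedy m j ++ [true]) (by
          rw [List.length_append, hlen]; exact hj)
        have h4 := (opt_iso G (dset n (greedy m j))).2.2 ⟨Y, hY, hsub⟩
        have h5 := Finset.card_insert_le (⟨j, by omega⟩ : Fin n) (dset n (greedy m j))
        rw [← e2] at h5
        rw [e1]
        exact (opt_iso G (dset n (greedy m j ++ [true]))).2.1 (by omega)
      · have e1 : greedy m (j + 1) = greedy m j ++ [false] := by
          rw [greedy, decide_eq_false hlt]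
        refine ⟨Y, hY, ?_⟩
        rw [e1]
        refine subset_trans ?_ hsub
        intro a ha
        rw [mem_dset] at ha ⊢
        by_cases haj : (a : ℕ) < (greedy m j).length
        · rwa [List.getD_append _ _ _ _ haj] at ha
        · rw [List.getD_append_right _ _ _ _ (by omega)] at ha
          exfalso
          have : ([false] : List Bool).getD ((a : ℕ) - (greedy m j).length) false = false := by
            rcases (a : ℕ) - (greedy m j).length with _ | k
            · rfl
            · rfl
          rw [this] at ha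
          exact Bool.false_ne_true ha
  obtain ⟨Y, hY, hsub⟩ := h1 n le_rfl
  have h2 : dset n (greedy m n) = Y := by
    refine Finset.Subset.antisymm hsub fun i hi => ?_
    rw [mem_dset, greedy_getD m i.2, decide_eq_true_eq]
    -- `Y` contains the vertices chosen before `i` and `i`
    have hsub' : dset n (greedy m i) ⊆ Y := (greedy_subset m (by omega)).trans hsub
    have e2 : dset n (greedy m i ++ [true]) = insert i (dset n (greedy m i)) :=
      dset_append (greedy_length m i)
    have h3 := hm (greedy m i) (by rw [greedy_length]; omega)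
    have h4 := hm (greedy m i ++ [true]) (by
      rw [List.length_append, greedy_length]; exact i.2)
    have h5 := (opt_iso G (dset n (greedy m i ++ [true]))).2.2 ⟨Y, hY, by
      rw [e2]; exact Finset.insert_subset hi hsub'⟩
    have h6 := (opt_iso G (dset n (greedy m i))).1
    have h7 : i ∉ dset n (greedy m i) := by
      rw [mem_dset, List.getD_eq_default _ _ (by rw [greedy_length])]
      simp
    rw [e2, Finset.card_insert_of_notMem h7, ← e2] at h5
    omega
  rw [h2]
  exact hY

/-! ### The algorithm -/

/-- isolate the vertices given by `D` -/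
def clr (M : List (List Bool)) (D : List Bool) : List (List Bool) :=
  (List.range M.length).map fun i => (List.range M.length).map fun j =>
    ent M i j && (!(D.getD i false) && !(D.getD j false))

theorem clr_adjMatrix (G : SimpleGraph (Fin n)) (D : List Bool) :
    clr (adjMatrix G) D = adjMatrix (iso G (dset n D)) := by
  classical
  unfold clr
  rw [length_adjMatrix]
  apply List.ext_getElem
  · simp [adjMatrix]
  · intro i h1 h2
    simp only [List.length_map, List.length_range] at h1
    apply List.ext_getElem
    · simp [adjMatrix]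
    · intro j h3 h4
      simp only [List.getElem_map, List.getElem_range, List.length_map, List.length_range] at h3 ⊢
      have e1 := ent_adjMatrix G ⟨i, h1⟩ ⟨j, h3⟩
      have e2 : (adjMatrix (iso G (dset n D)))[i][j] =
          decide ((iso G (dset n D)).Adj ⟨i, h1⟩ ⟨j, h3⟩) := by
        simp [adjMatrix]
      rw [e2, Bool.eq_iff_iff]
      simp only [Bool.and_eq_true, Bool.not_eq_true', decide_eq_true_eq]
      change ent (adjMatrix G) i j = true ↔ _ at e1
      rw [e1]
      simp only [iso, mem_dset, Bool.not_eq_true]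

theorem poly_clr {α : Type} [TEnc α] {M : α → List (List Bool)} {D : α → List Bool}
    (hM : NPC.Poly M) (hD : NPC.Poly D) : NPC.Poly (fun a => clr (M a) (D a)) := by
  unfold clr
  refine NPC.Poly.map (F := fun a i => (List.range (M a).length).map fun j =>
    ent (M a) i j && (!((D a).getD i false) && !((D a).getD j false)))
    (NPC.Poly.range_length hM) ?_
  refine NPC.Poly.map (l := fun p : α × ℕ => List.range (M p.1).length)
    (F := fun (p : α × ℕ) j => ent (M p.1) p.2 j && (!((D p.1).getD p.2 false) &&
      !((D p.1).getD j false))) (NPC.Poly.range_length (hM.comp (NPC.Poly.fst NPC.Poly.id))) ?_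
  have h1 : NPC.Poly (fun q : (α × ℕ) × ℕ => M q.1.1) :=
    hM.comp (NPC.Poly.fst (NPC.Poly.fst NPC.Poly.id))
  have h2 : NPC.Poly (fun q : (α × ℕ) × ℕ => D q.1.1) :=
    hD.comp (NPC.Poly.fst (NPC.Poly.fst NPC.Poly.id))
  have h3 : NPC.Poly (fun q : (α × ℕ) × ℕ => q.1.2) := NPC.Poly.snd (NPC.Poly.fst NPC.Poly.id)
  have h4 : NPC.Poly (fun q : (α × ℕ) × ℕ => q.2) := NPC.Poly.snd NPC.Poly.id
  exact NPC.Poly.and (poly_ent h1 h3 h4) (NPC.Poly.and
    (NPC.Poly.not (NPC.Poly.getD h2 h3 (NPC.Poly.const false)))
    (NPC.Poly.not (NPC.Poly.getD h2 h4 (NPC.Poly.const false))))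

/-- greedy by a fold -/
def gfold (g : List (List Bool) → ℕ) (M : List (List Bool)) : List Bool :=
  M.foldl (fun out _ => out ++ [decide (g (clr M (out ++ [true])) < g (clr M out))]) []

theorem gfold_eq (g : List (List Bool) → ℕ) (M : List (List Bool)) (k : ℕ) (hk : k ≤ M.length) :
    (M.take k).foldl (fun out _ => out ++ [decide (g (clr M (out ++ [true])) < g (clr M out))]) [] =
      greedy (fun D => g (clr M D)) k := by
  induction k with
  | zero => rfl
  | succ k ih =>
    rw [List.take_succ_eq_append_getElem (by omega), List.foldl_append, ih (by omega)]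
    rfl

theorem poly_gfold {g : List (List Bool) → ℕ} (hg : NPC.Poly g) :
    NPC.Poly (fun M => gfold g M) := by
  unfold gfold
  refine NPC.Poly.foldl (l := fun M : List (List Bool) => M) (s := fun _ => ([] : List Bool))
    (F := fun M out _ => out ++ [decide (g (clr M (out ++ [true])) < g (clr M out))])
    NPC.Poly.id (NPC.Poly.const _) ?_ (4 * Polynomial.X + 1) ?_
  · have h1 : NPC.Poly (fun p : List (List Bool) × List Bool × List Bool => p.1) :=
      NPC.Poly.fst NPC.Poly.id
    have h2 : NPC.Poly (fun p : List (List Bool) × List Bool × List Bool => p.2.1) :=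
      NPC.Poly.fst (NPC.Poly.snd NPC.Poly.id)
    exact NPC.Poly.append h2 (NPC.Poly.cons (NPC.Poly.decide_lt
      (hg.comp (poly_clr h1 (NPC.Poly.append h2 (NPC.Poly.const [true]))))
      (hg.comp (poly_clr h1 h2))) (NPC.Poly.const _))
  · intro M k hk
    rw [gfold_eq g M k hk]
    have h1 := sz_listBool_le (greedy (fun D => g (clr M D)) k)
    rw [greedy_length] at h1
    have h2 := length_lt_sz M
    simp only [Polynomial.eval_add, Polynomial.eval_mul, Polynomial.eval_X, Polynomial.eval_one,
      Polynomial.eval_ofNat]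
    omega

/-- **Computing a minimum feedback vertex set.** -/
theorem main_search (p q r : ℕ) : ∃ g : List (List Bool) → List Bool, NPC.Poly g ∧
    ∀ (n : ℕ) (G : SimpleGraph (Fin n)), (spider ![1, p, q, r]).Free G →
      ∃ X : Finset (Fin n), MinFvs G X ∧ g (adjMatrix G) = List.ofFn (fun i => decide (i ∈ X)) := by
  obtain ⟨g, hg, hspec⟩ := main p q r
  refine ⟨gfold g, poly_gfold hg, fun n G hG => ⟨dset n (gfold g (adjMatrix G)), ?_, ?_⟩⟩
  · have h1 : gfold g (adjMatrix G) = greedy (fun D => g (clr (adjMatrix G) D)) n := by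
      have := gfold_eq g (adjMatrix G) n (by rw [length_adjMatrix])
      rw [← this, List.take_of_length_le (by rw [length_adjMatrix])]
      rfl
    rw [h1]
    refine greedy_ok G _ fun D _ => ?_
    have h2 : (spider ![1, p, q, r]).Free (iso G (dset n D)) := by
      intro h
      refine hG (h.trans ?_)
      exact SimpleGraph.IsContained.of_le (fun u w huw => huw.1)
    have h3 := hspec n _ h2
    have h4 := tau_real (iso G (dset n D))
    change g (clr (adjMatrix G) D) = _
    rw [clr_adjMatrix]
    exact h3.unique h4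
  · have h1 : gfold g (adjMatrix G) = greedy (fun D => g (clr (adjMatrix G) D)) n := by
      have := gfold_eq g (adjMatrix G) n (by rw [length_adjMatrix])
      rw [← this, List.take_of_length_le (by rw [length_adjMatrix])]
      rfl
    have h2 : (gfold g (adjMatrix G)).length = n := by rw [h1, greedy_length]
    apply List.ext_getElem
    · rw [h2, List.length_ofFn]
    · intro i h3 h4
      rw [List.getElem_ofFn, Bool.eq_iff_iff, decide_eq_true_eq, mem_dset,
        List.getD_eq_getElem _ _ h3]

end Pool.Agent.TH694.FV
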