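import Pool.Agent.TH694.FV.Jobs1

/-!
# The structural theorem
-/

set_option autoImplicit false

namespace Pool.Agent.TH694.FV

/-- The legs of a tight fan together with a further neighbour form a spider. -/
theorem spider_extra {V : Type} [Fintype V] [DecidableEq V] {G : SimpleGraph V} {L : ℕ}
    {v : V} {z : Fin 3 → V} {q : ∀ i, G.Walk v (z i)} (hq : Legs G 3 L v z q) {b : V}
    (hb : G.Adj v b) (hbq : ∀ i, b ∉ (q i).support) :
    (spider ![1, L, L, L]).IsContained G := by
  refine spider_of_legs ![1, L, L, L] (h := v) (z := Fin.cons b z)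
    (q := Fin.cons (SimpleGraph.Walk.cons hb SimpleGraph.Walk.nil) q) ⟨?_, ?_, ?_⟩ ?_
  · intro i
    refine Fin.cases ?_ (fun j => ?_) i
    · show (SimpleGraph.Walk.cons hb SimpleGraph.Walk.nil : G.Walk v b).IsPath
      rw [SimpleGraph.Walk.cons_isPath_iff]
      refine ⟨SimpleGraph.Walk.IsPath.nil, ?_⟩
      rw [SimpleGraph.Walk.support_nil, List.mem_singleton]
      exact hb.ne
    · exact hq.1 j
  · intro i
    exact Nat.zero_le _
  · intro i j hij u hu hu'
    have key : ∀ j : Fin 3, ∀ u, u ∈ (SimpleGraph.Walk.cons hb SimpleGraph.Walk.nil : G.Walk v b).support →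
        u ∈ (q j).support → u = v := by
      intro j u hu hu'
      simp only [SimpleGraph.Walk.support_cons, SimpleGraph.Walk.support_nil, List.mem_cons,
        List.not_mem_nil, or_false] at hu
      rcases hu with h | h
      · exact h
      · exact absurd (h ▸ hu') (hbq j)
    refine Fin.cases ?_ (fun i' => ?_) i (motive := fun i => i ≠ j →
      u ∈ ((Fin.cons (SimpleGraph.Walk.cons hb SimpleGraph.Walk.nil) q :
        ∀ i : Fin 4, G.Walk v ((Fin.cons b z : Fin 4 → V) i)) i).support → u = v) hij hu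
    · intro hij hu
      refine Fin.cases ?_ (fun j' => ?_) j (motive := fun j => (0 : Fin 4) ≠ j →
        u ∈ ((Fin.cons (SimpleGraph.Walk.cons hb SimpleGraph.Walk.nil) q :
        ∀ i : Fin 4, G.Walk v ((Fin.cons b z : Fin 4 → V) i)) j).support → u = v) hij hu'
      · intro h; exact absurd rfl h
      · intro _ hu'
        exact key j' u hu hu'
    · intro hij hu
      refine Fin.cases ?_ (fun j' => ?_) j (motive := fun j => (i'.succ : Fin 4) ≠ j →
        u ∈ ((Fin.cons (SimpleGraph.Walk.cons hb SimpleGraph.Walk.nil) q :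
        ∀ i : Fin 4, G.Walk v ((Fin.cons b z : Fin 4 → V) i)) j).support → u = v) hij hu'
      · intro _ hu'
        exact key i' u hu' hu
      · intro hij hu'
        exact hq.2.2 i' j' (fun h => hij (by rw [h])) u hu hu'
  · intro i
    refine Fin.cases ?_ (fun j => ?_) i
    · simp
    · have := hq.2.1 j
      have h2 : (![1, L, L, L] : Fin 4 → ℕ) j.succ = L := by
        fin_cases j <;> rfl
      rw [h2]
      exact this

theorem structural (L : ℕ) (hL : 1 ≤ L) : ∃ N : ℕ, ∀ (V : Type) [Fintype V] [DecidableEq V]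
    (G T : SimpleGraph V) (R : V → V → SimpleGraph V), Model G T R → Three' T →
    (∃ u w, ∃ p : T.Walk u w, p.IsPath ∧ N ≤ p.length) → ∀ v ∈ T.support,
    ((∃ s : Finset V, s.card = 4 ∧ ∀ u ∈ s, T.Adj v u) ∨
      ∃ w a b, T.Adj v w ∧ a ≠ b ∧ (R v w).Adj v a ∧ (R v w).Adj v b) →
    (spider ![1, L, L, L]).IsContained G := by
  classical
  obtain ⟨N, hN⟩ := hub L
  refine ⟨N, fun V _ _ G T R M h3 hp v hv hfat => ?_⟩
  set Z : Finset V := Finset.univ.filter (fun z => z ∈ T.support ∧ ∀ p : T.Walk v z, L ≤ p.length)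
    with hZ
  by_cases hc : 3 ≤ Z.card
  · obtain ⟨z, p, hp1, hp2⟩ := legs3 T h3 L hL v hv Z hc (by
      intro z hz
      rw [hZ, Finset.mem_filter] at hz
      exact hz.2)
    obtain ⟨q, hq, b, hb, hbq⟩ := M.legs_extra hL hp1 hp2 hfat
    exact spider_extra hq hb hbq
  · obtain ⟨h, z, p, hp1⟩ := hN V T v Z (by omega) (by
      intro z hz hzZ
      rw [hZ, Finset.mem_filter] at hzZ
      push Not at hzZ
      exact hzZ (Finset.mem_univ _) hz) hp
    obtain ⟨q, hq⟩ := M.legs hp1
    refine spider_of_legs ![1, L, L, L] (h := h) (z := z) (q := q)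
      ⟨hq.1, fun i => Nat.zero_le _, hq.2.2⟩ ?_
    intro i
    have := hq.2.1 i
    have h2 : (![1, L, L, L] : Fin 4 → ℕ) i ≤ L := by
      fin_cases i
      · exact hL
      · exact le_rfl
      · exact le_rfl
      · exact le_rfl
    exact h2.trans this

end Pool.Agent.TH694.FV
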