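import Pool.Agent.TH694.FV.Pick

/-!
# Correctness of one step
-/

set_option autoImplicit false

namespace Pool.Agent.TH694.FV

open Pool.Agent

/-- the two algorithms for parts are correct -/
structure BaseOK (N : ℕ) (par dp : List Ed → List ℕ → ℕ) : Prop where
  par : ∀ F D, F.Nodup → (∀ e ∈ F, px e ≠ py e ∧ ca e = 0 ∧ cb e = 0 ∧ cc e = 0 ∧ cd e ≤ 1) →
    (∀ v, dg (F.toFinset.filter (fun e => cd e = 1)) v ≤ 3) →
    par F D = tau F.toFinset D.toFinset
  dp : ∀ F D, F.Nodup → (∀ e ∈ F, Valid e) → Conn F.toFinset →
    (∀ P, Pth F.toFinset P → P.length < N) → dp F D = tau F.toFinset D.toFinset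

theorem base_ok {N : ℕ} {par dp : List Ed → List ℕ → ℕ} (hb : BaseOK N par dp) {F F' : List Ed}
    (hnd' : F'.Nodup) (hv : ∀ e ∈ F', Valid e)
    (hc : Good F' ∨ ∀ P, Pth F'.toFinset P → P.length < N) (hnd : F.Nodup)
    (hsub : ∀ e ∈ F, e ∈ F') (hconn : Conn F.toFinset) (D : List ℕ) :
    base par dp (decide (Good F')) F D = tau F.toFinset D.toFinset := by
  by_cases hg : Good F'
  · rw [base, decide_eq_true hg, cond_true]
    rw [good_iff hnd'] at hg
    refine hb.par F D hnd (fun e he => ?_) (fun v => ?_)
    · have := hg.1 e (hsub e he)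
      exact ⟨(hv e (hsub e he)).1, this⟩
    · refine (dg_mono ?_ v).trans (hg.2 v)
      intro e he
      rw [Finset.mem_filter, List.mem_toFinset] at he ⊢
      exact ⟨hsub e he.1, he.2⟩
  · rw [base, decide_eq_false hg, cond_false]
    have hc' := hc.resolve_left hg
    refine hb.dp F D hnd (fun e he => hv e (hsub e he)) hconn (fun P hP => hc' P ⟨hP.1, ?_⟩)
    refine hP.2.imp fun u w => ?_
    rintro ⟨e, he, h⟩
    exact ⟨e, List.mem_toFinset.2 (hsub e (List.mem_toFinset.1 he)), h⟩

theorem vs_card_le (F : Finset Ed) : (vs F).card ≤ 2 * F.card := by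
  have h1 : ∀ e ∈ F, (ends e).card ≤ 2 := fun e _ => by
    rw [ends]
    exact Finset.card_le_two
  have := Finset.card_biUnion_le_card_mul F ends 2 h1
  rw [vs]
  omega

theorem tau_le_two (F : Finset Ed) (D : Finset ℕ) : tau F D ≤ 2 * F.card := by
  have hcfg : Cfg F D (D ∪ vs F) ∅ :=
    ⟨Finset.subset_union_left, by simp, by simp, forest_empty⟩
  refine (tau_le hcfg).trans ?_
  rw [cost]
  have h1 : ∑ e ∈ F, ecost (D ∪ vs F) ∅ e = 0 := by
    refine Finset.sum_eq_zero fun e he => ?_
    unfold ecost
    have h2 : px e ∈ vs F := mem_vs.2 ⟨e, he, mem_ends.2 (Or.inl rfl)⟩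
    have h3 : py e ∈ vs F := mem_vs.2 ⟨e, he, mem_ends.2 (Or.inr rfl)⟩
    rw [if_pos (Finset.mem_union_right _ h2), if_pos (Finset.mem_union_right _ h3)]
  have h2 : ((D ∪ vs F) \ D).card ≤ (vs F).card := by
    apply Finset.card_le_card
    intro v hv
    rw [Finset.mem_sdiff, Finset.mem_union] at hv
    tauto
  have := vs_card_le F
  omega

/-! ### The order of the vertices -/

theorem mem_ol {H F : List Ed} {v : ℕ} : v ∈ ol H F ↔ v ∈ vs F.toFinset := by
  rw [ol, List.mem_append, List.mem_filter, decide_eq_true_eq, ← mem_vl]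
  have : v ∈ bdL H F → v ∈ vl F := fun h => (List.mem_filter.1 h).1
  tauto

theorem nodup_ol (H F : List Ed) : (ol H F).Nodup := by
  rw [ol, List.nodup_append]
  refine ⟨nodup_bdL H F, (nodup_vl F).filter _, ?_⟩
  intro a ha b hb hab
  rw [List.mem_filter, decide_eq_true_eq] at hb
  exact hb.2 (hab ▸ ha)

theorem length_ol (H F : List Ed) : (ol H F).length = (vs F.toFinset).card := by
  rw [← List.toFinset_card_of_nodup (nodup_ol H F)]
  congr 1
  ext v
  rw [List.mem_toFinset, mem_ol]

theorem xo_yo {H F : List Ed} (h2 : 2 ≤ (vs F.toFinset).card)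
    (hb : (bd H.toFinset F.toFinset).card ≤ 2) :
    xo H F ≠ yo H F ∧ xo H F ∈ vs F.toFinset ∧ yo H F ∈ vs F.toFinset ∧
      (((bdL H F).length = 2 ∧ bd H.toFinset F.toFinset = {xo H F, yo H F}) ∨
      ((bdL H F).length ≠ 2 ∧ bd H.toFinset F.toFinset ⊆ {xo H F})) := by
  have hlen := length_ol H F
  have hnd := nodup_ol H F
  have hm : ∀ v, v ∈ ol H F ↔ v ∈ vs F.toFinset := fun v => mem_ol
  have hbl := length_bdL H F
  have hbf := bdL_toFinset H F
  obtain ⟨x, y, l, hl⟩ : ∃ x y l, ol H F = x :: y :: l := by
    match ol H F, hlen with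
    | [], h => simp at h; omega
    | [_], h => simp at h; omega
    | x :: y :: l, _ => exact ⟨x, y, l, rfl⟩
  have hx : xo H F = x := by rw [xo, hl]; rfl
  have hy : yo H F = y := by rw [yo, hl]; rfl
  rw [hx, hy]
  rw [hl] at hnd
  refine ⟨?_, ?_, ?_, ?_⟩
  · rintro rfl
    exact (List.nodup_cons.1 hnd).1 List.mem_cons_self
  · rw [← hm, hl]; exact List.mem_cons_self
  · rw [← hm, hl]; exact List.mem_cons_of_mem _ List.mem_cons_self
  · rw [ol] at hl
    rcases hc : bdL H F with _ | ⟨a, _ | ⟨b, _ | ⟨c, t⟩⟩⟩
    · right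
      refine ⟨by simp, ?_⟩
      rw [← hbf, hc]
      simp
    · right
      refine ⟨by simp, ?_⟩
      rw [← hbf, hc]
      rw [hc, List.cons_append, List.cons.injEq] at hl
      rw [hl.1]
      simp
    · left
      refine ⟨rfl, ?_⟩
      rw [← hbf, hc]
      rw [hc, List.cons_append, List.cons_append, List.cons.injEq, List.cons.injEq] at hl
      rw [hl.1, hl.2.1]
      simp
    · exfalso
      rw [hc] at hbl
      simp at hbl
      omega

/-! ### Both phases -/

theorem reach_swap {F : Finset Ed} {A : Finset ℕ} {k x y u w : ℕ}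
    (h : Reach (insert (E k x y) F) A u w) : Reach (insert (E k y x) F) A u w := by
  unfold Reach at h ⊢
  induction h with
  | refl => exact Relation.ReflTransGen.refl
  | tail _ hpq ih =>
    refine ih.tail ?_
    obtain ⟨h1, e, he, h2, h3⟩ := hpq
    rw [Finset.mem_insert] at he
    rcases he with rfl | he
    · refine ⟨h1, E k y x, Finset.mem_insert_self _ _, ?_, ?_⟩
      · rw [mem_ends] at h2 ⊢; exact h2.symm
      · rw [mem_ends] at h3 ⊢; exact h3.symm
    · exact ⟨h1, e, Finset.mem_insert_of_mem he, h2, h3⟩

theorem three_swap {F : Finset Ed} {k x y : ℕ} (h : Three (insert (E k x y) F)) :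
    Three (insert (E k y x) F) := by
  have hvs : vs (insert (E k y x) F) = vs (insert (E k x y) F) := by
    rw [vs_insert, vs_insert]
    congr 1
    exact Finset.pair_comm _ _
  intro v hv z hz a b h1 h2 h3 h4
  rw [hvs] at hv hz
  exact reach_swap (h v hv z hz a b h1 h2 h3 h4)

/-- the statement of `key_mod` for one graph -/
def KeyFor {n : ℕ} (G : SimpleGraph (Fin n)) (N : ℕ) : Prop :=
  ∀ (F : Finset Ed) (R : Ed → Finset Ed),
    (∀ e ∈ F, px e ≠ py e) → (∀ e ∈ F, R e ⊆ realE G) → (∀ e ∈ F, Conn (R e)) →
    (∀ e ∈ F, ends e ⊆ vs (R e)) →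
    (∀ e ∈ F, ∀ f ∈ F, e ≠ f → vs (R e) ∩ vs (R f) ⊆ ends e ∩ ends f) →
    (∀ e ∈ F, ∀ f ∈ F, e ≠ f → ends e ≠ ends f) → Three F →
    (∀ P, Pth F P → P.length < N) ∨
      ((∀ e ∈ F, ∀ v ∈ ends e, dg (R e) v ≤ 1) ∧ ∀ v, dg F v ≤ 3)

theorem conn_pair {e f : Ed} (h : (ends e ∩ ends f).Nonempty) : Conn ({e, f} : Finset Ed) := by
  classical
  obtain ⟨u, hu⟩ := h
  rw [Finset.mem_inter] at hu
  refine ⟨⟨e, Finset.mem_insert_self _ _⟩, fun A hA hne hne' hdis => ?_⟩
  have huA : ∀ A : Finset Ed, A ⊆ {e, f} → A.Nonempty → u ∈ vs A := by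
    rintro A hA ⟨g, hg⟩
    have := hA hg
    rw [Finset.mem_insert, Finset.mem_singleton] at this
    rcases this with rfl | rfl
    · exact mem_vs.2 ⟨g, hg, hu.1⟩
    · exact mem_vs.2 ⟨g, hg, hu.2⟩
  exact Finset.disjoint_left.1 hdis (huA A hA hne) (huA _ Finset.sdiff_subset hne')

theorem pth_length_le {F : Finset Ed} {P : List ℕ} (h : Pth F P) :
    P.length ≤ 1 ∨ P.length ≤ (vs F).card := by
  rcases P with _ | ⟨a, _ | ⟨b, l⟩⟩
  · left; simp
  · left; simp
  · right
    rw [← List.toFinset_card_of_nodup h.1]
    apply Finset.card_le_card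
    intro v hv
    rw [List.mem_toFinset] at hv
    have key : ∀ (l : List ℕ) (a b : ℕ),
        (a :: b :: l).IsChain (fun u w => ∃ e ∈ F, u ∈ ends e ∧ w ∈ ends e) →
        ∀ v ∈ a :: b :: l, v ∈ vs F := by
      intro l
      induction l with
      | nil =>
        intro a b hc v hv
        obtain ⟨⟨e, he, h1, h2⟩, _⟩ := List.isChain_cons_cons.1 hc
        simp only [List.mem_cons, List.not_mem_nil, or_false] at hv
        rcases hv with rfl | rfl
        · exact mem_vs.2 ⟨e, he, h1⟩
        · exact mem_vs.2 ⟨e, he, h2⟩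
      | cons c l ih =>
        intro a b hc v hv
        obtain ⟨⟨e, he, h1, h2⟩, hc'⟩ := List.isChain_cons_cons.1 hc
        rw [List.mem_cons] at hv
        rcases hv with rfl | hv
        · exact mem_vs.2 ⟨e, he, h1⟩
        · exact ih b c hc' v hv
    exact key l a b h.2 v hv

/-- the properties of the part which is picked -/
theorem pick_ok {n : ℕ} {G : SimpleGraph (Fin n)} {N : ℕ} (hN : 4 ≤ N) (hkey : KeyFor G N)
    {acc k : ℕ} {H : List Ed} {R : Ed → Finset Ed} (I : Inv (realE G) acc k H.toFinset R)
    (hnd : H.Nodup) {F : List Ed} (hF : F ∈ pick H) :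
    F.Nodup ∧ (∀ g ∈ F, g ∈ H) ∧ 2 ≤ F.length ∧ Conn F.toFinset ∧
      (bd H.toFinset F.toFinset).card ≤ 2 ∧
      (Good (Fv k H F) ∨ ∀ P, Pth (Fv k H F).toFinset P → P.length < N) := by
  have hval : ∀ e ∈ H, Valid e := fun e he => I.valid e (List.mem_toFinset.2 he)
  rcases pick_cases hF with h | ⟨h1, B, hB, hF⟩
  · obtain ⟨e, he, f, hf, hef, hsh, hbd, rfl⟩ := mem_cand1.1 h
    have hef' : [e, f].toFinset = ({e, f} : Finset Ed) := by ext; simp
    refine ⟨by simp [hef], ?_, by simp, by rw [hef']; exact conn_pair hsh, by rw [hef']; exact hbd,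
      Or.inr fun P hP => ?_⟩
    · intro g hg
      simp only [List.mem_cons, List.not_mem_nil, or_false] at hg
      rcases hg with rfl | rfl
      · exact he
      · exact hf
    · have hcard : (vs ({e, f} : Finset Ed)).card ≤ 3 := by
        have : vs ({e, f} : Finset Ed) = ends e ∪ ends f := by simp [vs]
        rw [this]
        have h1 := Finset.card_union_add_card_inter (ends e) (ends f)
        have h2 := Finset.card_pos.2 hsh
        have h3 : (ends e).card ≤ 2 := Finset.card_le_two
        have h4 : (ends f).card ≤ 2 := Finset.card_le_two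
        omega
      have hcard2 : 2 ≤ (vs ([e, f].toFinset)).card := by
        have h5 : ends e ⊆ vs ([e, f].toFinset) :=
          ends_subset_vs (by simp)
        have := Finset.card_le_card h5
        rw [ends_card (hval e he).1] at this
        exact this
      obtain ⟨hxy, hx, hy, _⟩ := xo_yo (H := H) hcard2 (by rw [hef']; exact hbd)
      have hsub : vs (Fv k H [e, f]).toFinset ⊆ vs ({e, f} : Finset Ed) := by
        rw [Fv]
        cases decide ((bdL H [e, f]).length = 2)
        · rw [cond_false, hef']
        · rw [cond_true, List.toFinset_cons, vs_insert, hef']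
          refine Finset.union_subset ?_ le_rfl
          intro v hv
          rw [← hef']
          rcases mem_ends.1 hv with h | h
          · rw [h]; exact hx
          · rw [h]; exact hy
      have h5 := Finset.card_le_card hsub
      rcases pth_length_le hP with h | h <;> omega
  · obtain ⟨p1, p2, p3, p4, p5, p6⟩ := pick_piece hnd (fun e he => (hval e he).1) h1 hB hF
    have hsubH : F.toFinset ⊆ H.toFinset := fun g hg =>
      List.mem_toFinset.2 (p2 g (List.mem_toFinset.1 hg))
    have hcard2 : 2 ≤ (vs F.toFinset).card := by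
      obtain ⟨e, he⟩ := p4.1
      have := Finset.card_le_card (ends_subset_vs he)
      rw [ends_card (hval e (p2 e (List.mem_toFinset.1 he))).1] at this
      exact this
    have hbd2 : (bd H.toFinset F.toFinset).card ≤ 2 := by
      rcases p6 with h | ⟨x, y, _, h3, _⟩
      · omega
      · rw [h3]; exact Finset.card_le_two
    refine ⟨p1, p2, p3, p4, hbd2, ?_⟩
    -- thin labels are free or ordinary
    have hlab : ∀ e ∈ F, (∀ v ∈ ends e, dg (R e) v ≤ 1) →
        ca e = 0 ∧ cb e = 0 ∧ cc e = 0 ∧ cd e ≤ 1 := by
      intro e he h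
      have a1 := I.thinx e (List.mem_toFinset.2 (p2 e he)) (h _ (mem_ends.2 (Or.inl rfl)))
      have a2 := I.thiny e (List.mem_toFinset.2 (p2 e he)) (h _ (mem_ends.2 (Or.inr rfl)))
      obtain ⟨_, _, _, _, _, _, v7, _⟩ := hval e (p2 e he)
      omega
    obtain ⟨hxy, hx, hy, hcase⟩ := xo_yo hcard2 hbd2
    rcases hcase with ⟨hl2, hbdeq⟩ | ⟨hl2, hbdeq⟩
    · -- two boundary vertices
      have hFv : Fv k H F = E k (xo H F) (yo H F) :: F := by
        rw [Fv, decide_eq_true hl2, cond_true]
      rcases p6 with h | ⟨x, y, hxy', h3, h4, ⟨K, hK1, hK2, hK3, hK4⟩, h6⟩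
      · exfalso
        rw [hbdeq, Finset.card_pair hxy] at h
        omega
      have hKx : xo H F ∈ vs K ∧ yo H F ∈ vs K ∧ ∀ k, Three (insert (E k (xo H F) (yo H F)) F.toFinset) ∧
          ∀ e ∈ F, ends e ≠ {xo H F, yo H F} := by
        rw [hbdeq] at h3
        have q1 : xo H F = x ∨ xo H F = y := by
          have : xo H F ∈ ({x, y} : Finset ℕ) := by rw [← h3]; simp
          simpa using this
        have q2 : yo H F = x ∨ yo H F = y := by
          have : yo H F ∈ ({x, y} : Finset ℕ) := by rw [← h3]; simp
          simpa using this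
        rcases q1 with q1 | q1 <;> rcases q2 with q2 | q2
        · exact absurd (q1.trans q2.symm) hxy
        · rw [q1, q2]
          exact ⟨hK3, hK4, fun k => ⟨h6 k, h4⟩⟩
        · rw [q1, q2]
          refine ⟨hK4, hK3, fun k => ⟨three_swap (h6 k), fun e he => ?_⟩⟩
          rw [Finset.pair_comm]
          exact h4 e he
        · exact absurd (q1.trans q2.symm) hxy
      obtain ⟨hxK, hyK, hrest⟩ := hKx
      set e' : Ed := E k (xo H F) (yo H F) with he'
      have hE : e' ∉ H.toFinset := fun h => by
        have h1 := I.name _ h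
        have h2 : nm e' = k := rfl
        omega
      have hEF : e' ∉ F.toFinset := fun h => hE (hsubH h)
      have hKH : ∀ g ∈ K, g ∈ H.toFinset := fun g hg => (Finset.mem_sdiff.1 (hK1 hg)).1
      set R' : Ed → Finset Ed := Function.update R e' (K.biUnion R) with hR'
      have hRe : R' e' = K.biUnion R := Function.update_self _ _ _
      have hRf : ∀ f ∈ F.toFinset, R' f = R f := by
        intro f hf
        rw [hR', Function.update_of_ne]
        rintro rfl
        exact hEF hf
      have hintE : ∀ f ∈ F.toFinset, vs (K.biUnion R) ∩ vs (R f) ⊆ ends e' ∩ ends f := by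
        intro f hf v hv
        rw [Finset.mem_inter, vs_biUnion] at hv
        obtain ⟨⟨g, hg, hvg⟩, hvf⟩ := hv
        have hg' := Finset.mem_sdiff.1 (hK1 hg)
        have hgf : g ≠ f := fun h => hg'.2 (h ▸ hf)
        have h1 := I.inter g hg'.1 f (hsubH hf) hgf (Finset.mem_inter.2 ⟨hvg, hvf⟩)
        rw [Finset.mem_inter] at h1 ⊢
        refine ⟨?_, h1.2⟩
        have h2 : v ∈ bd H.toFinset F.toFinset :=
          Finset.mem_inter.2 ⟨ends_subset_vs hf h1.2, ends_subset_vs (hK1 hg) h1.1⟩
        rw [hbdeq] at h2
        exact h2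
      have hF' : (Fv k H F).toFinset = insert e' F.toFinset := by
        rw [hFv, List.toFinset_cons]
      have hres := hkey (insert e' F.toFinset) R' ?_ ?_ ?_ ?_ ?_ ?_ (hrest k).1
      · rw [hF']
        rcases hres with h | ⟨h7, h8⟩
        · exact Or.inr h
        · left
          have hnd' : (Fv k H F).Nodup := by
            rw [hFv, List.nodup_cons]
            exact ⟨fun h => hEF (List.mem_toFinset.2 h), p1⟩
          rw [good_iff hnd', hF']
          refine ⟨?_, fun v => (dg_mono (Finset.filter_subset _ _) v).trans (h8 v)⟩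
          intro e he
          rw [hFv, List.mem_cons] at he
          rcases he with rfl | he
          · exact ⟨rfl, rfl, rfl, le_rfl⟩
          · refine hlab e he fun v hv => ?_
            have := h7 e (Finset.mem_insert_of_mem (List.mem_toFinset.2 he)) v hv
            rw [hRf e (List.mem_toFinset.2 he)] at this
            exact this
      · intro e he
        rw [Finset.mem_insert] at he
        rcases he with rfl | he
        · exact hxy
        · exact (hval e (p2 e (List.mem_toFinset.1 he))).1
      · intro e he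
        rw [Finset.mem_insert] at he
        rcases he with rfl | he
        · rw [hRe]
          exact Finset.biUnion_subset.2 fun g hg => I.sub g (hKH g hg)
        · rw [hRf e he]
          exact I.sub e (hsubH he)
      · intro e he
        rw [Finset.mem_insert] at he
        rcases he with rfl | he
        · rw [hRe]
          exact conn_biUnion hK2 (fun g hg => I.conn g (hKH g hg))
            (fun g hg => I.ends_sub g (hKH g hg))
        · rw [hRf e he]
          exact I.conn e (hsubH he)
      · intro e he
        rw [Finset.mem_insert] at he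
        rcases he with rfl | he
        · rw [hRe]
          intro v hv
          rw [vs_biUnion]
          have hvK : v ∈ vs K := by
            rcases mem_ends.1 hv with h | h
            · rw [h]; exact hxK
            · rw [h]; exact hyK
          obtain ⟨g, hg, hvg⟩ := mem_vs.1 hvK
          exact ⟨g, hg, I.ends_sub g (hKH g hg) hvg⟩
        · rw [hRf e he]
          exact I.ends_sub e (hsubH he)
      · intro e he f hf hef
        rw [Finset.mem_insert] at he hf
        rcases he with rfl | he
        · rcases hf with rfl | hf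
          · exact absurd rfl hef
          · rw [hRe, hRf f hf]
            exact hintE f hf
        · rcases hf with rfl | hf
          · rw [hRe, hRf e he, Finset.inter_comm, Finset.inter_comm (ends e)]
            exact hintE e he
          · rw [hRf e he, hRf f hf]
            exact I.inter e (hsubH he) f (hsubH hf) hef
      · intro e he f hf hef
        rw [Finset.mem_insert] at he hf
        rcases he with rfl | he
        · rcases hf with rfl | hf
          · exact absurd rfl hef
          · exact fun h => (hrest k).2 f (List.mem_toFinset.1 hf) h.symm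
        · rcases hf with rfl | hf
          · exact (hrest k).2 e (List.mem_toFinset.1 he)
          · exact p5 e (List.mem_toFinset.1 he) f (List.mem_toFinset.1 hf) hef
    · -- at most one boundary vertex
      have hFv : Fv k H F = F := by
        rw [Fv, decide_eq_false hl2, cond_false]
      have hThree : Three F.toFinset := by
        rcases p6 with h | ⟨x, y, hxy', h3, _⟩
        · exact h.2
        · exfalso
          have h7 := Finset.card_le_card hbdeq
          rw [h3, Finset.card_pair hxy', Finset.card_singleton] at h7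
          omega
      have hres := hkey F.toFinset R (fun e he => (hval e (p2 e (List.mem_toFinset.1 he))).1)
        (fun e he => I.sub e (hsubH he)) (fun e he => I.conn e (hsubH he))
        (fun e he => I.ends_sub e (hsubH he))
        (fun e he f hf hef => I.inter e (hsubH he) f (hsubH hf) hef)
        (fun e he f hf hef => p5 e (List.mem_toFinset.1 he) f (List.mem_toFinset.1 hf) hef) hThree
      rw [hFv]
      rcases hres with h | ⟨h7, h8⟩
      · exact Or.inr h
      · left
        rw [good_iff p1]
        exact ⟨fun e he => hlab e he (h7 e (List.mem_toFinset.2 he)),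
          fun v => (dg_mono (Finset.filter_subset _ _) v).trans (h8 v)⟩

/-- **One step is correct.** -/
theorem repl_ok {n : ℕ} {G : SimpleGraph (Fin n)} {N : ℕ} (hN : 4 ≤ N) (hkey : KeyFor G N)
    {par dp : List Ed → List ℕ → ℕ} (hb : BaseOK N par dp)
    {acc k : ℕ} {H : List Ed} {R : Ed → Finset Ed} (I : Inv (realE G) acc k H.toFinset R)
    (hnd : H.Nodup) {F : List Ed} (hF : F ∈ pick H) :
    ∃ R', Inv (realE G) (repl par dp (acc, k, H) F).1 (repl par dp (acc, k, H) F).2.1
      (repl par dp (acc, k, H) F).2.2.toFinset R' ∧ (repl par dp (acc, k, H) F).2.2.Nodup ∧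
      (repl par dp (acc, k, H) F).2.2.length < H.length := by
  obtain ⟨p1, p2, p3, p4, p5, p6⟩ := pick_ok hN hkey I hnd hF
  have hval : ∀ e ∈ H, Valid e := fun e he => I.valid e (List.mem_toFinset.2 he)
  have hvF : ∀ e ∈ F.toFinset, Valid e := fun e he => hval e (p2 e (List.mem_toFinset.1 he))
  have hsubH : F.toFinset ⊆ H.toFinset := fun g hg =>
    List.mem_toFinset.2 (p2 g (List.mem_toFinset.1 hg))
  have hcard2 : 2 ≤ (vs F.toFinset).card := by
    obtain ⟨e, he⟩ := p4.1
    have := Finset.card_le_card (ends_subset_vs he)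
    rw [ends_card (hval e (p2 e (List.mem_toFinset.1 he))).1] at this
    exact this
  obtain ⟨hxy, hx, hy, hcase⟩ := xo_yo hcard2 p5
  set x := xo H F with hxdef
  set y := yo H F with hydef
  have hE : E k x y ∉ F.toFinset := fun h => by
    have h1 := I.name _ (hsubH h)
    have h2 : nm (E k x y) = k := rfl
    omega
  have hFv : Fv k H F = E k x y :: F ∨ Fv k H F = F := by
    rw [Fv]
    cases decide ((bdL H F).length = 2)
    · right; rfl
    · left; rfl
  have hFvnd : (Fv k H F).Nodup := by
    rcases hFv with h | h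
    · rw [h, List.nodup_cons]
      exact ⟨fun h => hE (List.mem_toFinset.2 h), p1⟩
    · rw [h]; exact p1
  have hEval : Valid (E k x y) :=
    ⟨hxy, le_rfl, le_rfl, Nat.zero_le _, Nat.zero_le _, Nat.zero_le _, le_rfl, le_rfl⟩
  have hFvval : ∀ e ∈ Fv k H F, Valid e := by
    intro e he
    rcases hFv with h | h
    · rw [h, List.mem_cons] at he
      rcases he with rfl | he
      · exact hEval
      · exact hval e (p2 e he)
    · rw [h] at he
      exact hval e (p2 e he)
  have hFsub : ∀ e ∈ F, e ∈ Fv k H F := by
    intro e he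
    rcases hFv with h | h
    · rw [h]; exact List.mem_cons_of_mem _ he
    · rw [h]; exact he
  have hbs : ∀ D : List ℕ, bs par dp k H F D = tau F.toFinset D.toFinset := fun D =>
    base_ok hb hFvnd hFvval p6 p1 hFsub p4 D
  have hbv : bv par dp k H F = tau (Fv k H F).toFinset ∅ := by
    refine base_ok hb hFvnd hFvval p6 hFvnd (fun e he => he) ?_ []
    rcases hFv with h | h
    · rw [h, List.toFinset_cons]
      -- the virtual edge keeps the set connected
      refine ⟨⟨_, Finset.mem_insert_self _ _⟩, fun A hA hne hne' hdis => ?_⟩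
      have key : ∀ A A' : Finset Ed, A ∪ A' = insert (E k x y) F.toFinset → E k x y ∈ A →
          A'.Nonempty → Disjoint A A' → Disjoint (vs A) (vs A') → False := by
        intro A A' hun hEA hne' hdAA hdis
        have hA'F : A' ⊆ F.toFinset := by
          intro g hg
          have : g ∈ insert (E k x y) F.toFinset := by
            rw [← hun]; exact Finset.mem_union_right _ hg
          rw [Finset.mem_insert] at this
          rcases this with h | h
          · exact absurd (h ▸ hg) (Finset.disjoint_left.1 hdAA hEA)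
          · exact h
        have hxA' : x ∉ vs A' := fun h =>
          Finset.disjoint_left.1 hdis (mem_vs.2 ⟨_, hEA, mem_ends.2 (Or.inl rfl)⟩) h
        obtain ⟨g, hg, hxg⟩ := mem_vs.1 hx
        refine p4.2 A' hA'F hne' ⟨g, Finset.mem_sdiff.2 ⟨hg, fun h => hxA' (mem_vs.2 ⟨g, h, hxg⟩)⟩⟩ ?_
        rw [disjoint_comm]
        refine Finset.disjoint_of_subset_left (vs_mono ?_) hdis
        intro f hf
        rw [Finset.mem_sdiff] at hf
        have : f ∈ A ∪ A' := by rw [hun]; exact Finset.mem_insert_of_mem hf.1
        rw [Finset.mem_union] at this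
        exact this.resolve_right hf.2
      by_cases hEA : E k x y ∈ A
      · exact key A _ (Finset.union_sdiff_of_subset hA) hEA hne' Finset.disjoint_sdiff hdis
      · exact key _ A (Finset.sdiff_union_of_subset hA)
          (Finset.mem_sdiff.2 ⟨Finset.mem_insert_self _ _, hEA⟩) hne Finset.sdiff_disjoint hdis.symm
    · rw [h]; exact p4
  have hFc : F.toFinset.card = F.length := card_toFinset p1
  -- values
  have t0 : bs par dp k H F [x, y] = tau F.toFinset {x, y} := by
    rw [hbs]; congr 1; ext; simp
  have t1 : bs par dp k H F [x] = tau F.toFinset {x} := by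
    rw [hbs]; congr 1
  have t2 : bs par dp k H F [y] = tau F.toFinset {y} := by
    rw [hbs]; congr 1
  have t3 : bs par dp k H F [] = tau F.toFinset ∅ := by
    rw [hbs]; congr 1
  have hgam : gam par dp k H F = tau F.toFinset {x, y} := by
    rw [gam, t0, ← hFc]
    exact min_eq_left (tau_le_two _ _)
  have j1 : tau F.toFinset {x} ≤ tau F.toFinset {x, y} + 1 := by
    have := tau_le_insert F.toFinset {x} y
    rw [show (insert y {x} : Finset ℕ) = {x, y} from Finset.pair_comm y x] at this
    exact this
  have j1' : tau F.toFinset {x, y} ≤ tau F.toFinset {x} := by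
    have := tau_insert_le F.toFinset hvF {x} y
    rw [show (insert y {x} : Finset ℕ) = {x, y} from Finset.pair_comm y x] at this
    exact this
  have j2 : tau F.toFinset {y} ≤ tau F.toFinset {x, y} + 1 := tau_le_insert F.toFinset {y} x
  have j2' : tau F.toFinset {x, y} ≤ tau F.toFinset {y} := tau_insert_le F.toFinset hvF {y} x
  have j3 : tau F.toFinset ∅ ≤ tau F.toFinset {x} + 1 := tau_le_insert F.toFinset ∅ x
  have j3' : tau F.toFinset {x} ≤ tau F.toFinset ∅ := tau_insert_le F.toFinset hvF ∅ x
  have j4 := (tau_le_E F.toFinset k x y hE ∅).1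
  have j5 : tau (insert (E k x y) F.toFinset) ∅ ≤ tau F.toFinset {x} + 1 := by
    have := tau_le_insert (insert (E k x y) F.toFinset) ∅ x
    rw [show (insert x ∅ : Finset ℕ) = {x} from rfl, (tau_le_E F.toFinset k x y hE {x}).2 (by simp)]
      at this
    exact this
  set e := newE par dp k H F with hedef
  have ex : px e = x := rfl
  have ey : py e = y := rfl
  have en : nm e = k := rfl
  have eca : ca e = min (bs par dp k H F [x] - gam par dp k H F) 1 := rfl
  have ecb : cb e = min (bs par dp k H F [y] - gam par dp k H F) 1 := rfl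
  have ecc : cc e = min (bs par dp k H F [] - gam par dp k H F) 2 := rfl
  have ecd : cd e = min (bv par dp k H F - gam par dp k H F) 2 := rfl
  rw [t1, hgam] at eca
  rw [t2, hgam] at ecb
  rw [t3, hgam] at ecc
  rw [hbv, hgam] at ecd
  have hbdsub : bd H.toFinset F.toFinset ⊆ {x, y} := by
    rcases hcase with ⟨_, h⟩ | ⟨_, h⟩
    · rw [h]
    · exact h.trans (by simp)
  have hstep := I.step hsubH p4 hxy hx hy hbdsub (e := e) ex ey en (γ := tau F.toFinset {x, y}) rfl
    (by omega) (by omega) (by omega) (by
      rcases hcase with ⟨hl2, hbdeq⟩ | ⟨hl2, hbdeq⟩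
      · left
        have : (Fv k H F).toFinset = insert (E k x y) F.toFinset := by
          rw [Fv, decide_eq_true hl2, cond_true, List.toFinset_cons]
        rw [this] at ecd
        omega
      · right
        refine ⟨hbdeq, ?_⟩
        have : Fv k H F = F := by rw [Fv, decide_eq_false hl2, cond_false]
        rw [this] at ecd
        omega)
  have heH : e ∉ H := fun h => by
    have := I.name e (List.mem_toFinset.2 h)
    omega
  have hH' : (repl par dp (acc, k, H) F).2.2 = e :: H.filter fun e => decide (e ∉ F) := rfl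
  have hH'f : (repl par dp (acc, k, H) F).2.2.toFinset = insert e (H.toFinset \ F.toFinset) := by
    rw [hH', List.toFinset_cons]
    congr 1
    ext g
    simp
  have hfnd : (H.filter fun e => decide (e ∉ F)).Nodup := hnd.filter _
  refine ⟨Function.update R e (F.toFinset.biUnion R), ?_, ?_, ?_⟩
  · rw [hH'f]
    have h1 : (repl par dp (acc, k, H) F).1 = acc + tau F.toFinset {x, y} := by
      rw [← hgam]; rfl
    have h2 : (repl par dp (acc, k, H) F).2.1 = k + 1 := rfl
    rw [h1, h2]
    exact hstep
  · rw [hH', List.nodup_cons]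
    exact ⟨fun h => heH (List.mem_filter.1 h).1, hfnd⟩
  · rw [hH', List.length_cons, ← card_toFinset hfnd, ← card_toFinset hnd]
    have h3 : (H.filter fun e => decide (e ∉ F)).toFinset = H.toFinset \ F.toFinset := by
      ext g; simp
    rw [h3, Finset.card_sdiff_of_subset hsubH]
    have h4 := Finset.card_le_card hsubH
    omega

end Pool.Agent.TH694.FV
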