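import Pool.Agent.TH694.FV.StepC

/-!
# The algorithm runs in polynomial time
-/

set_option autoImplicit false

namespace Pool.Agent.TH694.FV

open Pool.Agent Pool.Agent.NPC

variable {α : Type} [TEnc α]

theorem poly_nm : NPC.Poly nm := by unfold nm; fun_prop
theorem poly_px : NPC.Poly px := by unfold px; fun_prop
theorem poly_py : NPC.Poly py := by unfold py; fun_prop

theorem poly_vl {F : α → List Ed} (hF : NPC.Poly F) : NPC.Poly (fun a => vl (F a)) := by
  unfold vl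
  refine poly_dedup (NPC.Poly.flatMap (F := fun _ e => [px e, py e]) hF ?_)
  exact NPC.Poly.cons (poly_px.comp (NPC.Poly.snd NPC.Poly.id))
    (NPC.Poly.cons (poly_py.comp (NPC.Poly.snd NPC.Poly.id)) (NPC.Poly.const _))

theorem poly_pair2 {e : α → Ed} (he : NPC.Poly e) : NPC.Poly (fun a => [px (e a), py (e a)]) :=
  NPC.Poly.cons (poly_px.comp he) (NPC.Poly.cons (poly_py.comp he) (NPC.Poly.const _))

theorem poly_clsL {H : α → List Ed} {A : α → List ℕ} {e : α → Ed} (hH : NPC.Poly H)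
    (hA : NPC.Poly A) (he : NPC.Poly e) : NPC.Poly (fun a => clsL (H a) (A a) (e a)) := by
  unfold clsL
  refine PP.filter (r := fun a f => f = e a ∨ ∃ u ∈ [px (e a), py (e a)], u ∉ A a ∧
    ∃ w ∈ [px f, py f], w ∉ A a ∧ w ∈ reachL (H a) (A a) u) hH ?_
  refine (PP.eq (NPC.Poly.snd NPC.Poly.id) (he.comp (NPC.Poly.fst NPC.Poly.id))).or ?_
  refine PP.bex (l := fun p : α × Ed => [px (e p.1), py (e p.1)])
    (r := fun (p : α × Ed) u => u ∉ A p.1 ∧ ∃ w ∈ [px p.2, py p.2], w ∉ A p.1 ∧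
      w ∈ reachL (H p.1) (A p.1) u) (poly_pair2 (he.comp (NPC.Poly.fst NPC.Poly.id))) ?_
  refine (PP.mem (NPC.Poly.snd NPC.Poly.id)
    (hA.comp (NPC.Poly.fst (NPC.Poly.fst NPC.Poly.id)))).not.and ?_
  refine PP.bex (l := fun p : (α × Ed) × ℕ => [px p.1.2, py p.1.2])
    (r := fun (p : (α × Ed) × ℕ) w => w ∉ A p.1.1 ∧ w ∈ reachL (H p.1.1) (A p.1.1) p.2)
    (poly_pair2 (NPC.Poly.snd (NPC.Poly.fst NPC.Poly.id))) ?_
  refine (PP.mem (NPC.Poly.snd NPC.Poly.id)
    (hA.comp (NPC.Poly.fst (NPC.Poly.fst (NPC.Poly.fst NPC.Poly.id))))).not.and ?_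
  exact PP.mem (NPC.Poly.snd NPC.Poly.id) (poly_reachL
    (hH.comp (NPC.Poly.fst (NPC.Poly.fst (NPC.Poly.fst NPC.Poly.id))))
    (hA.comp (NPC.Poly.fst (NPC.Poly.fst (NPC.Poly.fst NPC.Poly.id))))
    (NPC.Poly.snd (NPC.Poly.fst NPC.Poly.id)))

theorem poly_bdL {H F : α → List Ed} (hH : NPC.Poly H) (hF : NPC.Poly F) :
    NPC.Poly (fun a => bdL (H a) (F a)) := by
  unfold bdL
  refine PP.filter (l := fun a => vl (F a)) (r := fun a v => ∃ g ∈ H a, g ∉ F a ∧
    (v = px g ∨ v = py g)) (inst := fun a v => inferInstanceAs (Decidable (∃ g ∈ H a, g ∉ F a ∧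
    (v = px g ∨ v = py g)))) (poly_vl hF) ?_
  refine PP.bex (l := fun p : α × ℕ => H p.1)
    (r := fun (p : α × ℕ) g => g ∉ F p.1 ∧ (p.2 = px g ∨ p.2 = py g))
    (hH.comp (NPC.Poly.fst NPC.Poly.id)) ?_
  refine (PP.mem (NPC.Poly.snd NPC.Poly.id)
    (hF.comp (NPC.Poly.fst (NPC.Poly.fst NPC.Poly.id)))).not.and ?_
  exact (PP.eq (NPC.Poly.snd (NPC.Poly.fst NPC.Poly.id)) (poly_px.comp (NPC.Poly.snd NPC.Poly.id))).or
    (PP.eq (NPC.Poly.snd (NPC.Poly.fst NPC.Poly.id)) (poly_py.comp (NPC.Poly.snd NPC.Poly.id)))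

theorem poly_take1 {β : Type} [TEnc β] {l : α → List β} (hl : NPC.Poly l) :
    NPC.Poly (fun a => (l a).take 1) := by
  refine (NPC.Poly.listCases (g := fun _ => ([] : List β)) (h := fun _ b _ => [b]) hl
    (NPC.Poly.const _) (NPC.Poly.cons (NPC.Poly.fst (NPC.Poly.snd NPC.Poly.id))
      (NPC.Poly.const _))).congr fun a => ?_
  cases l a <;> simp

theorem poly_argmin {l : α → List (List Ed)} (hl : NPC.Poly l) :
    NPC.Poly (fun a => argmin List.length (l a)) := by
  unfold argmin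
  refine poly_take1 (PP.filter (r := fun a (b : List Ed) => ∀ b' ∈ l a, b.length ≤ b'.length) hl ?_)
  refine PP.ball (l := fun p : α × List Ed => l p.1)
    (r := fun (p : α × List Ed) b' => p.2.length ≤ b'.length)
    (hl.comp (NPC.Poly.fst NPC.Poly.id)) ?_
  exact PP.le (NPC.Poly.length (NPC.Poly.snd (NPC.Poly.fst NPC.Poly.id)))
    (NPC.Poly.length (NPC.Poly.snd NPC.Poly.id))

theorem poly_cand1 {H : α → List Ed} (hH : NPC.Poly H) : NPC.Poly (fun a => cand1 (H a)) := by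
  unfold cand1
  refine NPC.Poly.flatMap (F := fun a e => ((H a).filter fun f => decide (e ≠ f ∧
    (∃ u ∈ [px e, py e], u ∈ [px f, py f]) ∧ (bdL (H a) [e, f]).length ≤ 2)).map fun f => [e, f])
    hH ?_
  refine NPC.Poly.map (F := fun (p : α × Ed) f => [p.2, f]) ?_ ?_
  · refine PP.filter (l := fun p : α × Ed => H p.1) (r := fun (p : α × Ed) f => p.2 ≠ f ∧
      (∃ u ∈ [px p.2, py p.2], u ∈ [px f, py f]) ∧ (bdL (H p.1) [p.2, f]).length ≤ 2)
      (hH.comp (NPC.Poly.fst NPC.Poly.id)) ?_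
    have h1 : NPC.Poly (fun q : (α × Ed) × Ed => q.1.2) := NPC.Poly.snd (NPC.Poly.fst NPC.Poly.id)
    have h2 : NPC.Poly (fun q : (α × Ed) × Ed => q.2) := NPC.Poly.snd NPC.Poly.id
    refine (PP.ne h1 h2).and (PP.and ?_ ?_)
    · exact PP.bex (l := fun q : (α × Ed) × Ed => [px q.1.2, py q.1.2])
        (r := fun (q : (α × Ed) × Ed) u => u ∈ [px q.2, py q.2]) (poly_pair2 h1)
        (PP.mem (NPC.Poly.snd NPC.Poly.id) (poly_pair2 (h2.comp (NPC.Poly.fst NPC.Poly.id))))
    · exact PP.le (NPC.Poly.length (poly_bdL (hH.comp (NPC.Poly.fst (NPC.Poly.fst NPC.Poly.id)))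
        (NPC.Poly.cons h1 (NPC.Poly.cons h2 (NPC.Poly.const _))))) (NPC.Poly.const 2)
  · exact NPC.Poly.cons (NPC.Poly.snd (NPC.Poly.fst NPC.Poly.id))
      (NPC.Poly.cons (NPC.Poly.snd NPC.Poly.id) (NPC.Poly.const _))

theorem poly_al {H : α → List Ed} (hH : NPC.Poly H) : NPC.Poly (fun a => al (H a)) := by
  unfold al
  exact NPC.Poly.cons (NPC.Poly.add (NPC.Poly.sum (poly_vl hH)) (NPC.Poly.const 1)) (poly_vl hH)

theorem poly_candB {H : α → List Ed} (hH : NPC.Poly H) : NPC.Poly (fun a => candB (H a)) := by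
  unfold candB
  refine NPC.Poly.flatMap (F := fun a v => ((H a).map fun e => clsL (H a) [v] e).filter
    fun F => decide (2 ≤ F.length)) (poly_al hH) ?_
  refine PP.filter (l := fun p : α × ℕ => (H p.1).map fun e => clsL (H p.1) [p.2] e)
    (r := fun _ F => 2 ≤ F.length) ?_ ?_
  · refine NPC.Poly.map (l := fun p : α × ℕ => H p.1) (F := fun (p : α × ℕ) e => clsL (H p.1) [p.2] e)
      (hH.comp (NPC.Poly.fst NPC.Poly.id)) ?_
    exact poly_clsL (hH.comp (NPC.Poly.fst (NPC.Poly.fst NPC.Poly.id)))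
      (NPC.Poly.cons (NPC.Poly.snd (NPC.Poly.fst NPC.Poly.id)) (NPC.Poly.const _))
      (NPC.Poly.snd NPC.Poly.id)
  · exact PP.le (NPC.Poly.const 2) (NPC.Poly.length (NPC.Poly.snd NPC.Poly.id))

theorem poly_candG {H B : α → List Ed} {v w : α → ℕ} (hH : NPC.Poly H) (hB : NPC.Poly B)
    (hv : NPC.Poly v) (hw : NPC.Poly w) : NPC.Poly (fun a => candG (H a) (B a) (v a) (w a)) := by
  unfold candG
  refine @PP.filter α (List Ed) _ _ (fun a => (H a).map fun e => clsL (H a) [v a, w a] e) ?_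
    (fun a F => 2 ≤ F.length ∧ ∀ g ∈ F, g ∈ B a) _ ?_
  · refine NPC.Poly.map (l := H) (F := fun a e => clsL (H a) [v a, w a] e) hH ?_
    exact poly_clsL (hH.comp (NPC.Poly.fst NPC.Poly.id))
      (NPC.Poly.cons (hv.comp (NPC.Poly.fst NPC.Poly.id))
        (NPC.Poly.cons (hw.comp (NPC.Poly.fst NPC.Poly.id)) (NPC.Poly.const _)))
      (NPC.Poly.snd NPC.Poly.id)
  · refine (PP.le (NPC.Poly.const 2) (NPC.Poly.length (NPC.Poly.snd NPC.Poly.id))).and ?_
    exact PP.ball (l := fun q : α × List Ed => q.2)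
      (r := fun (q : α × List Ed) g => g ∈ B q.1) (NPC.Poly.snd NPC.Poly.id)
      (PP.mem (NPC.Poly.snd NPC.Poly.id)
        (hB.comp (NPC.Poly.fst (NPC.Poly.fst NPC.Poly.id))))

theorem poly_candF {H B : α → List Ed} (hH : NPC.Poly H) (hB : NPC.Poly B) :
    NPC.Poly (fun a => candF (H a) (B a)) := by
  unfold candF
  refine NPC.Poly.flatMap (F := fun a v => (al (H a)).flatMap fun w =>
    candG (H a) (B a) v w) (poly_al hH) ?_
  refine NPC.Poly.flatMap (l := fun p : α × ℕ => al (H p.1)) (F := fun (p : α × ℕ) w =>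
    candG (H p.1) (B p.1) p.2 w) (poly_al (hH.comp (NPC.Poly.fst NPC.Poly.id))) ?_
  exact poly_candG (hH.comp (NPC.Poly.fst (NPC.Poly.fst NPC.Poly.id)))
    (hB.comp (NPC.Poly.fst (NPC.Poly.fst NPC.Poly.id))) (NPC.Poly.snd (NPC.Poly.fst NPC.Poly.id))
    (NPC.Poly.snd NPC.Poly.id)

theorem poly_pick {H : α → List Ed} (hH : NPC.Poly H) : NPC.Poly (fun a => pick (H a)) := by
  unfold pick
  refine poly_take1 (NPC.Poly.append (poly_cand1 hH) ?_)
  refine NPC.Poly.flatMap (F := fun a B => argmin List.length (candF (H a) B))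
    (poly_argmin (poly_candB hH)) ?_
  exact poly_argmin (poly_candF (hH.comp (NPC.Poly.fst NPC.Poly.id)) (NPC.Poly.snd NPC.Poly.id))

theorem pp_good {F : α → List Ed} (hF : NPC.Poly F) : PP (fun a => Good (F a)) := by
  unfold Good
  refine PP.and ?_ ?_
  · refine PP.ball (l := F) (r := fun _ e => ca e = 0 ∧ cb e = 0 ∧ cc e = 0 ∧ cd e ≤ 1) hF ?_
    have h : NPC.Poly (fun p : α × Ed => p.2) := NPC.Poly.snd NPC.Poly.id
    exact (PP.eq (poly_ca.comp h) (NPC.Poly.const 0)).and ((PP.eq (poly_cb.comp h)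
      (NPC.Poly.const 0)).and ((PP.eq (poly_cc.comp h) (NPC.Poly.const 0)).and
      (PP.le (poly_cd.comp h) (NPC.Poly.const 1))))
  · refine PP.ball (l := fun a => vl (F a)) (r := fun a v => ((F a).filter fun e =>
      decide (cd e = 1 ∧ (v = px e ∨ v = py e))).length ≤ 3) (poly_vl hF) ?_
    refine PP.le (NPC.Poly.length (PP.filter (l := fun p : α × ℕ => F p.1)
      (r := fun (p : α × ℕ) e => cd e = 1 ∧ (p.2 = px e ∨ p.2 = py e))
      (hF.comp (NPC.Poly.fst NPC.Poly.id)) ?_)) (NPC.Poly.const 3)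
    have h : NPC.Poly (fun p : (α × ℕ) × Ed => p.2) := NPC.Poly.snd NPC.Poly.id
    have h' : NPC.Poly (fun p : (α × ℕ) × Ed => p.1.2) := NPC.Poly.snd (NPC.Poly.fst NPC.Poly.id)
    exact (PP.eq (poly_cd.comp h) (NPC.Poly.const 1)).and ((PP.eq h' (poly_px.comp h)).or
      (PP.eq h' (poly_py.comp h)))

theorem poly_ol {H F : α → List Ed} (hH : NPC.Poly H) (hF : NPC.Poly F) :
    NPC.Poly (fun a => ol (H a) (F a)) := by
  unfold ol
  refine NPC.Poly.append (poly_bdL hH hF) (PP.filter (r := fun a v => v ∉ bdL (H a) (F a))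
    (poly_vl hF) ?_)
  exact (PP.mem (NPC.Poly.snd NPC.Poly.id) (poly_bdL (hH.comp (NPC.Poly.fst NPC.Poly.id))
    (hF.comp (NPC.Poly.fst NPC.Poly.id)))).not

theorem poly_xo {H F : α → List Ed} (hH : NPC.Poly H) (hF : NPC.Poly F) :
    NPC.Poly (fun a => xo (H a) (F a)) := by
  unfold xo
  exact NPC.Poly.getD (poly_ol hH hF) (NPC.Poly.const 0) (NPC.Poly.const 0)

theorem poly_yo {H F : α → List Ed} (hH : NPC.Poly H) (hF : NPC.Poly F) :
    NPC.Poly (fun a => yo (H a) (F a)) := by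
  unfold yo
  exact NPC.Poly.getD (poly_ol hH hF) (NPC.Poly.const 1) (NPC.Poly.const 0)

theorem poly_Fv {k : α → ℕ} {H F : α → List Ed} (hk : NPC.Poly k) (hH : NPC.Poly H)
    (hF : NPC.Poly F) : NPC.Poly (fun a => Fv (k a) (H a) (F a)) := by
  unfold Fv
  refine NPC.Poly.cond (PP.dec (PP.eq (NPC.Poly.length (poly_bdL hH hF)) (NPC.Poly.const 2))) ?_ hF
  refine NPC.Poly.cons ?_ hF
  exact NPC.Poly.pair (NPC.Poly.pair hk (NPC.Poly.pair (poly_xo hH hF) (poly_yo hH hF)))
    (NPC.Poly.const _)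

section
variable {par dp : List Ed → List ℕ → ℕ}

theorem poly_base (hpar : NPC.Poly (fun p : List Ed × List ℕ => par p.1 p.2))
    (hdp : NPC.Poly (fun p : List Ed × List ℕ => dp p.1 p.2)) {ok : α → Bool} {F : α → List Ed}
    {D : α → List ℕ} (hok : NPC.Poly ok) (hF : NPC.Poly F) (hD : NPC.Poly D) :
    NPC.Poly (fun a => base par dp (ok a) (F a) (D a)) := by
  unfold base
  exact NPC.Poly.cond hok (hpar.comp (NPC.Poly.pair hF hD)) (hdp.comp (NPC.Poly.pair hF hD))

theorem poly_bs (hpar : NPC.Poly (fun p : List Ed × List ℕ => par p.1 p.2))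
    (hdp : NPC.Poly (fun p : List Ed × List ℕ => dp p.1 p.2)) {k : α → ℕ} {H F : α → List Ed}
    {D : α → List ℕ} (hk : NPC.Poly k) (hH : NPC.Poly H) (hF : NPC.Poly F) (hD : NPC.Poly D) :
    NPC.Poly (fun a => bs par dp (k a) (H a) (F a) (D a)) := by
  unfold bs
  exact poly_base hpar hdp (PP.dec (pp_good (poly_Fv hk hH hF))) hF hD

theorem poly_bv (hpar : NPC.Poly (fun p : List Ed × List ℕ => par p.1 p.2))
    (hdp : NPC.Poly (fun p : List Ed × List ℕ => dp p.1 p.2)) {k : α → ℕ} {H F : α → List Ed}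
    (hk : NPC.Poly k) (hH : NPC.Poly H) (hF : NPC.Poly F) :
    NPC.Poly (fun a => bv par dp (k a) (H a) (F a)) := by
  unfold bv
  exact poly_base hpar hdp (PP.dec (pp_good (poly_Fv hk hH hF))) (poly_Fv hk hH hF)
    (NPC.Poly.const _)

theorem poly_gam (hpar : NPC.Poly (fun p : List Ed × List ℕ => par p.1 p.2))
    (hdp : NPC.Poly (fun p : List Ed × List ℕ => dp p.1 p.2)) {k : α → ℕ} {H F : α → List Ed}
    (hk : NPC.Poly k) (hH : NPC.Poly H) (hF : NPC.Poly F) :
    NPC.Poly (fun a => gam par dp (k a) (H a) (F a)) := by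
  unfold gam
  exact NPC.Poly.min (poly_bs hpar hdp hk hH hF (NPC.Poly.cons (poly_xo hH hF)
    (NPC.Poly.cons (poly_yo hH hF) (NPC.Poly.const _))))
    (NPC.Poly.mul (NPC.Poly.const 2) (NPC.Poly.length hF))

theorem poly_newE (hpar : NPC.Poly (fun p : List Ed × List ℕ => par p.1 p.2))
    (hdp : NPC.Poly (fun p : List Ed × List ℕ => dp p.1 p.2)) {k : α → ℕ} {H F : α → List Ed}
    (hk : NPC.Poly k) (hH : NPC.Poly H) (hF : NPC.Poly F) :
    NPC.Poly (fun a => newE par dp (k a) (H a) (F a)) := by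
  unfold newE
  have hg := poly_gam hpar hdp hk hH hF
  refine NPC.Poly.pair (NPC.Poly.pair hk (NPC.Poly.pair (poly_xo hH hF) (poly_yo hH hF)))
    (NPC.Poly.pair (NPC.Poly.pair ?_ ?_) (NPC.Poly.pair ?_ ?_))
  · exact NPC.Poly.min (NPC.Poly.sub (poly_bs hpar hdp hk hH hF (NPC.Poly.cons (poly_xo hH hF)
      (NPC.Poly.const _))) hg) (NPC.Poly.const 1)
  · exact NPC.Poly.min (NPC.Poly.sub (poly_bs hpar hdp hk hH hF (NPC.Poly.cons (poly_yo hH hF)
      (NPC.Poly.const _))) hg) (NPC.Poly.const 1)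
  · exact NPC.Poly.min (NPC.Poly.sub (poly_bs hpar hdp hk hH hF (NPC.Poly.const _)) hg)
      (NPC.Poly.const 2)
  · exact NPC.Poly.min (NPC.Poly.sub (poly_bv hpar hdp hk hH hF) hg) (NPC.Poly.const 2)

theorem poly_repl (hpar : NPC.Poly (fun p : List Ed × List ℕ => par p.1 p.2))
    (hdp : NPC.Poly (fun p : List Ed × List ℕ => dp p.1 p.2)) {s : α → ℕ × ℕ × List Ed}
    {F : α → List Ed} (hs : NPC.Poly s) (hF : NPC.Poly F) :
    NPC.Poly (fun a => repl par dp (s a) (F a)) := by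
  unfold repl
  have h1 : NPC.Poly (fun a => (s a).1) := NPC.Poly.fst hs
  have h2 : NPC.Poly (fun a => (s a).2.1) := NPC.Poly.fst (NPC.Poly.snd hs)
  have h3 : NPC.Poly (fun a => (s a).2.2) := NPC.Poly.snd (NPC.Poly.snd hs)
  refine NPC.Poly.pair (NPC.Poly.add h1 (poly_gam hpar hdp h2 h3 hF))
    (NPC.Poly.pair (NPC.Poly.add h2 (NPC.Poly.const 1))
      (NPC.Poly.cons (poly_newE hpar hdp h2 h3 hF) ?_))
  refine PP.filter (r := fun a e => e ∉ F a) h3 ?_
  exact (PP.mem (NPC.Poly.snd NPC.Poly.id) (hF.comp (NPC.Poly.fst NPC.Poly.id))).not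

theorem poly_step (hpar : NPC.Poly (fun p : List Ed × List ℕ => par p.1 p.2))
    (hdp : NPC.Poly (fun p : List Ed × List ℕ => dp p.1 p.2)) {s : α → ℕ × ℕ × List Ed}
    (hs : NPC.Poly s) : NPC.Poly (fun a => step par dp (s a)) := by
  unfold step
  have h3 : NPC.Poly (fun a => (s a).2.2) := NPC.Poly.snd (NPC.Poly.snd hs)
  refine NPC.Poly.optGetD (NPC.Poly.head? (NPC.Poly.map (F := fun a F => repl par dp (s a) F)
    (poly_pick h3) ?_)) hs
  exact poly_repl hpar hdp (hs.comp (NPC.Poly.fst NPC.Poly.id)) (NPC.Poly.snd NPC.Poly.id)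

end

/-! ### Size bounds -/

theorem pick_sub {H F : List Ed} (h : F ∈ pick H) : (∀ g ∈ F, g ∈ H) ∧ F.length ≤ H.length + 2 := by
  rcases pick_cases h with h | ⟨_, B, _, hF⟩
  · obtain ⟨e, he, f, hf, _, _, _, rfl⟩ := mem_cand1.1 h
    refine ⟨?_, by simp⟩
    intro g hg
    simp only [List.mem_cons, List.not_mem_nil, or_false] at hg
    rcases hg with rfl | rfl
    · exact he
    · exact hf
  · obtain ⟨a, _, b, _, e, _, rfl, _, _⟩ := mem_candF.1 (argmin_mem hF).1
    exact ⟨fun g hg => (clsL_sublist _ _ _).subset hg,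
      (clsL_sublist _ _ _).length_le.trans (Nat.le_add_right _ _)⟩

/-- bounds for the states -/
structure Bnd (W n j : ℕ) (s : ℕ × ℕ × List Ed) : Prop where
  acc : s.1 ≤ (4 * n + 4) * j
  k : s.2.1 ≤ 1 + j
  len : s.2.2.length ≤ n + j
  ends : ∀ e ∈ s.2.2, sz (px e) ≤ W ∧ sz (py e) ≤ W
  size : ∀ e ∈ s.2.2, sz e ≤ 2 * W + 4 * (n + 1) + 60

theorem mem_ol_getD {H F : List Ed} (i : ℕ) : (ol H F).getD i 0 = 0 ∨
    ∃ e ∈ F, (ol H F).getD i 0 = px e ∨ (ol H F).getD i 0 = py e := by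
  by_cases hi : i < (ol H F).length
  · right
    have h1 : (ol H F).getD i 0 ∈ ol H F := by
      rw [List.getD_eq_getElem _ _ hi]
      exact List.getElem_mem hi
    rw [mem_ol] at h1
    obtain ⟨e, he, hv⟩ := mem_vs.1 h1
    exact ⟨e, List.mem_toFinset.1 he, mem_ends.1 hv⟩
  · left
    exact List.getD_eq_default _ _ (by omega)

theorem sz_zero : sz (0 : ℕ) = 1 := by
  have := sz_nat_le 0
  have h := sz_pos (0 : ℕ)
  simp at this
  omega

theorem sz_small {m : ℕ} (h : m ≤ 2) : sz m ≤ 9 := by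
  have h1 := sz_nat_le m
  have h2 : m.size ≤ 2 := by
    have : m < 2 ^ 2 := by omega
    exact Nat.size_le.2 this
  omega

theorem bnd_step {par dp : List Ed → List ℕ → ℕ} {W n j : ℕ} (hW : 1 ≤ W) (hj : j < n)
    {s : ℕ × ℕ × List Ed} (h : Bnd W n j s) : Bnd W n (j + 1) (step par dp s) := by
  unfold step
  rcases hp : (pick s.2.2) with _ | ⟨F, l⟩
  · simp only [List.map_nil, List.head?_nil, Option.getD_none]
    refine ⟨h.acc.trans ?_, h.k.trans (by omega), h.len.trans (by omega), h.ends, h.size⟩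
    exact Nat.mul_le_mul_left _ (Nat.le_succ _)
  · simp only [List.map_cons, List.head?_cons, Option.getD_some]
    obtain ⟨h1, h2⟩ := pick_sub (show F ∈ pick s.2.2 by rw [hp]; exact List.mem_cons_self)
    have hlen := h.len
    have hk := h.k
    have hends : ∀ i, sz ((ol s.2.2 F).getD i 0) ≤ W := by
      intro i
      rcases mem_ol_getD (H := s.2.2) (F := F) i with h3 | ⟨e, he, h3 | h3⟩
      · rw [h3, sz_zero]; exact hW
      · rw [h3]; exact (h.ends e (h1 e he)).1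
      · rw [h3]; exact (h.ends e (h1 e he)).2
    refine ⟨?_, ?_, ?_, ?_, ?_⟩
    · change s.1 + gam par dp s.2.1 s.2.2 F ≤ _
      have h3 : gam par dp s.2.1 s.2.2 F ≤ 2 * F.length := min_le_right _ _
      have h4 : gam par dp s.2.1 s.2.2 F ≤ 4 * n + 4 := by omega
      have := h.acc
      calc s.1 + gam par dp s.2.1 s.2.2 F ≤ (4 * n + 4) * j + (4 * n + 4) := by omega
        _ = (4 * n + 4) * (j + 1) := by ring
    · change s.2.1 + 1 ≤ _
      omega
    · change (newE par dp s.2.1 s.2.2 F :: s.2.2.filter fun e => decide (e ∉ F)).length ≤ _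
      rw [List.length_cons]
      have := List.length_filter_le (fun e => decide (e ∉ F)) s.2.2
      omega
    · intro e he
      change e ∈ newE par dp s.2.1 s.2.2 F :: s.2.2.filter fun e => decide (e ∉ F) at he
      rw [List.mem_cons] at he
      rcases he with rfl | he
      · exact ⟨hends 0, hends 1⟩
      · exact h.ends e (List.mem_filter.1 he).1
    · intro e he
      change e ∈ newE par dp s.2.1 s.2.2 F :: s.2.2.filter fun e => decide (e ∉ F) at he
      rw [List.mem_cons] at he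
      rcases he with rfl | he
      · unfold newE
        rw [sz_pair, sz_pair, sz_pair, sz_pair, sz_pair, sz_pair]
        have a1 : sz s.2.1 ≤ 4 * (n + 1) + 1 := by
          have b1 := sz_nat_le s.2.1
          have b2 : s.2.1.size ≤ s.2.1 := Nat.size_le.2 Nat.lt_two_pow_self
          omega
        have a2 : sz (xo s.2.2 F) ≤ W := hends 0
        have a3 : sz (yo s.2.2 F) ≤ W := hends 1
        have a4 : ∀ m, sz (min m 1) ≤ 9 := fun m => sz_small ((min_le_right _ _).trans (by omega))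
        have a5 : ∀ m, sz (min m 2) ≤ 9 := fun m => sz_small (min_le_right _ _)
        have b1 := a4 (bs par dp s.2.1 s.2.2 F [xo s.2.2 F] - gam par dp s.2.1 s.2.2 F)
        have b2 := a4 (bs par dp s.2.1 s.2.2 F [yo s.2.2 F] - gam par dp s.2.1 s.2.2 F)
        have b3 := a5 (bs par dp s.2.1 s.2.2 F [] - gam par dp s.2.1 s.2.2 F)
        have b4 := a5 (bv par dp s.2.1 s.2.2 F - gam par dp s.2.1 s.2.2 F)
        omega
      · exact h.size e (List.mem_filter.1 he).1

theorem foldl_step {par dp : List Ed → List ℕ → ℕ} :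
    ∀ (l : List Ed) (s : ℕ × ℕ × List Ed), l.foldl (fun s _ => step par dp s) s =
      (step par dp)^[l.length] s
  | [], s => rfl
  | e :: l, s => by
    rw [List.foldl_cons, foldl_step l]
    rfl

theorem bnd_iter {par dp : List Ed → List ℕ → ℕ} {W n : ℕ} (hW : 1 ≤ W) {s : ℕ × ℕ × List Ed}
    (h : Bnd W n 0 s) : ∀ j ≤ n, Bnd W n j ((step par dp)^[j] s)
  | 0, _ => h
  | j + 1, hj => by
    rw [Function.iterate_succ_apply']
    exact bnd_step hW (by omega) (bnd_iter hW h j (by omega))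

theorem bnd_size {W n j : ℕ} (hn : n ≤ W) (hj : j ≤ n) {s : ℕ × ℕ × List Ed} (h : Bnd W n j s) :
    sz s ≤ 28 * W * W + 200 * W + 20 := by
  obtain ⟨acc, k, H⟩ := s
  have h1 : acc ≤ (4 * n + 4) * j := h.acc
  have h2 : k ≤ 1 + j := h.k
  have h3 : H.length ≤ n + j := h.len
  have h4 : ∀ e ∈ H, sz e ≤ 2 * W + 4 * (n + 1) + 60 := h.size
  have h5 := sz_le_length_mul H _ h4
  rw [sz_pair, sz_pair]
  have a1 := sz_nat_le acc
  have a2 : acc.size ≤ acc := Nat.size_le.2 Nat.lt_two_pow_self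
  have a3 := sz_nat_le k
  have a4 : k.size ≤ k := Nat.size_le.2 Nat.lt_two_pow_self
  have a5 : acc ≤ (4 * W + 4) * W :=
    h1.trans (Nat.mul_le_mul (by omega) (hj.trans hn))
  have a6 : H.length * (2 * W + 4 * (n + 1) + 60 + 1) ≤ (2 * W) * (6 * W + 65) :=
    Nat.mul_le_mul (by omega) (by omega)
  have e1 : (4 * W + 4) * W = 4 * (W * W) + 4 * W := by ring
  have e2 : (2 * W) * (6 * W + 65) = 12 * (W * W) + 130 * W := by ring
  have e3 : 28 * W * W = 28 * (W * W) := by ring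
  rw [e1] at a5
  rw [e2] at a6
  rw [e3]
  omega

/-- **The algorithm runs in polynomial time.** -/
theorem poly_solve {par dp : List Ed → List ℕ → ℕ}
    (hpar : NPC.Poly (fun p : List Ed × List ℕ => par p.1 p.2))
    (hdp : NPC.Poly (fun p : List Ed × List ℕ => dp p.1 p.2)) :
    NPC.Poly (fun H : List Ed => solve par dp H) := by
  have h1 : NPC.Poly (fun H : List Ed => H.foldl (fun s _ => step par dp s) (0, 1, H)) := by
    refine NPC.Poly.foldl (l := fun H : List Ed => H) (s := fun H : List Ed => (0, 1, H))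
      (F := fun _ s _ => step par dp s) NPC.Poly.id
      (NPC.Poly.pair (NPC.Poly.const 0) (NPC.Poly.pair (NPC.Poly.const 1) NPC.Poly.id))
      (poly_step hpar hdp (NPC.Poly.fst (NPC.Poly.snd NPC.Poly.id)))
      (28 * Polynomial.X * Polynomial.X + 200 * Polynomial.X + 20) ?_
    intro H j hj
    rw [foldl_step, List.length_take, min_eq_left hj]
    have hlen := length_lt_sz H
    have hb : Bnd (sz H) H.length 0 (0, 1, H) := by
      refine ⟨Nat.zero_le _, le_rfl, le_rfl, fun e he => ?_, fun e he => ?_⟩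
      · have h2 := sz_le_of_mem (show e ∈ H from he)
        have h3 : sz e = (sz (nm e) + (sz (px e) + sz (py e) + 1) + 1) +
          ((sz (ca e) + sz (cb e) + 1) + (sz (cc e) + sz (cd e) + 1) + 1) + 1 := by
          conv_lhs => rw [show e = ((nm e, px e, py e), (ca e, cb e), (cc e, cd e)) from rfl]
          rw [sz_pair, sz_pair, sz_pair, sz_pair, sz_pair, sz_pair]
        omega
      · have h2 := sz_le_of_mem (show e ∈ H from he)
        omega
    have := bnd_size (by omega) hj (bnd_iter (par := par) (dp := dp) (sz_pos H) hb j hj)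
    simpa using this
  unfold solve
  exact NPC.Poly.add (NPC.Poly.fst h1) (NPC.Poly.sum (NPC.Poly.map (F := fun _ e => cc e)
    (NPC.Poly.snd (NPC.Poly.snd h1)) (poly_cc.comp (NPC.Poly.snd NPC.Poly.id))))

end Pool.Agent.TH694.FV
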